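import Mathlib

/-!
# Digits
-/

namespace Pool.Agent.P.MP_8f87b2_lc.KS

open Finset

/-- digit number `a` of `w` in base `b` -/
def dg (b a w : ℕ) : ℕ := w / b ^ a % b

/-- the sum of the first `q` digits -/
def ds (b q w : ℕ) : ℕ := ∑ a ∈ range q, dg b a w

/-- the number with the given first `q` digits -/
def enc (b q : ℕ) (f : ℕ → ℕ) : ℕ := ∑ a ∈ range q, f a * b ^ a

/-- `y` is below `x` in each of the first `q` digits -/
def Below (b q y x : ℕ) : Prop := ∀ a < q, dg b a y ≤ dg b a x

instance (b q y x : ℕ) : Decidable (Below b q y x) := by unfold Below; infer_instance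

/-- the linear form with the digits as coefficients -/
def Hd {α : Type*} [CommSemiring α] (b q : ℕ) (R : ℕ → α) (w : ℕ) : α :=
  ∑ a ∈ range q, (dg b a w : α) * R a

variable {b q : ℕ}

theorem dg_lt (hb : 0 < b) (a w : ℕ) : dg b a w < b := Nat.mod_lt _ hb

@[simp] theorem dg_zero (b a : ℕ) : dg b a 0 = 0 := by simp [dg]

theorem dg_of_lt {a w : ℕ} (h : w < b ^ a) : dg b a w = 0 := by
  simp [dg, Nat.div_eq_of_lt h]

theorem dg_of_lt' (hb : 0 < b) {a w : ℕ} (h : w < b ^ q) (ha : q ≤ a) : dg b a w = 0 :=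
  dg_of_lt (h.trans_le (Nat.pow_le_pow_right hb ha))

theorem dg_div (b a w : ℕ) : dg b a (w / b) = dg b (a + 1) w := by
  rw [dg, dg, Nat.div_div_eq_div_mul, pow_succ']

theorem enc_succ (b q : ℕ) (f : ℕ → ℕ) : enc b (q + 1) f = enc b q f + f q * b ^ q :=
  sum_range_succ _ _

theorem enc_congr {f g : ℕ → ℕ} (h : ∀ a < q, f a = g a) : enc b q f = enc b q g :=
  sum_congr rfl fun a ha => by rw [h a (mem_range.mp ha)]

theorem enc_lt {f : ℕ → ℕ} (h : ∀ a < q, f a < b) : enc b q f < b ^ q := by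
  induction q with
  | zero => simp [enc]
  | succ q ih =>
    have h1 := ih fun a ha => h a (by omega)
    have h2 : (f q + 1) * b ^ q ≤ b * b ^ q := Nat.mul_le_mul_right _ (h q (by omega))
    rw [enc_succ, pow_succ']
    linarith

theorem enc_dg (b q w : ℕ) : enc b q (fun a => dg b a w) = w % b ^ q := by
  induction q with
  | zero => simp [enc, Nat.mod_one]
  | succ q ih => rw [enc_succ, ih, pow_succ, Nat.mod_mul, dg, mul_comm]

theorem enc_dg' {w : ℕ} (h : w < b ^ q) : enc b q (fun a => dg b a w) = w := by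
  rw [enc_dg, Nat.mod_eq_of_lt h]

theorem dg_add_mul_lt (hb : 0 < b) {a j : ℕ} (h : a < j) (w x : ℕ) :
    dg b a (w + x * b ^ j) = dg b a w := by
  obtain ⟨i, rfl⟩ := Nat.exists_eq_add_of_lt h
  have hp : 0 < b ^ a := by positivity
  rw [dg, dg, show x * b ^ (a + i + 1) = x * b ^ i * b * b ^ a by ring,
    Nat.add_mul_div_right _ _ hp, Nat.add_mul_mod_self_right]

theorem dg_add_mul_ge (hb : 0 < b) {j w : ℕ} (hw : w < b ^ j) (i x : ℕ) :
    dg b (j + i) (w + x * b ^ j) = dg b i x := by
  have hp : 0 < b ^ j := by positivity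
  rw [dg, dg, pow_add, ← Nat.div_div_eq_div_mul, Nat.add_mul_div_right _ _ hp,
    Nat.div_eq_of_lt hw, zero_add]

theorem dg_enc {f : ℕ → ℕ} (h : ∀ a < q, f a < b) {a : ℕ} (ha : a < q) :
    dg b a (enc b q f) = f a := by
  have hb : 0 < b := by have := h a ha; omega
  induction q with
  | zero => omega
  | succ q ih =>
    rw [enc_succ]
    rcases Nat.lt_succ_iff_lt_or_eq.mp ha with h1 | rfl
    · rw [dg_add_mul_lt hb h1, ih (fun a ha => h a (by omega)) h1]
    · have := dg_add_mul_ge hb (enc_lt (q := a) fun i hi => h i (by omega)) 0 (f a)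
      rw [add_zero] at this
      rw [this, dg, pow_zero, Nat.div_one, Nat.mod_eq_of_lt (h a ha)]

theorem dg_ext {w w' : ℕ} (hw : w < b ^ q) (hw' : w' < b ^ q)
    (h : ∀ a < q, dg b a w = dg b a w') : w = w' := by
  rw [← enc_dg' hw, ← enc_dg' hw']
  exact enc_congr h

/-- addition without carries -/
theorem add_nc {u v : ℕ} (hu : u < b ^ q) (hv : v < b ^ q)
    (h : ∀ a < q, dg b a u + dg b a v < b) :
    u + v < b ^ q ∧ ∀ a < q, dg b a (u + v) = dg b a u + dg b a v := by
  have e : u + v = enc b q fun a => dg b a u + dg b a v := by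
    conv_lhs => rw [← enc_dg' hu, ← enc_dg' hv]
    simp only [enc, add_mul, sum_add_distrib]
  rw [e]
  exact ⟨enc_lt h, fun a ha => dg_enc h ha⟩

/-- subtraction without borrows -/
theorem sub_nb (hb : 0 < b) {y x : ℕ} (hy : y < b ^ q) (hx : x < b ^ q) (h : Below b q y x) :
    y ≤ x ∧ ∀ a < q, dg b a (x - y) + dg b a y = dg b a x := by
  have hf : ∀ a < q, dg b a x - dg b a y < b := fun a _ =>
    (Nat.sub_le _ _).trans_lt (dg_lt hb _ _)
  have e : enc b q (fun a => dg b a x - dg b a y) + y = x := by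
    conv_lhs => rw [← enc_dg' hy]
    conv_rhs => rw [← enc_dg' hx]
    simp only [enc, ← sum_add_distrib]
    refine sum_congr rfl fun a ha => ?_
    rw [← enc, enc_dg' hy, ← add_mul, Nat.sub_add_cancel (h a (mem_range.mp ha))]
  refine ⟨by omega, fun a ha => ?_⟩
  rw [show x - y = enc b q (fun a => dg b a x - dg b a y) by omega, dg_enc hf ha,
    Nat.sub_add_cancel (h a ha)]

theorem dg_pow (hb : 1 < b) (a i : ℕ) : dg b i (b ^ a) = if i = a then 1 else 0 := by
  have hb0 : 0 < b := by omega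
  rcases lt_trichotomy i a with h | rfl | h
  · have := dg_add_mul_lt hb0 h 0 1
    rw [zero_add, one_mul, dg_zero] at this
    rw [this, if_neg h.ne]
  · rw [if_pos rfl, dg, Nat.div_self (by positivity), Nat.mod_eq_of_lt hb]
  · rw [if_neg h.ne', dg_of_lt (Nat.pow_lt_pow_right hb h)]

theorem pow_le_of_dg {a w : ℕ} (h : 1 ≤ dg b a w) : b ^ a ≤ w := by
  by_contra hc
  rw [dg_of_lt (by omega)] at h
  omega

/-- lowering one digit by one -/
theorem dg_sub_pow (hb : 0 < b) {a w : ℕ} (h : 1 ≤ dg b a w) (i : ℕ) :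
    dg b i (w - b ^ a) = if i = a then dg b a w - 1 else dg b i w := by
  have hb1 : 1 < b := by have := dg_lt hb a w; omega
  have h1 : w < b ^ (w + a + i + 1) :=
    (Nat.lt_pow_self hb1).trans_le (Nat.pow_le_pow_right hb (by omega))
  have h2 : b ^ a < b ^ (w + a + i + 1) := Nat.pow_lt_pow_right hb1 (by omega)
  have h3 := (sub_nb hb h2 h1 fun j _ => by
    rw [dg_pow hb1]; split_ifs with e
    · rw [e]; exact h
    · omega).2 i (by omega)
  rw [dg_pow hb1] at h3
  split_ifs at h3 ⊢ with e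
  · subst e; omega
  · omega

/-- raising one digit by one -/
theorem dg_add_pow {a w : ℕ} (h : dg b a w + 1 < b) (i : ℕ) :
    dg b i (w + b ^ a) = if i = a then dg b a w + 1 else dg b i w := by
  have hb1 : 1 < b := by omega
  have hb : 0 < b := by omega
  have h1 : w < b ^ (w + a + i + 1) :=
    (Nat.lt_pow_self hb1).trans_le (Nat.pow_le_pow_right hb (by omega))
  have h2 : b ^ a < b ^ (w + a + i + 1) := Nat.pow_lt_pow_right hb1 (by omega)
  rw [(add_nc h1 h2 fun j _ => by
    rw [dg_pow hb1]; split_ifs with e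
    · rw [e]; exact h
    · exact dg_lt hb _ _).2 i (by omega), dg_pow hb1]
  split_ifs with e
  · rw [e]
  · rfl

theorem add_pow_lt {a w : ℕ} (ha : a < q) (hw : w < b ^ q) (h : dg b a w + 1 < b) :
    w + b ^ a < b ^ q := by
  have hb1 : 1 < b := by omega
  refine (add_nc hw (Nat.pow_lt_pow_right hb1 ha) fun j _ => ?_).1
  rw [dg_pow hb1]; split_ifs with e
  · rw [e]; exact h
  · exact dg_lt (by omega) _ _

theorem ds_sub_pow (hb : 0 < b) {a w : ℕ} (ha : a < q) (h : 1 ≤ dg b a w) :
    ds b q (w - b ^ a) + 1 = ds b q w := by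
  unfold ds
  rw [← add_sum_erase _ _ (mem_range.mpr ha), ← add_sum_erase _ _ (mem_range.mpr ha),
    sum_congr rfl fun i hi => (dg_sub_pow hb h i).trans (if_neg (ne_of_mem_erase hi)),
    dg_sub_pow hb h, if_pos rfl]
  omega

theorem ds_add_pow {a w : ℕ} (ha : a < q) (h : dg b a w + 1 < b) :
    ds b q (w + b ^ a) = ds b q w + 1 := by
  unfold ds
  rw [← add_sum_erase _ _ (mem_range.mpr ha), ← add_sum_erase _ _ (mem_range.mpr ha),
    sum_congr rfl fun i hi => (dg_add_pow h i).trans (if_neg (ne_of_mem_erase hi)),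
    dg_add_pow h, if_pos rfl]
  omega

theorem ds_of_dg {u v e : ℕ} (h : ∀ a < q, dg b a u + dg b a v = dg b a e) :
    ds b q u + ds b q v = ds b q e := by
  unfold ds
  rw [← sum_add_distrib]
  exact sum_congr rfl fun a ha => h a (mem_range.mp ha)

theorem Hd_of_dg {α : Type*} [CommSemiring α] (R : ℕ → α) {u v e : ℕ}
    (h : ∀ a < q, dg b a u + dg b a v = dg b a e) : Hd b q R u + Hd b q R v = Hd b q R e := by
  unfold Hd
  rw [← sum_add_distrib]
  refine sum_congr rfl fun a ha => ?_
  rw [← h a (mem_range.mp ha), Nat.cast_add, add_mul]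

theorem ds_le (hb : 0 < b) (q w : ℕ) : ds b q w ≤ q * b := by
  have := sum_le_card_nsmul (range q) (fun a => dg b a w) b fun a _ => (dg_lt hb a w).le
  simpa [ds] using this

@[simp] theorem ds_zero (b q : ℕ) : ds b q 0 = 0 := by simp [ds]

/-- a low part and a high part add without carries -/
theorem dg_split (hb : 0 < b) {j w : ℕ} (hw : w < b ^ j) (x a : ℕ) :
    dg b a w + dg b a (x * b ^ j) = dg b a (w + x * b ^ j) := by
  rcases Nat.lt_or_ge a j with h | h
  · have := dg_add_mul_lt hb h 0 x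
    rw [zero_add, dg_zero] at this
    rw [this, dg_add_mul_lt hb h, add_zero]
  · obtain ⟨i, rfl⟩ := Nat.exists_eq_add_of_le h
    have := dg_add_mul_ge hb (show 0 < b ^ j by positivity) i x
    rw [zero_add] at this
    rw [this, dg_add_mul_ge hb hw, dg_of_lt' hb hw h, zero_add]

theorem dg_top (hb : 0 < b) {a : ℕ} (ha : a < q) : dg b a (b ^ q - 1) = b - 1 := by
  have e : ∀ q, enc b q (fun _ => b - 1) + 1 = b ^ q := by
    intro q
    induction q with
    | zero => simp [enc]
    | succ q ih =>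
      obtain ⟨c, rfl⟩ : ∃ c, b = c + 1 := ⟨b - 1, by omega⟩
      rw [enc_succ, pow_succ, Nat.add_sub_cancel] at *
      linarith
  rw [← e q, Nat.add_sub_cancel, dg_enc (fun _ _ => by omega) ha]

theorem below_top (hb : 0 < b) (w : ℕ) : Below b q w (b ^ q - 1) := fun a ha => by
  rw [dg_top hb ha]; have := dg_lt hb a w; omega

/-- sums of products over the digits -/
theorem sum_dg_prod {α : Type*} [CommSemiring α] (b q : ℕ) (f : ℕ → ℕ → α) :
    ∑ w ∈ range (b ^ q), ∏ a ∈ range q, f a (dg b a w) =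
      ∏ a ∈ range q, ∑ x ∈ range b, f a x := by
  rcases Nat.eq_zero_or_pos b with rfl | hb
  · cases q with
    | zero => simp
    | succ q => simp
  induction q with
  | zero => simp
  | succ q ih =>
    rw [prod_range_succ, ← ih, sum_mul_sum, ← sum_product', eq_comm]
    refine sum_bij' (fun p _ => p.1 + p.2 * b ^ q) (fun w _ => (w % b ^ q, w / b ^ q))
      ?_ ?_ ?_ ?_ ?_
    · rintro ⟨w, x⟩ h
      simp only [mem_product, mem_range] at h ⊢
      have := Nat.mul_le_mul_right (b ^ q) h.2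
      rw [pow_succ']
      linarith [Nat.succ_mul x (b ^ q)]
    · intro w h
      simp only [mem_product, mem_range] at h ⊢
      exact ⟨Nat.mod_lt _ (by positivity), Nat.div_lt_of_lt_mul (by rwa [pow_succ] at h)⟩
    · rintro ⟨w, x⟩ h
      simp only [mem_product, mem_range] at h
      have hp : 0 < b ^ q := by positivity
      simp [Nat.add_mul_div_right _ _ hp, Nat.div_eq_of_lt h.1, Nat.mod_eq_of_lt h.1]
    · intro w _
      exact Nat.mod_add_div' _ _
    · rintro ⟨w, x⟩ h
      simp only [mem_product, mem_range] at h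
      rw [prod_range_succ]
      congr 1
      · exact prod_congr rfl fun a ha => by rw [dg_add_mul_lt hb (mem_range.mp ha)]
      · have := dg_add_mul_ge hb h.1 0 x
        rw [add_zero] at this
        rw [this, dg, pow_zero, Nat.div_one, Nat.mod_eq_of_lt h.2]

theorem card_below (hb : 0 < b) (q e : ℕ) :
    ((range (b ^ q)).filter fun u => Below b q u e).card = ∏ a ∈ range q, (dg b a e + 1) := by
  have h := sum_dg_prod (α := ℕ) b q fun a x => if x ≤ dg b a e then 1 else 0
  rw [card_filter]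
  refine Eq.trans (sum_congr rfl fun u _ => ?_) (h.trans (prod_congr rfl fun a _ => ?_))
  · rw [prod_ite_zero]
    simp [Below]
  · rw [← card_filter, ← card_range (dg b a e + 1)]
    congr 1
    ext x
    have := dg_lt hb a e
    simp only [mem_filter, mem_range]
    omega

/-- pairs of numbers whose digit pairs lie in given sets -/
theorem card_pairs_le (b q : ℕ) (S : ℕ → Finset (ℕ × ℕ)) (A : Finset (ℕ × ℕ))
    (h : ∀ p ∈ A, p.1 < b ^ q ∧ p.2 < b ^ q ∧ ∀ a < q, (dg b a p.1, dg b a p.2) ∈ S a) :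
    A.card ≤ ∏ a ∈ range q, (S a).card := by
  rw [prod_range, ← Fintype.card_piFinset]
  refine card_le_card_of_injOn (fun p a => (dg b a p.1, dg b a p.2)) (fun p hp => ?_)
    fun p hp p' hp' e => ?_
  · simp only [mem_coe, Fintype.mem_piFinset]
    exact fun a => (h p hp).2.2 a a.2
  · have e' : ∀ a < q, (dg b a p.1, dg b a p.2) = (dg b a p'.1, dg b a p'.2) :=
      fun a ha => congrFun e ⟨a, ha⟩
    exact Prod.ext (dg_ext (h p hp).1 (h p' hp').1 fun a ha => (Prod.ext_iff.mp (e' a ha)).1)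
      (dg_ext (h p hp).2.1 (h p' hp').2.1 fun a ha => (Prod.ext_iff.mp (e' a ha)).2)

end Pool.Agent.P.MP_8f87b2_lc.KS
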