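import Pool.Agent.P.MP_8f87b2_lc.Prob
import Pool.Agent.P.MP_8f87b2_lc.KS.Dig

/-!
# Definitions shared by the mathematical parts
-/

namespace Pool.Agent.P.MP_8f87b2_lc.KS

open Finset

/-! ### The digit recursion -/

/-- step `j` treats digit `j / t` and threshold `j % t` -/
def zet (t : ℕ) (ε : ℤ) (X : ℕ → ℤ) : ℕ → ℕ → ℤ
  | 0, w => X w
  | j + 1, w => zet t ε X j w +
      if 1 ≤ j % t ∧ j % t ≤ dg t (j / t) w then ε * zet t ε X j (w - t ^ (j / t)) else 0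

/-! ### Tuples and colour chains -/

/-- the sum of the entries named by the first `m` digits -/
def val (b m : ℕ) (y : ℕ → ℤ) (z : ℕ) : ℤ := ∑ j ∈ range m, y (dg b j z)

/-- the last colour if the colours increase strictly from `st` on, else the large value `B` -/
def chn (col : ℕ → ℕ) (b B z st : ℕ) : ℕ → ℕ
  | 0 => st
  | j + 1 => if chn col b B z st j < col (dg b j z) then col (dg b j z) else B

/-! ### Events -/

/-- a family of pairs of digit strings that add without carries -/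
structure EvOK (t q h D : ℕ) (Ev : Finset (ℕ × ℕ)) : Prop where
  lt1 : ∀ p ∈ Ev, p.1 < t ^ q
  lt2 : ∀ p ∈ Ev, p.2 < t ^ q
  tri : ∀ p ∈ Ev, ∀ a < q, dg t a p.1 + dg t a p.2 < t
  s1 : ∀ p ∈ Ev, ds t q p.1 = h
  s2 : ∀ p ∈ Ev, ds t q p.2 = h
  low : ∀ p ∈ Ev, ∏ a ∈ range q, (dg t a p.1 + dg t a p.2 + 1) ≤ D
  f1 : ∀ p ∈ Ev, (Ev.filter fun p' => p'.1 = p.1).card ^ 2 ≤ Ev.card
  f2 : ∀ p ∈ Ev, (Ev.filter fun p' => p'.2 = p.2).card ^ 2 ≤ Ev.card

/-- a two by two minor of the difference of two events -/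
def mnr (t : ℕ) (p p' : ℕ × ℕ) (i j : ℕ) : ℤ :=
  ((dg t i p.1 : ℤ) - dg t i p'.1) * ((dg t j p.2 : ℤ) - dg t j p'.2) -
    ((dg t j p.1 : ℤ) - dg t j p'.1) * ((dg t i p.2 : ℤ) - dg t i p'.2)

variable {M : ℕ} [NeZero M]

/-- the value of a key: an offset and a digit string -/
def ks (t q o w : ℕ) (R : ℕ → ZMod M) : ZMod M := R o + Hd t q R w

def cov (t q : ℕ) (α β : ZMod M) (p : ℕ × ℕ) (R : ℕ → ZMod M) : Prop :=
  ks t q q p.1 R = α ∧ ks t q (q + 1) p.2 R = β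

/-- the index set of potential needed outputs: `e, z, κ` -/
def Nd (Q N : ℕ) : Finset (ℕ × ℕ × ℕ) := range Q ×ˢ range N ×ˢ range 3

def need (t q : ℕ) (γ : ℕ → ZMod M) (e : ℕ × ℕ × ℕ) (R : ℕ → ZMod M) : Prop :=
  ks t q q e.1 R + R (q + 1) + γ e.2.1 + e.2.2 = 0

open Classical in
/-- the number of needed outputs -/
noncomputable def nneed (t q N : ℕ) (γ : ℕ → ZMod M) (R : ℕ → ZMod M) : ℕ :=
  ((Nd (t ^ q) N).filter fun e => need t q γ e R).card

/-- every collision in the output `e` has the prescribed sum -/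
def clean (t q N b : ℕ) (γ : ℕ → ZMod M) (x : ℕ → ℤ) (σ : ℤ) (e : ℕ) (R : ℕ → ZMod M) : Prop :=
  ∀ a < N, ∀ c < b, ∀ u < t ^ q, Below t q u e → cov t q (γ a) (γ c) (u, e - u) R → x a + x c = σ

/-- the good event for the solution pair `ia, ic` -/
def Good (t q : ℕ) (Ev : Finset (ℕ × ℕ)) (N b Cn : ℕ) (γ : ℕ → ZMod M) (x : ℕ → ℤ) (ia ic : ℕ)
    (R : ℕ → ZMod M) : Prop :=
  (∃ p ∈ Ev, cov t q (γ ia) (γ ic) p R ∧ clean t q N b γ x (x ia + x ic) (p.1 + p.2) R) ∧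
    nneed t q N γ R ≤ Cn

end Pool.Agent.P.MP_8f87b2_lc.KS
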