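import Pool.Agent.P.MP_8f87b2_lc.KS.Dig

namespace Pool.Agent.P.MP_8f87b2_lc.KS

open Finset

namespace CntP

/-- the Chernoff counting step -/
theorem card_mul_le {s : Finset ℕ} {P : ℕ → Prop} [DecidablePred P] (W : ℕ → ℝ) (c : ℝ)
    (h0 : ∀ w, 0 ≤ W w) (h : ∀ w ∈ s, P w → c ≤ W w) :
    ((s.filter P).card : ℝ) * c ≤ ∑ w ∈ s, W w := by
  calc ((s.filter P).card : ℝ) * c = ∑ _w ∈ s.filter P, c := by
        rw [sum_const, nsmul_eq_mul]
    _ ≤ ∑ w ∈ s.filter P, W w :=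
        sum_le_sum fun w hw => h w (mem_filter.mp hw).1 (mem_filter.mp hw).2
    _ ≤ ∑ w ∈ s, W w :=
        sum_le_sum_of_subset_of_nonneg (filter_subset _ _) fun w _ _ => h0 w

theorem geom_le (t : ℕ) : ∑ x ∈ range t, ((1 : ℝ) / 2) ^ x ≤ 2 := by
  have h : ∑ x ∈ range t, ((1 : ℝ) / 2) ^ x = 2 - 2 * (1 / 2) ^ t := by
    induction t with
    | zero => simp
    | succ t ih => rw [sum_range_succ, ih, pow_succ]; ring
  have : (0 : ℝ) ≤ (1 / 2) ^ t := by positivity
  rw [h]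
  linarith

/-- one digit of the exponential moment -/
theorem one_digit {t : ℕ} (ht : 0 < t) :
    ∑ x ∈ range t, Real.exp (4 / (t : ℝ) ^ 2 * (((t : ℝ) - 1) / 2 - x)) ≤
      t * Real.exp (2 / (t : ℝ) ^ 2) := by
  have htr : (0 : ℝ) < t := by exact_mod_cast ht
  set g : ℕ → ℝ := fun x => 4 / (t : ℝ) ^ 2 * (((t : ℝ) - 1) / 2 - x) with hg
  have hr : ∑ x ∈ range t, Real.exp (g x) = ∑ x ∈ range t, Real.exp (-g x) := by
    rw [← sum_range_reflect]
    refine sum_congr rfl fun x hx => ?_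
    have hx' := mem_range.mp hx
    have e : ((t - 1 - x : ℕ) : ℝ) = t - 1 - x := by
      rw [Nat.sub_sub, Nat.cast_sub (by omega)]
      push_cast
      ring
    simp only [hg, e]
    congr 1
    ring
  have hc : ∀ x ∈ range t, Real.exp (g x) + Real.exp (-g x) ≤ 2 * Real.exp (2 / (t : ℝ) ^ 2) := by
    intro x hx
    have hx' : (x : ℝ) + 1 ≤ t := by exact_mod_cast mem_range.mp hx
    have hx0 : (0 : ℝ) ≤ x := by positivity
    have h1 := Real.cosh_le_exp_half_sq (g x)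
    rw [Real.cosh_eq] at h1
    have h2 : g x ^ 2 / 2 ≤ 2 / (t : ℝ) ^ 2 := by
      have h3 : (((t : ℝ) - 1) / 2 - x) ^ 2 ≤ (t / 2) ^ 2 := by
        apply sq_le_sq'
        · linarith
        · linarith
      have h4 : g x ^ 2 / 2 = 8 / (t : ℝ) ^ 4 * (((t : ℝ) - 1) / 2 - x) ^ 2 := by
        simp only [hg]
        field_simp
        ring
      have h5 : 2 / (t : ℝ) ^ 2 = 8 / (t : ℝ) ^ 4 * (t / 2) ^ 2 := by
        field_simp
        ring
      rw [h4, h5]
      exact mul_le_mul_of_nonneg_left h3 (by positivity)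
    have h6 := Real.exp_le_exp.mpr h2
    linarith
  have hs := sum_le_sum hc
  rw [sum_add_distrib, ← hr, sum_const, card_range, nsmul_eq_mul] at hs
  change ∑ x ∈ range t, Real.exp (g x) ≤ _
  linarith

end CntP

/-- few digit strings have a digit sum below `q` -/
theorem count_local {t : ℕ} (q : ℕ) :
    ((range (t ^ q)).filter fun w => ds t q w ≤ q).card ≤ 4 ^ q := by
  have h1 := CntP.card_mul_le (s := range (t ^ q)) (P := fun w => ds t q w ≤ q)
    (fun w => ((1 : ℝ) / 2) ^ ds t q w) ((1 / 2) ^ q) (fun w => by positivity)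
    fun w _ hw => pow_le_pow_of_le_one (by norm_num) (by norm_num) hw
  have h2 := sum_dg_prod (α := ℝ) t q fun _ x => ((1 : ℝ) / 2) ^ x
  have h3 : ∑ w ∈ range (t ^ q), ((1 : ℝ) / 2) ^ ds t q w ≤ 2 ^ q := by
    calc ∑ w ∈ range (t ^ q), ((1 : ℝ) / 2) ^ ds t q w
        = ∏ _a ∈ range q, ∑ x ∈ range t, ((1 : ℝ) / 2) ^ x := by
          rw [← h2]
          exact sum_congr rfl fun w _ => by rw [ds, prod_pow_eq_pow_sum]
      _ ≤ 2 ^ q := by
          rw [prod_const, card_range]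
          exact pow_le_pow_left₀ (sum_nonneg fun x _ => by positivity) (CntP.geom_le t) q
  have h4 : ((1 : ℝ) / 2) ^ q * 4 ^ q = 2 ^ q := by
    rw [← mul_pow]
    norm_num
  have h5 : (0 : ℝ) < (1 / 2) ^ q := by positivity
  have h6 : ((((range (t ^ q)).filter fun w => ds t q w ≤ q).card : ℕ) : ℝ) ≤ 4 ^ q := by
    refine le_of_mul_le_mul_right ?_ h5
    rw [mul_comm ((4 : ℝ) ^ q), h4]
    exact h1.trans h3
  exact_mod_cast h6

/-- few digit strings have a digit sum at least `q` below the mean -/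
theorem count_global {t q L j : ℕ} (ht : 0 < t) (hL : 2 * L = q * (t - 1)) (hq : q ≤ L)
    (hj : j * t ^ 2 ≤ 2 * q) :
    ((range (t ^ q)).filter fun w => ds t q w ≤ L - q).card * 2 ^ j ≤ t ^ q := by
  have htr : (0 : ℝ) < t := by exact_mod_cast ht
  have hLr : (L : ℝ) = q * ((t - 1) / 2) := by
    have : ((2 * L : ℕ) : ℝ) = ((q * (t - 1) : ℕ) : ℝ) := by rw [hL]
    rw [Nat.cast_mul, Nat.cast_mul, Nat.cast_sub ht] at this
    push_cast at this
    linarith
  have h1 := CntP.card_mul_le (s := range (t ^ q)) (P := fun w => ds t q w ≤ L - q)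
    (fun w => Real.exp (4 / (t : ℝ) ^ 2 * (L - ds t q w))) (Real.exp (4 / (t : ℝ) ^ 2 * q))
    (fun w => (Real.exp_pos _).le) fun w _ hw => by
      have h : ((ds t q w + q : ℕ) : ℝ) ≤ L := by exact_mod_cast (by omega : ds t q w + q ≤ L)
      push_cast at h
      exact Real.exp_le_exp.mpr (mul_le_mul_of_nonneg_left (by linarith) (by positivity))
  have h2 := sum_dg_prod (α := ℝ) t q
    fun _ x => Real.exp (4 / (t : ℝ) ^ 2 * (((t : ℝ) - 1) / 2 - x))
  have h3 : ∑ w ∈ range (t ^ q), Real.exp (4 / (t : ℝ) ^ 2 * (L - ds t q w)) ≤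
      (t * Real.exp (2 / (t : ℝ) ^ 2)) ^ q := by
    calc ∑ w ∈ range (t ^ q), Real.exp (4 / (t : ℝ) ^ 2 * (L - ds t q w))
        = ∏ _a ∈ range q, ∑ x ∈ range t,
            Real.exp (4 / (t : ℝ) ^ 2 * (((t : ℝ) - 1) / 2 - x)) := by
          rw [← h2]
          refine sum_congr rfl fun w _ => ?_
          rw [← Real.exp_sum, ← mul_sum, sum_sub_distrib, sum_const, card_range, nsmul_eq_mul,
            ← hLr, ds, Nat.cast_sum]
      _ ≤ _ := by
          rw [prod_const, card_range]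
          exact pow_le_pow_left₀ (sum_nonneg fun x _ => (Real.exp_pos _).le)
            (CntP.one_digit ht) q
  have h4 : (2 : ℝ) ^ j ≤ Real.exp (2 / (t : ℝ) ^ 2 * q) := by
    have h5 : (2 : ℝ) ≤ Real.exp 1 := by
      have := Real.add_one_le_exp (1 : ℝ)
      linarith
    have h6 : (j : ℝ) ≤ 2 / (t : ℝ) ^ 2 * q := by
      have : ((j * t ^ 2 : ℕ) : ℝ) ≤ ((2 * q : ℕ) : ℝ) := by exact_mod_cast hj
      push_cast at this
      rw [div_mul_eq_mul_div, le_div_iff₀ (by positivity)]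
      exact this
    calc (2 : ℝ) ^ j ≤ Real.exp 1 ^ j := pow_le_pow_left₀ (by norm_num) h5 j
      _ = Real.exp j := by rw [← Real.exp_nat_mul, mul_one]
      _ ≤ _ := Real.exp_le_exp.mpr h6
  have h7 : Real.exp (4 / (t : ℝ) ^ 2 * q) =
      Real.exp (2 / (t : ℝ) ^ 2 * q) * Real.exp (2 / (t : ℝ) ^ 2 * q) := by
    rw [← Real.exp_add]
    congr 1
    ring
  have h8 : ((t : ℝ) * Real.exp (2 / (t : ℝ) ^ 2)) ^ q =
      t ^ q * Real.exp (2 / (t : ℝ) ^ 2 * q) := by
    rw [mul_pow, ← Real.exp_nat_mul, mul_comm (q : ℝ)]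
  have h9 := h1.trans h3
  rw [h7, h8, ← mul_assoc] at h9
  have h10 := le_of_mul_le_mul_right h9 (Real.exp_pos _)
  have h11 := (mul_le_mul_of_nonneg_left h4 (Nat.cast_nonneg _)).trans h10
  exact_mod_cast h11

end Pool.Agent.P.MP_8f87b2_lc.KS
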