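import Pool.Agent.P.MP_8f87b2_lc.KS.Base

/-!
# Tuples, colour chains and separating moduli
-/

namespace Pool.Agent.P.MP_8f87b2_lc.KS

open Finset

namespace ColP

theorem chn_lt {col : ℕ → ℕ} {b B z st : ℕ} : ∀ {m : ℕ}, chn col b B z st m < B →
    st ≤ chn col b B z st m ∧
      (∀ j < m, st < col (dg b j z) ∧ col (dg b j z) ≤ chn col b B z st m) ∧
      ∀ i j, i < j → j < m → col (dg b i z) < col (dg b j z)
  | 0, _ => ⟨le_rfl, fun _ h => absurd h (Nat.not_lt_zero _),
      fun _ _ _ h => absurd h (Nat.not_lt_zero _)⟩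
  | m + 1, h => by
    rw [chn] at h ⊢
    split_ifs at h ⊢ with h1
    · obtain ⟨h2, h3, h4⟩ := chn_lt (h1.trans h)
      refine ⟨by omega, fun j hj => ?_, fun i j hi hj => ?_⟩
      · rcases Nat.lt_succ_iff_lt_or_eq.mp hj with h5 | rfl
        · have := h3 j h5
          omega
        · omega
      · rcases Nat.lt_succ_iff_lt_or_eq.mp hj with h5 | rfl
        · exact h4 i j hi h5
        · have := h3 i hi
          omega
    · omega

theorem chn_eq {col : ℕ → ℕ} {b B z m : ℕ} (w : ℕ → ℕ)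
    (h1 : ∀ j < m, w (j + 1) = col (dg b j z)) (h2 : ∀ j < m, w j < w (j + 1)) :
    ∀ j ≤ m, chn col b B z (w 0) j = w j
  | 0, _ => rfl
  | j + 1, h => by
    rw [chn, chn_eq w h1 h2 j (by omega), ← h1 j h, if_pos (h2 j h)]

theorem sum_split (m : ℕ) (f : ℕ → ℤ) : ∑ j ∈ range (2 * m + 1), f j =
    ∑ j ∈ range m, f j + f m + ∑ j ∈ range m, f (m + 1 + j) := by
  rw [show 2 * m + 1 = m + 1 + m by ring, sum_range_add, sum_range_succ]

end ColP

open ColP

theorem val_step {b m : ℕ} {y : ℕ → ℤ} (hy : y 0 = 0) {z : ℕ} (hz : z < b ^ m) :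
    val b m y z = val b m y (z / b) + y (z % b) := by
  have h1 := sum_range_succ (fun j => y (dg b j z)) m
  have h2 := sum_range_succ' (fun j => y (dg b j z)) m
  rw [dg_of_lt hz, hy, add_zero] at h1
  rw [val, val, ← h1, h2]
  simp only [dg_div]
  simp [dg]

theorem val_single {b m : ℕ} (hm : 1 ≤ m) {y : ℕ → ℤ} (hy : y 0 = 0) {z : ℕ} (hz : z < b) :
    val b m y z = y z := by
  have h1 : z < b ^ m := hz.trans_le (Nat.le_self_pow (by omega) b)
  rw [val_step hy h1, Nat.div_eq_of_lt hz, Nat.mod_eq_of_lt hz]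
  simp [val, hy]

theorem tuple_sound {b m n B : ℕ} {col : ℕ → ℕ} (hB : ∀ d, col d ≤ B)
    (hv : ∀ d, col d ≠ 0 → 1 ≤ d ∧ d ≤ n) {y : ℕ → ℤ} {za c zb : ℕ}
    (ha : chn col b B za 0 m < col c) (hb : chn col b B zb (col c) m < B)
    (h0 : val b m y za + y c + val b m y zb = 0) :
    ∃ S ⊆ Icc 1 n, S.card = 2 * m + 1 ∧ ∑ d ∈ S, y d = 0 := by
  obtain ⟨-, a2, a3⟩ := chn_lt (ha.trans_le (hB c))
  obtain ⟨-, b2, b3⟩ := chn_lt hb
  let f : ℕ → ℕ := fun j => if j < m then dg b j za else if j = m then c else dg b (j - m - 1) zb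
  have f1 : ∀ j < m, f j = dg b j za := fun j hj => if_pos hj
  have f2 : f m = c := by simp [f]
  have f3 : ∀ j, f (m + 1 + j) = dg b j zb := fun j => by
    simp only [f]
    rw [if_neg (by omega), if_neg (by omega), show m + 1 + j - m - 1 = j by omega]
  have cs : ∀ j < 2 * m + 1, j < m ∨ j = m ∨ ∃ i < m, j = m + 1 + i := fun j hj => by
    rcases lt_trichotomy j m with h | h | h
    exacts [Or.inl h, Or.inr (Or.inl h), Or.inr (Or.inr ⟨j - m - 1, by omega, by omega⟩)]
  have hlt : ∀ i j, i < j → j < 2 * m + 1 → col (f i) < col (f j) := by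
    intro i j hij hj
    rcases cs i (by omega) with hi | rfl | ⟨i', hi, rfl⟩ <;>
      rcases cs j hj with hj' | rfl | ⟨j', hj', rfl⟩
    · rw [f1 i hi, f1 j hj']
      exact a3 i j hij hj'
    · rw [f1 i hi, f2]
      exact (a2 i hi).2.trans_lt ha
    · rw [f1 i hi, f3]
      exact ((a2 i hi).2.trans_lt ha).trans (b2 j' hj').1
    · omega
    · omega
    · rw [f2, f3]
      exact (b2 j' hj').1
    · omega
    · omega
    · rw [f3, f3]
      exact b3 i' j' (by omega) hj'
  have hpos : ∀ j < 2 * m + 1, col (f j) ≠ 0 := by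
    intro j hj
    rcases cs j hj with hj' | rfl | ⟨j', hj', rfl⟩
    · rw [f1 j hj']
      exact (a2 j hj').1.ne'
    · rw [f2]
      omega
    · rw [f3]
      have := (b2 j' hj').1
      omega
  have hinj : Set.InjOn f (range (2 * m + 1) : Finset ℕ) := by
    intro i hi j hj e
    have hi' := mem_range.mp (mem_coe.mp hi)
    have hj' := mem_range.mp (mem_coe.mp hj)
    rcases lt_trichotomy i j with h | h | h
    · exact absurd (hlt i j h hj') (by rw [e]; exact lt_irrefl _)
    · exact h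
    · exact absurd (hlt j i h hi') (by rw [e]; exact lt_irrefl _)
  refine ⟨(range (2 * m + 1)).image f, fun d hd => ?_, ?_, ?_⟩
  · obtain ⟨j, hj, rfl⟩ := mem_image.mp hd
    exact mem_Icc.mpr (hv _ (hpos j (mem_range.mp hj)))
  · rw [card_image_of_injOn hinj, card_range]
  · rw [sum_image hinj, sum_split, f2, ← h0, val, val]
    simp only [f3]
    rw [sum_congr rfl fun j hj => by rw [f1 j (mem_range.mp hj)]]

theorem tuple_complete {b m B : ℕ} {col : ℕ → ℕ} {S : Finset ℕ} (hS : ∀ d ∈ S, d < b)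
    (hc : S.card = 2 * m + 1) (hinj : Set.InjOn col S) (hpos : ∀ d ∈ S, 0 < col d ∧ col d < B)
    (y : ℕ → ℤ) :
    ∃ za < b ^ m, ∃ c ∈ S, ∃ zb < b ^ m, chn col b B za 0 m < col c ∧
      chn col b B zb (col c) m < B ∧ val b m y za + y c + val b m y zb = ∑ d ∈ S, y d := by
  have h1 : (S.image col).card = 2 * m + 1 := by rw [card_image_of_injOn hinj, hc]
  have h2 : ∀ j : ℕ, ∃ d, ∀ h : j < 2 * m + 1,
      d ∈ S ∧ col d = (S.image col).orderEmbOfFin h1 ⟨j, h⟩ := by
    intro j
    by_cases h : j < 2 * m + 1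
    · obtain ⟨d, hd, e⟩ := mem_image.mp (orderEmbOfFin_mem (S.image col) h1 ⟨j, h⟩)
      exact ⟨d, fun _ => ⟨hd, e⟩⟩
    · exact ⟨0, fun h' => absurd h' h⟩
  choose G hG using h2
  have hm : ∀ j < 2 * m + 1, G j ∈ S := fun j hj => (hG j hj).1
  have hlt : ∀ i j, i < j → j < 2 * m + 1 → col (G i) < col (G j) := fun i j hij hj => by
    rw [(hG i (by omega)).2, (hG j hj).2]
    exact ((S.image col).orderEmbOfFin h1).strictMono hij
  have hi : Set.InjOn G (range (2 * m + 1) : Finset ℕ) := by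
    intro i hi j hj e
    have hi' := mem_range.mp (mem_coe.mp hi)
    have hj' := mem_range.mp (mem_coe.mp hj)
    rcases lt_trichotomy i j with h | h | h
    · exact absurd (hlt i j h hj') (by rw [e]; exact lt_irrefl _)
    · exact h
    · exact absurd (hlt j i h hi') (by rw [e]; exact lt_irrefl _)
  have him : (range (2 * m + 1)).image G = S := by
    refine eq_of_subset_of_card_le (fun d hd => ?_) ?_
    · obtain ⟨j, hj, rfl⟩ := mem_image.mp hd
      exact hm j (mem_range.mp hj)
    · rw [card_image_of_injOn hi, card_range, hc]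
  have ba : ∀ a < m, G a < b := fun a ha => hS _ (hm a (by omega))
  have bb : ∀ a < m, G (m + 1 + a) < b := fun a ha => hS _ (hm _ (by omega))
  refine ⟨enc b m G, enc_lt ba, G m, hm m (by omega), enc b m fun a => G (m + 1 + a), enc_lt bb,
    ?_, ?_, ?_⟩
  · have h3 := chn_eq (col := col) (b := b) (B := B) (z := enc b m G) (m := m)
      (fun j => if j = 0 then 0 else col (G (j - 1)))
      (fun j hj => by simp [dg_enc ba hj]) (fun j hj => by
        simp only [Nat.add_one_ne_zero, if_false, Nat.add_sub_cancel]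
        split_ifs with e
        · exact (hpos _ (hm j (by omega))).1
        · exact hlt _ _ (by omega) (by omega)) m le_rfl
    simp only [if_true] at h3
    rw [h3]
    split_ifs with e
    · exact (hpos _ (hm m (by omega))).1
    · exact hlt _ _ (by omega) (by omega)
  · have h3 := chn_eq (col := col) (b := b) (B := B) (z := enc b m fun a => G (m + 1 + a)) (m := m)
      (fun j => col (G (m + j)))
      (fun j hj => by rw [dg_enc bb hj, show m + (j + 1) = m + 1 + j by omega])
      (fun j hj => hlt _ _ (by omega) (by omega)) m le_rfl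
    simp only [add_zero] at h3
    rw [h3]
    exact (hpos _ (hm _ (by omega))).2
  · rw [← him, sum_image hi, sum_split, val, val]
    congr 1
    · congr 1
      exact sum_congr rfl fun j hj => by rw [dg_enc ba (mem_range.mp hj)]
    · exact sum_congr rfl fun j hj => by rw [dg_enc bb (mem_range.mp hj)]

/-- a small modulus separates the elements of a small set -/
theorem exists_mod {l : ℕ} {S : Finset ℕ} (hS : ∀ d ∈ S, d < 2 ^ l) :
    ∃ p, 1 ≤ p ∧ p ≤ 2 * (S.card ^ 2 * l) + 8 ∧ Set.InjOn (· % p) (S : Set ℕ) := by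
  by_contra hc
  push Not at hc
  set P := S.card ^ 2 * l + 4 with hP
  set T := (S ×ˢ S).filter fun q => q.1 < q.2 with hT
  have hdvd : ∀ p, 1 ≤ p → p ≤ 2 * P → p ∣ ∏ q ∈ T, (q.2 - q.1) := by
    intro p h1 h2
    have h3 := hc p h1 (by omega)
    simp only [Set.InjOn, not_forall] at h3
    obtain ⟨i, hi, j, hj, e, hne⟩ := h3
    rcases lt_or_gt_of_ne hne with h | h
    · exact ((Nat.modEq_iff_dvd' h.le).mp e).trans
        (dvd_prod_of_mem (fun q : ℕ × ℕ => q.2 - q.1) (a := (i, j))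
          (mem_filter.mpr ⟨mem_product.mpr ⟨hi, hj⟩, h⟩))
    · exact ((Nat.modEq_iff_dvd' h.le).mp (Eq.symm e)).trans
        (dvd_prod_of_mem (fun q : ℕ × ℕ => q.2 - q.1) (a := (j, i))
          (mem_filter.mpr ⟨mem_product.mpr ⟨hj, hi⟩, h⟩))
  have hpos : 0 < ∏ q ∈ T, (q.2 - q.1) :=
    prod_pos fun q hq => Nat.sub_pos_of_lt (mem_filter.mp hq).2
  have hle : ∏ q ∈ T, (q.2 - q.1) ≤ 2 ^ P := by
    have h1 : ∏ q ∈ T, (q.2 - q.1) ≤ (2 ^ l) ^ T.card :=
      prod_le_pow_card _ _ _ fun q hq =>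
        (Nat.sub_le _ _).trans (hS _ (mem_product.mp (mem_filter.mp hq).1).2).le
    have h2 : T.card ≤ S.card ^ 2 := by
      rw [sq, ← card_product]
      exact card_filter_le _ _
    refine h1.trans ?_
    rw [← pow_mul]
    refine Nat.pow_le_pow_right (by omega) ?_
    have := Nat.mul_le_mul_left l h2
    rw [mul_comm l (S.card ^ 2)] at this
    omega
  have hcb : Nat.centralBinom P ∣ ∏ q ∈ T, (q.2 - q.1) := by
    rw [Nat.dvd_iff_prime_pow_dvd_dvd]
    intro p k hp hk
    refine hdvd _ (Nat.one_le_pow _ _ hp.pos) ?_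
    have h1 : k ≤ (Nat.centralBinom P).factorization p :=
      (hp.pow_dvd_iff_le_factorization (Nat.centralBinom_ne_zero P)).mp hk
    exact (Nat.pow_le_pow_right hp.pos h1).trans (Nat.pow_factorization_choose_le (by omega))
  have h1 := Nat.four_pow_lt_mul_centralBinom P (by omega)
  have h2 := (Nat.le_of_dvd hpos hcb).trans hle
  have h3 : P ≤ 2 ^ P := Nat.lt_two_pow_self.le
  have h4 := Nat.mul_le_mul h3 h2
  rw [← mul_pow] at h4
  exact absurd (h1.trans_le h4) (lt_irrefl _)

end Pool.Agent.P.MP_8f87b2_lc.KS
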