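import Pool.Agent.P.MP_8f87b2_lc.KS.Sound

/-!
# Completeness of the test
-/

namespace Pool.Agent.P.MP_8f87b2_lc.KS

open Finset

variable {c : Cx}

namespace CompleteP

variable {R : ℕ → ℕ} {Rz : ℕ → ZMod c.M}

theorem GQ (hN : Nm c) : c.G * c.Q1 = c.Q := by
  rw [Cx.G, Cx.Q1, ← pow_add, Nat.add_sub_cancel' hN.s3, Cx.Q]

theorem cast_Hn (hR : ∀ i < c.nR, (R i : ZMod c.M) = Rz i) (w : ℕ) :
    (c.Hn R w : ZMod c.M) = Hd c.t c.q Rz w := by
  rw [Cx.Hn, ZMod.natCast_mod, Hd, Hd, Nat.cast_sum]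
  refine sum_congr rfl fun a ha => ?_
  have := mem_range.mp ha
  rw [Nat.cast_mul, Nat.cast_id, hR a (by unfold Cx.nR; omega)]

theorem key (hR : ∀ i < c.nR, (R i : ZMod c.M) = Rz i) {o : ℕ} (ho : o < c.nR) (w r a : ℕ) :
    c.γ r a = (R o + c.Hn R w) % c.M ↔ ks c.t c.q o w Rz = gz c.M c.V r c.x a := by
  rw [ks, ← hR _ ho, ← cast_Hn hR, ← Nat.cast_add, gz,
    ZMod.natCast_eq_natCast_iff', Nat.mod_eq_of_lt (gam_lt c.M_pos c.V_pos _ _), eq_comm]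
  rfl

theorem need_iff (hR : ∀ i < c.nR, (R i : ZMod c.M) = Rz i) (hlt : ∀ i < c.nR, R i < c.M)
    {w : ℕ} (hw : w < c.Q1) (m r : ℕ) : c.vn R r m = c.qn R w ↔
      need c.t c.q (gz c.M c.V r c.x) (w + c.hi m, c.ei m, m % 3) Rz := by
  have a1 := hlt c.q (by unfold Cx.nR; omega)
  have a2 := c.Hn_lt R w
  have e : Hd c.t c.q Rz w + Hd c.t c.q Rz (c.hi m) = Hd c.t c.q Rz (w + c.hi m) :=
    Hd_of_dg Rz fun a _ => dg_split c.t_pos hw _ a
  rw [Cx.vn, Cx.qn, ← ZMod.natCast_eq_natCast_iff', Nat.cast_sub (by omega)]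
  push_cast
  rw [ZMod.natCast_self, cast_Hn hR, cast_Hn hR, hR _ (by unfold Cx.nR; omega),
    hR _ (by unfold Cx.nR; omega)]
  simp only [need, ks, gz, Cx.γ, mul_zero, zero_sub, ← e]
  exact ⟨fun h => by linear_combination h, fun h => by linear_combination h⟩

theorem entry {m : ℕ} (hm : m < c.G * c.N * 3) : c.ei m < c.N ∧ c.eg m < c.G :=
  ⟨Nat.mod_lt _ c.N_pos, (Nat.div_lt_iff_lt_mul c.N_pos).2 (by omega)⟩

theorem cum_le (hN : Nm c) (hR : ∀ i < c.nR, (R i : ZMod c.M) = Rz i)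
    (hlt : ∀ i < c.nR, R i < c.M) (r : ℕ) :
    c.cum R r c.Q1 ≤ nneed c.t c.q c.N (gz c.M c.V r c.x) Rz := by
  classical
  have h1 : c.cum R r c.Q1 = ((range c.Q1 ×ˢ range (c.G * c.N * 3)).filter
      fun p => c.vn R r p.2 = c.qn R p.1).card := by
    rw [card_filter, sum_product, Cx.cum]
    refine sum_congr rfl fun a _ => ?_
    rw [Cx.qlen, length_Lst, card_filter]
  rw [h1, nneed]
  refine card_le_card_of_injOn (fun p => (p.1 + c.hi p.2, c.ei p.2, p.2 % 3)) ?_ ?_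
  · rintro ⟨w, m⟩ hq
    simp only [coe_filter, mem_product, mem_range, Set.mem_ofPred_eq] at hq
    obtain ⟨⟨hw, hm⟩, hq⟩ := hq
    obtain ⟨b1, b2⟩ := entry hm
    simp only [coe_filter, Nd, mem_product, mem_range, Set.mem_ofPred_eq]
    refine ⟨⟨?_, b1, Nat.mod_lt _ (by norm_num)⟩, (need_iff hR hlt hw m r).mp hq⟩
    have := mul_add_lt b2 hw
    rw [GQ hN] at this
    rw [add_comm]
    exact this
  · rintro ⟨w, m⟩ hq ⟨w', m'⟩ hq' h
    simp only [coe_filter, mem_product, mem_range, Set.mem_ofPred_eq] at hq hq'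
    obtain ⟨⟨hw, -⟩, -⟩ := hq
    obtain ⟨⟨hw', -⟩, -⟩ := hq'
    simp only [Prod.mk.injEq, Cx.hi] at h ⊢
    obtain ⟨h1, h4, h5⟩ := h
    have h3 : c.eg m = c.eg m' := by
      have := congrArg (· / c.Q1) h1
      simpa [Nat.add_mul_div_right _ _ c.Q1_pos, Nat.div_eq_of_lt hw, Nat.div_eq_of_lt hw']
        using this
    refine ⟨by rw [h3] at h1; omega, ?_⟩
    unfold Cx.eg at h3
    unfold Cx.ei at h4
    have a := Nat.div_add_mod (m / 3) c.N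
    have b := Nat.div_add_mod (m' / 3) c.N
    rw [h3, h4] at a
    omega

end CompleteP

open CompleteP

theorem sComplete : SComplete := by
  rintro c hN R Rz hR hlt r u ia ic ib D Ev hE ha hc hb ca cc cb h0 ⟨⟨⟨v, v'⟩, he, hcov, hcl⟩, hB⟩
  refine ⟨(cum_le hN hR hlt r).trans hB, ?_⟩
  obtain ⟨hq, hd⟩ := add_nc (hE.lt1 _ he) (hE.lt2 _ he) (hE.tri _ he)
  have s1 := hE.s1 _ he
  have s2 := hE.s2 _ he
  simp only at hq hd s1 s2 hcl
  have hL : ds c.t c.q (v + v') = c.L := by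
    rw [← ds_of_dg fun a ha => (hd a ha).symm, s1, s2, Cx.L, two_mul]
  have n0 : c.q < c.nR := by unfold Cx.nR; omega
  have n1 : c.q + 1 < c.nR := by unfold Cx.nR; omega
  have hbN := hN.bN
  obtain ⟨κ, hκ, hsum⟩ := gam_sum c.M_pos c.V_pos r h0
  set g := (v + v') / c.Q1 with hg
  have hw : (v + v') % c.Q1 < c.Q1 := Nat.mod_lt _ c.Q1_pos
  have hgG : g < c.G := (Nat.div_lt_iff_lt_mul c.Q1_pos).2 (by rw [GQ hN]; exact hq)
  have e1 : ((g * c.N + ib) * 3 + κ) / 3 = g * c.N + ib := by omega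
  have eg : (v + v') % c.Q1 + c.hi ((g * c.N + ib) * 3 + κ) = v + v' := by
    rw [Cx.hi, Cx.eg, e1, add_comm (g * c.N), Nat.add_mul_div_right _ _ c.N_pos,
      Nat.div_eq_of_lt hb, zero_add, hg, Nat.mod_add_div']
  have ei : c.ei ((g * c.N + ib) * 3 + κ) = ib := by
    rw [Cx.ei, e1, add_comm, Nat.add_mul_mod_self_right, Nat.mod_eq_of_lt hb]
  have h1 : g * c.N + ib < c.G * c.N := mul_add_lt hgG hb
  refine ⟨_, hw, (g * c.N + ib) * 3 + κ, by omega, ?_, ?_⟩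
  · rw [need_iff hR hlt hw, eg, ei, show ((g * c.N + ib) * 3 + κ) % 3 = κ by omega]
    have e := Hd_of_dg Rz fun a ha => (hd a ha).symm
    obtain ⟨k1, k2⟩ := hcov
    simp only [need, gz, ks] at k1 k2 ⊢
    linear_combination hsum + k1 + k2 - e
  · rw [eg, ei]
    refine ⟨hL, cb, (test_iff hN R r u hq hL hb).mpr ⟨⟨(v, ia, ic), ?_⟩, fun p hp => ?_⟩⟩
    · simp only [Cx.coll, mem_filter, mem_product, mem_range, Nat.add_sub_cancel_left]
      exact ⟨⟨⟨hE.lt1 _ he, fun a ha => by rw [hd a ha]; omega⟩, ha, by omega⟩,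
        ⟨s1, ca, (key hR n0 _ _ _).mpr hcov.1⟩, s2, cc, (key hR n1 _ _ _).mpr hcov.2⟩
    · simp only [Cx.coll, mem_filter, mem_product, mem_range] at hp
      obtain ⟨⟨⟨q0, q1⟩, q2, -⟩, ⟨-, -, a2⟩, -, b1, b2⟩ := hp
      rw [hcl _ q2 _ (isC_lt hN ca b1) _ q0 q1
        ⟨(key hR n0 _ _ _).mp a2, (key hR n1 _ _ _).mp b2⟩, h0]

end Pool.Agent.P.MP_8f87b2_lc.KS
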