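import Pool.Agent.P.MP_8f87b2_lc.PhaseD
import Pool.Agent.P.MP_8f87b2_lc.KS.Base

/-!
# Parameters, program text and ghost data of the k-SUM algorithm
-/

namespace Pool.Agent.P.MP_8f87b2_lc.KS

open Finset

/-- one if the values are equal, else zero -/
abbrev eeq (a b : Expr) : Expr := eand (elt a (eadd b (.c 1))) (elt b (eadd a (.c 1)))
/-- twice a variable -/
abbrev edbl (x : ℕ) : Expr := eadd (.v x) (.v x)
/-- digit number `R[a]` of `R[x]` in base `t` -/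
abbrev edg (x a : ℕ) : Expr := eand (eshr (.v x) (emul (.v 11) (.v a))) (.v 12)
/-- digit number `R[a]` of `R[x]` in base `b` -/
abbrev ecd (x a : ℕ) : Expr := eand (eshr (.v x) (emul (.v 27) (.v a))) (.v 28)
/-- two to the power `e` -/
abbrev epw (e : Expr) : Expr := eshr (.v 10) (esub (.v 75) e)

/-! ### The constants -/

structure Kc where
  m : ℕ
  τ : ℕ
  g : ℕ
  l : ℕ
  κ : ℕ
  η : ℕ
  s0 : ℕ
  a : ℕ

/-- the constants are the ones for `(2 m + 1)`-SUM on entries bounded by `n ^ c` -/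
structure Kc.OK (K : Kc) (c : ℕ) : Prop where
  hm : 1 ≤ K.m
  hτ : K.τ = 4 * (K.m + 1)
  hg : K.g = 2 ^ K.τ * (2 ^ K.τ).factorial
  hl : K.l + 9 = 4 * K.g
  hη : 4 * K.η = K.g * (2 ^ K.τ - 1)
  hκ1 : 4 ^ (K.κ + 1) ≤ ((2 ^ K.τ) ^ 2 ^ K.τ * (2 ^ K.τ).factorial) ^ (2 ^ K.τ).factorial
  hκ2 : ((2 ^ K.τ) ^ 2 ^ K.τ * (2 ^ K.τ).factorial) ^ (2 ^ K.τ).factorial < 4 ^ (K.κ + 2)
  hs0 : 2 ≤ K.s0
  hs : ∀ s, K.s0 ≤ s → (200 * 2 ^ K.τ) ^ 2 * (K.g * s + 1) ^ (2 ^ K.τ) ^ 2 ≤ 4 ^ s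
  ha : (c + 2 * (2 * K.m + 1) ^ 2) * K.l + 2 * (K.g * 2 ^ K.τ) + K.κ + K.η + K.s0 + K.m + K.τ +
    100 ≤ K.a

/-! ### The program -/

def pConst (K : Kc) : Stmt := blk
  [.set 11 (.c K.τ), .set 29 (.c K.m), .set 70 (.c K.g), .set 71 (.c K.l), .set 72 (.c K.κ),
    .set 73 (.c K.η), .set 74 (.c K.a), .set 2 (.c K.s0)]

def pSize : Stmt := blk
  [.set 1 (.inp (.c 0)), .wh (eshr (.v 1) (emul (.v 71) (.v 2))) (.set 2 (einc 2))]

def pSetup : Stmt := blk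
  [pSize, .set 24 (emul (.v 74) (.v 2)), .set 75 (emul (.c 6) (.v 24)), .set 10 (.c 1),
    forL 30 75 (.set 10 (edbl 10)),
    .set 3 (emul (.v 70) (.v 2)), .set 27 (emul (.v 71) (.v 2)), .set 13 (emul (.v 73) (.v 2)),
    .set 58 (emul (.c 2) (.v 13)), .set 14 (esub (.v 58) (.v 3)), .set 21 (esub (.v 3) (.c 1)),
    .set 18 (eadd (.v 3) (.c 2)), .set 25 (.c 3),
    .set 12 (esub (epw (.v 11)) (.c 1)), .set 59 (emul (.v 3) (epw (.v 11))),
    .set 4 (epw (emul (.v 11) (.v 3))), .set 7 (epw (emul (.v 11) (emul (.c 3) (.v 2)))),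
    .set 5 (epw (emul (.v 11) (esub (.v 3) (emul (.c 3) (.v 2))))),
    .set 6 (epw (emul (.v 72) (.v 2))), .set 28 (esub (epw (.v 27)) (.c 1)),
    .set 8 (epw (emul (.v 27) (.v 29))),
    .set 15 (emul (.v 6) (epw (.v 24))),
    .set 16 (esub (emul (emul (.v 10) (.v 10)) (.v 10)) (.c 1)),
    .set 17 (emul (emul (.c 64) (.v 8)) (epw (.v 3))),
    .set 23 (emul (.c 2) (.v 6)), .set 26 (esub (.v 4) (.c 1))]

/-- value (variable 34) and digit sum (variable 35) of `R[x]` -/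
def pHv (x : ℕ) : Stmt := blk
  [.set 34 (.c 0), .set 35 (.c 0), forL 37 3 (blk
    [.set 57 (edg x 37), .set 34 (emodM (eadd (.v 34) (emul (.v 57) (.ld 0 (.v 37))))),
      .set 35 (eadd (.v 35) (.v 57))])]

def pGenIn (b x m len : ℕ) : Stmt := blk
  [.set 48 (.c 0), .wh (elt (.v 48) (.v len)) (blk
    [.set 47 (.ld b (edbl 48)),
      .ite (eand (elt (edg 47 45) (edg x 45)) (elt (.ld b (eadd (edbl 48) (.c 1))) (.v m))) (blk
        [.st b (edbl len) (eadd (.v 47) (epw (emul (.v 11) (.v 45)))),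
          .st b (eadd (edbl len) (.c 1)) (eadd (.ld b (eadd (edbl 48) (.c 1))) (.c 1)),
          .set len (einc len)]) .skip,
      .set 48 (einc 48)])]

/-- list in bank `b` the numbers digitwise below `R[x]` with digit sum at most `R[m]` -/
def pGen (b x m len : ℕ) : Stmt := blk
  [.st b (.c 0) (.c 0), .st b (.c 1) (.c 0), .set len (.c 1), forL 45 3 (pGenIn b x m len)]

/-- values and hash values of all tuples -/
def pVal : Stmt := forL 33 8 (blk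
  [.set 34 (.ld 4 (eshr (.v 33) (.v 27))), .set 35 (eand (.v 33) (.v 28)),
    .ite (eand (elt (.c 0) (.v 35)) (elt (.v 35) (einc 1)))
      (.set 34 (radd (.v 34) (.inp (.v 35)))) .skip,
    .st 4 (.v 33) (.v 34),
    .st 6 (.v 33) (eshr (eand (rmul (.v 19) (.v 34)) (esub (.v 15) (.c 1))) (.v 24))])

def pListIn : Stmt := blk
  [.set 55 (einc 55),
    .set 56 (emodM (eadd (eadd (.v 36) (.ld 6 (.v 53))) (.v 54))),
    .st 9 (.v 55) (.ld 8 (.v 56)), .st 8 (.v 56) (.v 55), .st 10 (.v 55) (.v 50),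
    .st 11 (.v 55) (.v 53)]

def pList : Stmt := blk [.set 55 (.c 0), forL 33 7 (blk
  [.set 50 (emul (.v 33) (.v 5)), pHv 50, .set 36 (eadd (.ld 0 (einc 3)) (.v 34)),
    forL 53 8 (forL 54 25 pListIn)])]

/-- the colours of the entries for the modulus `R[40]` -/
def pCol : Stmt := blk [.set 63 (.c 0), forL 33 1 (blk
  [.set 63 (einc 63), .ite (eeq (.v 63) (.v 40)) (.set 63 (.c 0)) .skip,
    .st 5 (einc 33) (einc 63)])]

/-- follow the colour chain of the tuple `R[z]` from the start value in variable 64 -/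
def pChk (z : ℕ) : Stmt := forL 37 29 (blk
  [.set 57 (.ld 5 (ecd z 37)), .ite (elt (.v 64) (.v 57)) (.set 64 (.v 57)) (.set 64 (.v 4))])

def pAcc : Stmt := forL 33 8 (blk
  [.set 64 (.c 0), pChk 33, .set 34 (ewt (.ld 4 (.v 33))), .set 35 (.ld 6 (.v 33)),
    .ite (elt (.v 64) (.v 61)) (.st 12 (.v 35) (radd (.ld 12 (.v 35)) (.v 34))) .skip,
    .set 35 (eadd (.v 35) (.v 6)),
    .ite (eeq (.ld 5 (.v 33)) (.v 61)) (.st 12 (.v 35) (radd (.ld 12 (.v 35)) (.v 34))) .skip])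

/-- fill the row of `R[36]` in bank `b`; variable 38 runs from the input to the top value -/
def pZ (b : ℕ) (o : BOp) : Stmt := blk [.set 41 (.v 36), forL 37 59 (blk
  [.st b (.v 41) (.v 38), .set 44 (eshr (.v 37) (.v 11)), .set 45 (eand (.v 37) (.v 12)),
    .ite (eand (elt (.c 0) (.v 45)) (elt (.v 45) (eadd (edg 36 44) (.c 1))))
      (.set 38 (.bin o (.v 38) (.ld b (esub (.v 41) (epw (emul (.v 11) (.v 44))))))) .skip,
    .set 41 (eadd (.v 41) (.v 4))])]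

/-- fill the three table rows of `R[36]` -/
def pRow : Stmt := blk
  [pHv 36,
    .ite (eeq (.v 35) (.v 13)) (blk
      [.set 38 (.ld 12 (emodM (eadd (.ld 0 (.v 3)) (.v 34)))),
        .set 39 (.ld 12 (eadd (emodM (eadd (.ld 0 (einc 3)) (.v 34))) (.v 6)))])
      (blk [.set 38 (.c 0), .set 39 (.c 0)]),
    pZ 13 .radd, .set 62 (.v 38), .set 38 (.v 39), pZ 14 .radd,
    .set 38 (rmul (.v 62) (.v 38)), pZ 15 .rsub]

def pGlob : Stmt := forL 33 20 (blk [.set 36 (.ld 1 (edbl 33)), pRow])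

def pTop : Stmt := forL 49 22 (blk
  [.set 36 (esub (.v 42) (.ld 3 (emul (.c 2) (esub (.v 22) (einc 49))))), pRow])

/-- evaluate the output `R[42]` and test it against the tuple `R[43]` -/
def pOne : Stmt := blk
  [pGen 3 42 21 22, pTop,
    .set 52 (eand (rmul (.v 38) (ewt (.ld 4 (.v 43)))) (.v 16)),
    .ite (eand (elt (.c 0) (.v 52)) (elt (.v 52) (.v 10))) (.set 0 (.c 1)) .skip]

/-- treat the list entry `R[51]` at the query `R[50]` -/
def pItem : Stmt := blk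
  [.set 43 (.ld 11 (.v 51)), .set 42 (eadd (.v 50) (.ld 10 (.v 51))), pHv 42,
    .set 64 (.v 61), pChk 43,
    .ite (eand (eeq (.v 35) (.v 58)) (elt (.v 64) (.v 4))) pOne .skip]

def pQuery : Stmt := blk
  [pHv 50, .set 51 (.ld 8 (emodM (esub (.v 23) (eadd (.ld 0 (.v 3)) (.v 34))))),
    .wh (eand (elt (.c 0) (.v 51)) (elt (.v 46) (.v 17))) (blk
      [.set 46 (einc 46), pItem, .set 51 (.ld 9 (.v 51))])]

def pEval : Stmt := blk [.set 46 (.c 0), forL 50 5 pQuery]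

def pInst : Stmt := blk [pZero, pAcc, pGlob, pEval]

def pLoop : Stmt := forL 40 24 (blk [pCol, forL 61 24 pInst])

def pRest : Stmt := blk [pSetup, pWord 19 15, pRead, pGen 1 26 14 20, pVal, pList, pLoop]

def pMain (K : Kc) : Stmt := .seq (pConst K) pRest

/-! ### Parameters -/

structure Cx extends Kc where
  s : ℕ
  n : ℕ
  y : ℕ → ℤ

/-- the numbers listed by the generator -/
def Pl (t q x mx w : ℕ) : Prop := w < t ^ q ∧ Below t q w x ∧ ds t q w ≤ mx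

instance (t q x mx : ℕ) : DecidablePred (Pl t q x mx) := fun _ => by unfold Pl; infer_instance

namespace Cx

variable (c : Cx)

def t : ℕ := 2 ^ c.τ
def q : ℕ := c.g * c.s
def Q : ℕ := c.t ^ c.q
def Q1 : ℕ := c.t ^ (c.q - 3 * c.s)
def G : ℕ := c.t ^ (3 * c.s)
def lb : ℕ := c.l * c.s
def b : ℕ := 2 ^ c.lb
def N : ℕ := c.b ^ c.m
def k : ℕ := c.κ * c.s
def M : ℕ := 2 ^ c.k
def h : ℕ := c.η * c.s
def L : ℕ := 2 * c.h
/-- rows with digit sum at most `d` are precomputed -/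
def d : ℕ := c.L - c.q
def s1 : ℕ := c.q - 1
def A : ℕ := c.a * c.s
def V : ℕ := 2 ^ c.A
def T : ℕ := 2 ^ (6 * c.A)
def Cn : ℕ := 64 * c.N * 2 ^ c.q
def nR : ℕ := c.q + 2
/-- the length of a row -/
def J : ℕ := c.q * c.t

instance : NeZero c.M := ⟨by unfold M; positivity⟩

theorem t_pos : 0 < c.t := by unfold t; positivity
theorem M_pos : 0 < c.M := by unfold M; positivity
theorem Q_pos : 0 < c.Q := pow_pos c.t_pos _
theorem Q1_pos : 0 < c.Q1 := pow_pos c.t_pos _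
theorem G_pos : 0 < c.G := pow_pos c.t_pos _
theorem b_pos : 0 < c.b := by unfold b; positivity
theorem N_pos : 0 < c.N := pow_pos c.b_pos _
theorem V_pos : 0 < c.V := by unfold V; positivity
theorem T_pos : 0 < c.T := by unfold T; positivity

theorem and_M (a : ℕ) : a &&& (c.M - 1) = a % c.M := Nat.and_two_pow_sub_one_eq_mod _ _
theorem and_t (a : ℕ) : a &&& (c.t - 1) = a % c.t := Nat.and_two_pow_sub_one_eq_mod _ _
theorem and_b (a : ℕ) : a &&& (c.b - 1) = a % c.b := Nat.and_two_pow_sub_one_eq_mod _ _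

theorem MV : c.M * c.V = 2 ^ (c.k + c.A) := by rw [pow_add]; rfl

theorem t_pow (a : ℕ) : c.t ^ a = 2 ^ (c.τ * a) := (pow_mul _ _ _).symm

theorem shr_t (w : ℕ) : w >>> c.τ = w / c.t := Nat.shiftRight_eq_div_pow _ _
theorem shr_b (w : ℕ) : w >>> c.lb = w / c.b := Nat.shiftRight_eq_div_pow _ _

/-- the value of `edg` -/
theorem edg_eq (w a : ℕ) : (w >>> (c.τ * a)) &&& (c.t - 1) = dg c.t a w := by
  rw [c.and_t, Nat.shiftRight_eq_div_pow, ← c.t_pow, dg]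

/-- the value of `ecd` -/
theorem ecd_eq (w a : ℕ) : (w >>> (c.lb * a)) &&& (c.b - 1) = dg c.b a w := by
  rw [c.and_b, Nat.shiftRight_eq_div_pow, pow_mul, dg, b]

/-- the value of `epw` -/
theorem epw_eq {e : ℕ} (h : e ≤ 6 * c.A) : c.T >>> (6 * c.A - e) = 2 ^ e := by
  rw [Nat.shiftRight_eq_div_pow, T, Nat.pow_div (Nat.sub_le _ _) (by norm_num),
    Nat.sub_sub_self h]

/-! ### Ghost data -/

/-- the precomputed rows -/
def PG : ℕ → Prop := Pl c.t c.q (c.Q - 1) c.d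

instance : DecidablePred c.PG := by unfold PG; infer_instance

def LG : ℕ := Nat.count c.PG c.Q
/-- a bound for the number of rows filled for one output -/
def Lb : ℕ := 4 ^ c.q

/-- the value of a tuple -/
def x (z : ℕ) : ℤ := val c.b c.m c.y z
def γ (r z : ℕ) : ℕ := gam c.M c.V r (c.x z)

theorem γ_lt (r i : ℕ) : c.γ r i < c.M := gam_lt c.M_pos c.V_pos _ _

/-- the colour of entry `d` for the modulus `p` -/
def col (p d : ℕ) : ℕ := if 1 ≤ d ∧ d ≤ c.n then d % p + 1 else 0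

/-- the three classes of the instance with modulus `u.1` and middle colour `u.2` -/
def isA (u : ℕ × ℕ) (z : ℕ) : Prop := chn (c.col u.1) c.b c.Q z 0 c.m < u.2
def isB (u : ℕ × ℕ) (z : ℕ) : Prop := chn (c.col u.1) c.b c.Q z u.2 c.m < c.Q
def isC (u : ℕ × ℕ) (z : ℕ) : Prop := c.col u.1 z = u.2

instance (u : ℕ × ℕ) (z : ℕ) : Decidable (c.isA u z) := by unfold isA; infer_instance
instance (u : ℕ × ℕ) (z : ℕ) : Decidable (c.isB u z) := by unfold isB; infer_instance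
instance (u : ℕ × ℕ) (z : ℕ) : Decidable (c.isC u z) := by unfold isC; infer_instance

/-- the value of a digit string as the program stores it -/
def Hn (R : ℕ → ℕ) (w : ℕ) : ℕ := Hd c.t c.q R w % c.M

theorem Hn_lt (R : ℕ → ℕ) (w : ℕ) : c.Hn R w < c.M := Nat.mod_lt _ c.M_pos

def eg (m : ℕ) : ℕ := m / 3 / c.N
def ei (m : ℕ) : ℕ := m / 3 % c.N
/-- the high part of the output of list entry `m` -/
def hi (m : ℕ) : ℕ := c.eg m * c.Q1
/-- the bucket of list entry `m` -/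
def vn (R : ℕ → ℕ) (r m : ℕ) : ℕ :=
  (R (c.q + 1) + c.Hn R (c.hi m) + c.γ r (c.ei m) + m % 3) % c.M

/-- the weight table, accumulated over the first `m` tuples -/
def WT (r : ℕ) (u : ℕ × ℕ) (m a : ℕ) : ℤ :=
  ∑ z ∈ range m, ((if c.isA u z ∧ c.γ r z = a then wt c.T (c.x z) else 0) +
    if c.isC u z ∧ c.γ r z + c.M = a then wt c.T (c.x z) else 0)

/-- the input of side `j` (zero or one) -/
def Xz (R : ℕ → ℕ) (r : ℕ) (u : ℕ × ℕ) (j w : ℕ) : ℤ :=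
  if ds c.t c.q w = c.h then c.WT r u c.N ((R (c.q + j) + c.Hn R w) % c.M + j * c.M) else 0

def Pz (R : ℕ → ℕ) (r : ℕ) (u : ℕ × ℕ) (w : ℕ) : ℤ :=
  zet c.t 1 (c.Xz R r u 0) c.J w * zet c.t 1 (c.Xz R r u 1) c.J w

def Uz (R : ℕ → ℕ) (r : ℕ) (u : ℕ × ℕ) (w : ℕ) : ℤ := zet c.t (-1) (c.Pz R r u) c.J w

/-- the fingerprint test at output `e` for the tuple `z` -/
def test (R : ℕ → ℕ) (r : ℕ) (u : ℕ × ℕ) (e z : ℕ) : Prop :=
  0 < (c.Uz R r u e * wt c.T (c.x z)) % c.T ^ 3 ∧ (c.Uz R r u e * wt c.T (c.x z)) % c.T ^ 3 < c.T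

/-- the bucket looked up at query `w` -/
def qn (R : ℕ → ℕ) (w : ℕ) : ℕ := (2 * c.M - (R c.q + c.Hn R w)) % c.M

def qlen (R : ℕ → ℕ) (r w : ℕ) : ℕ := (Lst (c.vn R r) (c.G * c.N * 3) (c.qn R w)).length

/-- the number of list entries met at the first `j` queries -/
def cum (R : ℕ → ℕ) (r j : ℕ) : ℕ := ∑ w ∈ range j, c.qlen R r w

/-- the test is made and succeeds -/
def Pass (R : ℕ → ℕ) (r : ℕ) (u : ℕ × ℕ) (e z : ℕ) : Prop :=
  ds c.t c.q e = c.L ∧ c.isB u z ∧ c.test R r u e z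

/-- some test succeeds -/
def Found (R : ℕ → ℕ) (r : ℕ) : Prop := ∃ u e z, e < c.Q ∧ z < c.N ∧ c.Pass R r u e z

/-- a successful test among the entries listed at query `w` -/
def Hit (R : ℕ → ℕ) (r : ℕ) (u : ℕ × ℕ) (w : ℕ) : Prop :=
  ∃ m < c.G * c.N * 3, c.vn R r m = c.qn R w ∧ c.Pass R r u (w + c.hi m) (c.ei m)

/-- the output is unchanged, or set for a good reason -/
def Out (R : ℕ → ℕ) (r : ℕ) (a b : ℕ) : Prop := b = a ∨ (b = 1 ∧ c.Found R r)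

/-! ### Costs -/

def tHv : ℕ := c.q * 5 + 4
def tGen (len : ℕ) : ℕ := c.q * (len * 7 + 4) + 5
def tZ : ℕ := c.J * 8 + 3
def tRow : ℕ := c.tHv + 3 * c.tZ + 6
def tChk : ℕ := c.m * 5 + 2
def tOne : ℕ := c.tGen c.Lb + (c.Lb * (c.tRow + 3) + 2) + 3
def tItem : ℕ := c.tHv + c.tChk + c.tOne + 4
def tAcc : ℕ := c.N * (c.tChk + 10) + 2
def tEval : ℕ := c.Q1 * (c.tHv + 4) + c.Cn * (c.tItem + 3) + 3
def tInst : ℕ := (2 * c.M * 3 + 2) + c.tAcc + (c.LG * (c.tRow + 3) + 2) + c.tEval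
def tLoop : ℕ := c.A * ((c.n * 6 + 3) + (c.A * (c.tInst + 2) + 2) + 2) + 2
def tList : ℕ := c.G * (c.tHv + c.N * 28 + 6) + 3
def tAll : ℕ := 30 * c.A + (4 * (c.k + c.A) + 3) + (c.nR * (4 * c.k + 6) + 2) +
  c.tGen c.LG + (c.N * 8 + 2) + c.tList + c.tLoop

variable {c}

theorem Out.trans {R : ℕ → ℕ} {r a b d : ℕ} (h₁ : c.Out R r a b) (h₂ : c.Out R r b d) :
    c.Out R r a d := by
  rcases h₂ with rfl | h₂
  exacts [h₁, Or.inr h₂]

theorem Out.one {R : ℕ → ℕ} {r a b : ℕ} (h : c.Out R r a b) (ha : a = 1) : b = 1 := by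
  rcases h with rfl | h
  exacts [ha, h.1]

end Cx

/-- the parameter variables hold their values -/
structure Par (c : Cx) (σ : St) : Prop where
  n : σ.var 1 = c.n
  q : σ.var 3 = c.q
  Q : σ.var 4 = c.Q
  Q1 : σ.var 5 = c.Q1
  M : σ.var 6 = c.M
  G : σ.var 7 = c.G
  N : σ.var 8 = c.N
  T : σ.var 10 = c.T
  τ : σ.var 11 = c.τ
  tm : σ.var 12 = c.t - 1
  h : σ.var 13 = c.h
  d : σ.var 14 = c.d
  Wd : σ.var 15 = c.M * c.V
  T3 : σ.var 16 = c.T ^ 3 - 1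
  Cn : σ.var 17 = c.Cn
  nR : σ.var 18 = c.nR
  s1 : σ.var 21 = c.s1
  M2 : σ.var 23 = 2 * c.M
  A : σ.var 24 = c.A
  three : σ.var 25 = 3
  full : σ.var 26 = c.Q - 1
  lb : σ.var 27 = c.lb
  bm : σ.var 28 = c.b - 1
  m : σ.var 29 = c.m
  L : σ.var 58 = c.L
  J : σ.var 59 = c.J
  A6 : σ.var 75 = 6 * c.A

def parVars : List ℕ :=
  [1, 3, 4, 5, 6, 7, 8, 10, 11, 12, 13, 14, 15, 16, 17, 18, 21, 23, 24, 25, 26, 27, 28, 29, 58,
    59, 75]

theorem Par.frame {c : Cx} {σ σ' : St} {vs bs : List ℕ} {r : Bool} (h : Par c σ)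
    (hF : Frame vs bs r σ σ') (hv : ∀ x ∈ parVars, x ∉ vs) : Par c σ' := by
  have e : ∀ x ∈ parVars, σ'.var x = σ.var x := fun x hx => hF.var x (hv x hx)
  exact ⟨(e 1 (by decide)).trans h.n, (e 3 (by decide)).trans h.q, (e 4 (by decide)).trans h.Q,
    (e 5 (by decide)).trans h.Q1, (e 6 (by decide)).trans h.M, (e 7 (by decide)).trans h.G,
    (e 8 (by decide)).trans h.N, (e 10 (by decide)).trans h.T, (e 11 (by decide)).trans h.τ,
    (e 12 (by decide)).trans h.tm, (e 13 (by decide)).trans h.h, (e 14 (by decide)).trans h.d,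
    (e 15 (by decide)).trans h.Wd, (e 16 (by decide)).trans h.T3, (e 17 (by decide)).trans h.Cn,
    (e 18 (by decide)).trans h.nR, (e 21 (by decide)).trans h.s1, (e 23 (by decide)).trans h.M2,
    (e 24 (by decide)).trans h.A, (e 25 (by decide)).trans h.three,
    (e 26 (by decide)).trans h.full, (e 27 (by decide)).trans h.lb, (e 28 (by decide)).trans h.bm,
    (e 29 (by decide)).trans h.m, (e 58 (by decide)).trans h.L, (e 59 (by decide)).trans h.J,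
    (e 75 (by decide)).trans h.A6⟩

theorem frame_setv (σ : St) (x v : ℕ) : Frame [x] [] false σ (σ.setv x v) :=
  (Frame.refl _ _ _ _).of_setv (by simp)

/-- size facts relating the parameters and the environment -/
structure Bnd (c : Cx) (E : Env) : Prop where
  τ1 : 1 ≤ c.τ
  m1 : 1 ≤ c.m
  q1 : 1 ≤ c.q
  s3 : 3 * c.s ≤ c.q
  qL : c.q ≤ c.L
  n1 : E.n1 = c.n + 1
  inp : ∀ d, 1 ≤ d → d ≤ c.n → E.inp d = (c.y d % E.W).toNat
  y0 : ∀ d, ¬ (1 ≤ d ∧ d ≤ c.n) → c.y d = 0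
  nb : c.n < c.b
  bN : c.b ≤ c.N
  NQ : c.N < c.Q
  big : 2000 * E.Lim < E.W
  lQ : (c.J + 3) * c.Q ≤ E.Lim
  lM : 4 * c.M ≤ E.Lim
  ltM : (c.t + 1) * c.M ≤ E.Lim
  lE : 3 * (c.G * c.N) + 1 ≤ E.Lim
  lA : 100 * c.A ≤ E.Lim
  lC : c.Cn ≤ E.Lim
  JA : c.J ≤ c.A
  τA : c.τ * c.q ≤ c.A
  bA : c.lb * c.m ≤ c.A
  mA : c.m ≤ c.A
  LA : c.L ≤ c.A
  lWd : 2 * (c.M * c.V) < E.W
  dWd : c.M * c.V ∣ E.W
  dT : c.T ^ 3 ∣ E.W

/-- bank `b` holds the first `len` numbers with property `P` and their digit sums -/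
def LstAt (c : Cx) (b : ℕ) (P : ℕ → Prop) (len : ℕ) (σ : St) : Prop :=
  ∀ i < len, σ.bank b (2 * i) = Nat.nth P i ∧ σ.bank b (2 * i + 1) = ds c.t c.q (Nat.nth P i)

/-- the buckets hold the first `m` entries -/
def LInv (c : Cx) (R : ℕ → ℕ) (r m : ℕ) (σ : St) : Prop :=
  (∀ v < c.M, Chain (σ.bank 9) (σ.bank 8 v) (Lst (c.vn R r) m v)) ∧
    ∀ m' < m, σ.bank 10 (m' + 1) = c.hi m' ∧ σ.bank 11 (m' + 1) = c.ei m'

/-- the precomputed data are in place -/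
structure Pre (c : Cx) (E : Env) (R : ℕ → ℕ) (r : ℕ) (σ : St) : Prop where
  par : Par c σ
  n1 : σ.var 20 = c.LG
  b0 : σ.bank 0 = R
  hR : ∀ i < c.nR, R i < c.M
  b1 : LstAt c 1 c.PG c.LG σ
  b4 : ∀ z < c.N, (σ.bank 4 z : ZMod E.W) = (c.x z : ℤ)
  b6 : ∀ z < c.N, σ.bank 6 z = c.γ r z
  lst : LInv c R r (c.G * c.N * 3) σ

theorem Pre.frame {c : Cx} {E : Env} {R : ℕ → ℕ} {r : ℕ} {σ σ' : St} {vs bs : List ℕ} {z : Bool}
    (h : Pre c E R r σ) (hF : Frame vs bs z σ σ') (hv : ∀ x ∈ 20 :: parVars, x ∉ vs)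
    (hb : ∀ k ∈ [0, 1, 4, 6, 8, 9, 10, 11], k ∉ bs) : Pre c E R r σ' := by
  have e : ∀ k ∈ [0, 1, 4, 6, 8, 9, 10, 11], σ'.bank k = σ.bank k :=
    fun k hk => hF.bank k (hb k hk)
  refine ⟨h.par.frame hF fun x hx => hv x (by simp [hx]),
    (hF.var 20 (hv 20 (by decide))).trans h.n1, (e 0 (by decide)).trans h.b0, h.hR, ?_,
    e 4 (by decide) ▸ h.b4, e 6 (by decide) ▸ h.b6, ?_⟩
  · unfold LstAt
    rw [e 1 (by decide)]
    exact h.b1
  · unfold LInv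
    rw [e 8 (by decide), e 9 (by decide), e 10 (by decide), e 11 (by decide)]
    exact h.lst

/-- the colours of instance `u` are in place -/
structure Ins (c : Cx) (E : Env) (R : ℕ → ℕ) (r : ℕ) (u : ℕ × ℕ) (σ : St) : Prop where
  pre : Pre c E R r σ
  b5 : σ.bank 5 = c.col u.1
  hu : σ.var 61 = u.2
  hu' : u.2 < c.A

theorem Ins.frame {c : Cx} {E : Env} {R : ℕ → ℕ} {r : ℕ} {u : ℕ × ℕ} {σ σ' : St}
    {vs bs : List ℕ} {z : Bool} (h : Ins c E R r u σ) (hF : Frame vs bs z σ σ')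
    (hv : ∀ x ∈ 61 :: 20 :: parVars, x ∉ vs)
    (hb : ∀ k ∈ [5, 0, 1, 4, 6, 8, 9, 10, 11], k ∉ bs) : Ins c E R r u σ' :=
  ⟨h.pre.frame hF (fun x hx => hv x (List.mem_cons_of_mem _ hx))
      fun x hx => hb x (List.mem_cons_of_mem _ hx),
    (hF.bank 5 (hb 5 (by decide))).trans h.b5, (hF.var 61 (hv 61 (by decide))).trans h.hu, h.hu'⟩

/-- the weight table of instance `u` is in place -/
structure Acc (c : Cx) (E : Env) (R : ℕ → ℕ) (r : ℕ) (u : ℕ × ℕ) (σ : St) : Prop where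
  ins : Ins c E R r u σ
  b12 : ∀ a < 2 * c.M, (σ.bank 12 a : ZMod E.W) = (c.WT r u c.N a : ℤ)

theorem Acc.frame {c : Cx} {E : Env} {R : ℕ → ℕ} {r : ℕ} {u : ℕ × ℕ} {σ σ' : St}
    {vs bs : List ℕ} {z : Bool} (h : Acc c E R r u σ) (hF : Frame vs bs z σ σ')
    (hv : ∀ x ∈ 61 :: 20 :: parVars, x ∉ vs)
    (hb : ∀ k ∈ [12, 5, 0, 1, 4, 6, 8, 9, 10, 11], k ∉ bs) : Acc c E R r u σ' :=
  ⟨h.ins.frame hF hv fun x hx => hb x (List.mem_cons_of_mem _ hx),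
    hF.bank 12 (hb 12 (by decide)) ▸ h.b12⟩

/-- row `w` of the table `m` holds the values of the recursion -/
def RowM (c : Cx) (E : Env) (ε : ℤ) (X : ℕ → ℤ) (m : ℕ → ℕ) (w : ℕ) : Prop :=
  ∀ j < c.J, (m (j * c.Q + w) : ZMod E.W) = (zet c.t ε X j w : ℤ)

/-- the three rows of `w` are filled -/
def RowOK (c : Cx) (E : Env) (R : ℕ → ℕ) (r : ℕ) (u : ℕ × ℕ) (σ : St) (w : ℕ) : Prop :=
  RowM c E 1 (c.Xz R r u 0) (σ.bank 13) w ∧ RowM c E 1 (c.Xz R r u 1) (σ.bank 14) w ∧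
    RowM c E (-1) (c.Pz R r u) (σ.bank 15) w

/-- filled rows stay filled -/
def Keeps (c : Cx) (E : Env) (R : ℕ → ℕ) (r : ℕ) (u : ℕ × ℕ) (σ σ' : St) : Prop :=
  ∀ w < c.Q, RowOK c E R r u σ w → RowOK c E R r u σ' w

theorem Keeps.refl (c : Cx) (E : Env) (R : ℕ → ℕ) (r : ℕ) (u : ℕ × ℕ) (σ : St) :
    Keeps c E R r u σ σ := fun _ _ h => h

theorem Keeps.trans {c : Cx} {E : Env} {R : ℕ → ℕ} {r : ℕ} {u : ℕ × ℕ} {σ σ' σ'' : St}
    (h₁ : Keeps c E R r u σ σ') (h₂ : Keeps c E R r u σ' σ'') : Keeps c E R r u σ σ'' :=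
  fun w hw h => h₂ w hw (h₁ w hw h)

theorem Keeps.of_frame {c : Cx} {E : Env} {R : ℕ → ℕ} {r : ℕ} {u : ℕ × ℕ} {σ σ' : St}
    {vs bs : List ℕ} {z : Bool} (hF : Frame vs bs z σ σ') (hb : ∀ k ∈ [13, 14, 15], k ∉ bs) :
    Keeps c E R r u σ σ' := by
  intro w _ h
  unfold RowOK
  rw [hF.bank 13 (hb 13 (by decide)), hF.bank 14 (hb 14 (by decide)),
    hF.bank 15 (hb 15 (by decide))]
  exact h

/-- the tables of instance `u` are in place -/
structure Tab (c : Cx) (E : Env) (R : ℕ → ℕ) (r : ℕ) (u : ℕ × ℕ) (σ : St) : Prop where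
  acc : Acc c E R r u σ
  rows : ∀ w < c.Q, ds c.t c.q w ≤ c.d → RowOK c E R r u σ w

theorem Tab.keep {c : Cx} {E : Env} {R : ℕ → ℕ} {r : ℕ} {u : ℕ × ℕ} {σ σ' : St}
    {vs bs : List ℕ} {z : Bool} (h : Tab c E R r u σ) (hF : Frame vs bs z σ σ')
    (hv : ∀ x ∈ 61 :: 20 :: parVars, x ∉ vs)
    (hb : ∀ k ∈ [12, 5, 0, 1, 4, 6, 8, 9, 10, 11], k ∉ bs) (hK : Keeps c E R r u σ σ') :
    Tab c E R r u σ' :=
  ⟨h.acc.frame hF hv hb, fun w hw hd => hK w hw (h.rows w hw hd)⟩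

/-- the scale is the one chosen for the input length -/
structure Sz (c : Cx) : Prop where
  s1 : c.s0 ≤ c.s
  nN : c.n < c.b
  smin : ∀ i, c.s0 ≤ i → i < c.s → 2 ^ (c.l * i) ≤ c.n

end Pool.Agent.P.MP_8f87b2_lc.KS
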