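import Pool.Agent.P.MP_8f87b2_lc.KS.Defs
import Pool.Agent.P.MP_8f87b2_lc.KS.Complete

/-!
# From the specifications to the final statement
-/

namespace Pool.Agent.P.MP_8f87b2_lc.KS

open Finset MeasureTheory

/-- entry number `d`, counted from one -/
def ent (xs : List ℤ) (d : ℕ) : ℤ := if d = 0 then 0 else xs.getD (d - 1) 0

theorem ent_succ (xs : List ℤ) (i : Fin xs.length) : ent xs (i + 1) = xs[i] := by
  simp [ent]

theorem isYesK_iff (k : ℕ) (xs : List ℤ) :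
    IsYesK k xs ↔ ∃ S ⊆ Icc 1 xs.length, S.card = k ∧ ∑ d ∈ S, ent xs d = 0 := by
  have inj : Function.Injective fun i : Fin xs.length => (i : ℕ) + 1 := fun i j h =>
    Fin.ext (Nat.add_right_cancel h)
  constructor
  · rintro ⟨S, h1, h2⟩
    refine ⟨S.map ⟨_, inj⟩, fun d hd => ?_, by rw [card_map, h1], ?_⟩
    · obtain ⟨i, -, rfl⟩ := mem_map.mp hd
      have := i.2
      simp only [Function.Embedding.coeFn_mk, mem_Icc]
      omega
    · rw [sum_map, ← h2]
      exact sum_congr rfl fun i _ => ent_succ xs i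
  · rintro ⟨S, h0, h1, h2⟩
    have e : S = (univ.filter fun i : Fin xs.length => (i : ℕ) + 1 ∈ S).map ⟨_, inj⟩ := by
      ext d
      simp only [mem_map, mem_filter, mem_univ, true_and, Function.Embedding.coeFn_mk]
      refine ⟨fun hd => ?_, by rintro ⟨i, hi, rfl⟩; exact hi⟩
      have := mem_Icc.mp (h0 hd)
      exact ⟨⟨d - 1, by omega⟩, by rwa [Nat.sub_add_cancel this.1], Nat.sub_add_cancel this.1⟩
    rw [e, card_map] at h1
    rw [e, sum_map] at h2
    exact ⟨_, h1, (sum_congr rfl fun i _ => (ent_succ xs i).symm).trans h2⟩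

theorem exists_Sz (K : Kc) (hl : 1 ≤ K.l) (n : ℕ) (y : ℕ → ℤ) :
    ∃ c : Cx, c.toKc = K ∧ c.n = n ∧ c.y = y ∧ Sz c := by
  classical
  have ex : ∃ s, K.s0 ≤ s ∧ n < 2 ^ (K.l * s) :=
    ⟨n + K.s0, by omega, lt_of_le_of_lt
      (le_trans (by omega) (Nat.le_mul_of_pos_left _ hl)) Nat.lt_two_pow_self⟩
  refine ⟨⟨K, Nat.find ex, n, y⟩, rfl, rfl, rfl, (Nat.find_spec ex).1, (Nat.find_spec ex).2,
    fun i h1 h2 => ?_⟩
  have := Nat.find_min ex h2
  simp only [not_and, not_lt] at this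
  exact this h1

theorem Kc.OK.l_pos {K : Kc} {cc : ℕ} (h : K.OK cc) : 1 ≤ K.l := by
  have h1 := h.hl
  have h2 : 4 ≤ 2 ^ K.τ := by
    rw [h.hτ]
    exact le_trans (by omega) Nat.lt_two_pow_self.le
  have h3 : 2 ^ K.τ ≤ K.g := h.hg ▸ Nat.le_mul_of_pos_right _ (Nat.factorial_pos _)
  omega

theorem decides_of (hMain : SMain) (hwf : ∀ K, (pMain K).wf = true) (hK : SK) (hBnd : SBnd)
    (hTime : STime) (hGood : SGood) (m : ℕ) (hm : 1 ≤ m) (cc : ℕ) :
    ∃ γ : ℚ, γ < m + 1 ∧ DecidesK (2 * m + 1) cc γ := by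
  obtain ⟨K, rfl, hOK⟩ := hK m cc hm
  obtain ⟨γ, hγ, C, hC⟩ := hTime K cc hOK
  refine ⟨γ, hγ, program (pMain K), 20 * K.a * K.s0, ⌈(pMain K).K * C + 4⌉₊,
    fun xs hv w hw => ?_⟩
  obtain ⟨c, rfl, hn, hy, hS⟩ := exists_Sz K hOK.l_pos xs.length (ent xs)
  have hs0 := hOK.hs0
  have hsw : 20 * c.A ≤ w := by
    refine le_trans ?_ hw
    rw [Cx.A, mul_assoc, mul_assoc]
    refine Nat.mul_le_mul_left _ (Nat.mul_le_mul_left _ ?_)
    rcases Nat.lt_or_ge c.s0 c.s with h | h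
    · have h1 := hS.smin (c.s - 1) (by omega) (by omega)
      have h3 := Nat.le_log_of_pow_le (b := 2) (by norm_num) h1
      have h4 := Nat.le_mul_of_pos_left (c.s - 1) hOK.l_pos
      rw [hn] at h3
      exact le_trans (by omega) (Nat.le_mul_of_pos_left _ (by omega))
    · exact h.trans (Nat.le_mul_of_pos_right _ (by omega))
  have hW : 2 ^ (20 * c.A) ≤ 2 ^ w := Nat.pow_le_pow_right (by norm_num) hsw
  have hy0 : ∀ d, ¬ (1 ≤ d ∧ d ≤ c.n) → c.y d = 0 := fun d hd => by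
    rw [hy, ent]
    split_ifs
    · rfl
    · exact List.getD_eq_default _ _ (by omega)
  have hB : ∀ ω, Bnd c (envOf w (2 ^ (3 * c.A)) xs ω) ∧ Nm c := fun ω =>
    hBnd hOK hS rfl hsw rfl (by rw [hn]; rfl)
      (fun d h1 _ => by simp [envOf, start, hy, ent, show d ≠ 0 by omega]) hy0 fun d => by
      by_cases hd : 1 ≤ d ∧ d ≤ c.n
      · rw [hy, hn, ent, if_neg (by omega), List.getD_eq_getElem _ _ (by omega)]
        exact hv _ (List.getElem_mem _)
      · rw [hy0 d hd, abs_zero]; positivity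
  obtain ⟨hB0, hN⟩ := hB fun _ => false
  have hbig : 2000 * 2 ^ (3 * c.A) < 2 ^ w := hB0.big
  have hln : c.n + 1 ≤ 2 ^ (3 * c.A) := by
    have h1 : (c.J + 3) * c.Q ≤ 2 ^ (3 * c.A) := hB0.lQ
    have := hN.nb
    have := hN.bN
    have := hN.NQ
    have := Nat.le_mul_of_pos_left c.Q (show 0 < c.J + 3 by omega)
    omega
  have hp : 0 < 2 ^ (3 * c.A) := by positivity
  set P := pMain c.toKc with hP
  have main : ∀ ω, (program P).length ≤ (run w (program P) ω xs (P.K * c.tAll + 4)).pc ∧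
      ∃ R : ℕ → ℕ, (∀ i < c.nR, R i = bits ω (c.k + c.A + i * c.k) c.k) ∧
      c.Out R (bits ω 0 (c.k + c.A)) 0 ((run w (program P) ω xs (P.K * c.tAll + 4)).reg 0) ∧
      (c.cum R (bits ω 0 (c.k + c.A)) c.Q1 ≤ c.Cn → ∀ u : ℕ × ℕ, u.1 < c.A → u.2 < c.A →
        ∀ e < c.Q1, c.Hit R (bits ω 0 (c.k + c.A)) u e →
        (run w (program P) ω xs (P.K * c.tAll + 4)).reg 0 = 1) := by
    intro ω
    obtain ⟨σ', t, hx', R, h1, h2, h3, h4⟩ := hMain hOK hS (hB ω).1
      (by simp only [envOf, start, if_true]; rw [← hn]; exact Nat.mod_eq_of_lt (by omega)) hW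
    obtain ⟨p1, p2⟩ := program_ok (T := P.K * c.tAll + 4) (hwf _)
      (by omega) (by omega) hx' (Nat.add_le_add_right (Nat.mul_le_mul_left _ (by omega)) _)
    rw [p2]
    exact ⟨p1, R, h1, h2, h3⟩
  refine ⟨P.K * c.tAll + 4, ?_, fun ω => (main ω).1, ?_⟩
  · have h1 := hC c rfl hS
    rw [hn] at h1
    have h2 : (0 : ℝ) ≤ (xs.length : ℝ) ^ (γ : ℝ) := by positivity
    have h3 := mul_le_mul_of_nonneg_left h1 (Nat.cast_nonneg (α := ℝ) P.K)
    refine le_trans ?_ (mul_le_mul_of_nonneg_right (Nat.le_ceil _) (by linarith))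
    rw [Nat.cast_add, Nat.cast_mul, Nat.cast_ofNat]
    linarith
  by_cases hy' : IsYesK (2 * c.m + 1) xs
  · obtain ⟨S, h0, h1, h2⟩ := (isYesK_iff _ xs).mp hy'
    rw [← hn] at h0
    rw [← hy] at h2
    obtain ⟨u, u1, u2, ia, ha, ic, hc, ib, hb, ca, cc', cb, hz⟩ := sSplit hN S h0 h1 h2
    obtain ⟨D, Ev, hE, hg⟩ := hGood hOK hS hN
    have hg := hg ia ha ic hc
    rw [c.MV] at hg
    refine (tape_bound (M := c.M) (k := c.k) rfl
      (fun r => Good c.t c.q Ev c.N c.b c.Cn (gz c.M c.V r c.x) c.x ia ic) hg).trans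
      (measure_mono fun ω hω => ?_)
    obtain ⟨-, R, h1, -, h3⟩ := main ω
    obtain ⟨k1, e, he, k2⟩ := sComplete hN (R := R) (fun i hi => by
      rw [h1 i hi]; simp [words, MP_8f87b2_lc.ext, show i < c.q + 2 from hi])
      (fun i hi => by rw [h1 i hi]; exact bits_lt _ _ _) hE ha hc hb ca cc' cb hz hω
    simp [h3 k1 u u1 u2 e he k2, hy']
  · have : {ω | (run w (program P) ω xs (P.K * c.tAll + 4)).reg 0 ≠ 0 ↔
        IsYesK (2 * c.m + 1) xs} = Set.univ := by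
      refine Set.eq_univ_of_forall fun ω => ?_
      obtain ⟨-, R, -, h2, -⟩ := main ω
      rcases h2 with h2 | h2
      · simp [h2, hy']
      · exfalso
        have := sSound hN h2.2
        rw [hn, hy] at this
        exact hy' ((isYesK_iff _ xs).mpr this)
    rw [this, measure_univ]
    exact ENNReal.div_le_of_le_mul (by norm_num)

end Pool.Agent.P.MP_8f87b2_lc.KS
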