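import Pool.Agent.P.MP_8f87b2_lc.Defs

/-!
# Integer k-SUM on the randomized word-RAM

Only the definitions used by the final statement live in this file. The machine (`Instr`, `run`,
`tapeLaw`) is the one of `Pool.Agent.P.MP_8f87b2_lc.Defs`.
-/

namespace Pool.Agent.P.MP_8f87b2_lc.KS

/-- A valid instance: `n` integers in `[-n ^ c, n ^ c]` (repetitions are allowed). -/
def ValidK (c : ℕ) (xs : List ℤ) : Prop :=
  ∀ x ∈ xs, |x| ≤ (xs.length : ℤ) ^ c

/-- A yes-instance of `k`-SUM: `k` distinct indices whose entries sum to zero. -/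
def IsYesK (k : ℕ) (xs : List ℤ) : Prop :=
  ∃ S : Finset (Fin xs.length), S.card = k ∧ ∑ i ∈ S, xs[i] = 0

/-- Some randomized word-RAM program decides `k`-SUM on entries in `[-n ^ c, n ^ c]` in time
`O(n ^ γ)`: there are a program `P` and constants `K`, `C` such that for every valid instance with
`n` entries and every word size `w ≥ K (log₂ n + 1)` there is a step count `t ≤ C (n ^ γ + 1)`
such that on every tape the program has halted after `t` steps, and with probability at least
`2 / 3` its answer (yes iff register `0` is nonzero) is correct. -/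
def DecidesK (k c : ℕ) (γ : ℚ) : Prop :=
  ∃ (P : List Instr) (K C : ℕ), ∀ xs : List ℤ, ValidK c xs →
    ∀ w : ℕ, K * (Nat.log 2 xs.length + 1) ≤ w →
      ∃ t : ℕ, (t : ℝ) ≤ C * ((xs.length : ℝ) ^ (γ : ℝ) + 1) ∧
        (∀ ω, P.length ≤ (run w P ω xs t).pc) ∧
        2 / 3 ≤ tapeLaw {ω | (run w P ω xs t).reg 0 ≠ 0 ↔ IsYesK k xs}

end Pool.Agent.P.MP_8f87b2_lc.KS
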