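import Pool.Agent.P.MP_8f87b2_lc.KS.Spec

/-!
# The queries of one instance, and the loops over the instances
-/

namespace Pool.Agent.P.MP_8f87b2_lc.KS

open Finset

namespace EvalP

variable {E : Env} {c : Cx}

theorem pQuery_spec (h1 : SHv) (h2 : SItem) (hB : Bnd c E) {σ : St} {t : ℕ} {R : ℕ → ℕ}
    {r cn w : ℕ} {u : ℕ × ℕ} (hT : Tab c E R r u σ) (hw : w < c.Q1) (h50 : σ.var 50 = w)
    (h46 : σ.var 46 = cn) (hcn : cn ≤ c.Cn) :
    WP E pQuery (fun σ' t' => ∃ cn', σ'.var 46 = cn' ∧ cn' ≤ cn + c.qlen R r w ∧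
      cn' ≤ c.Cn ∧ Keeps c E R r u σ σ' ∧ c.Out R r (σ.var 0) (σ'.var 0) ∧
      (cn + c.qlen R r w ≤ c.Cn → c.Hit R r u w → σ'.var 0 = 1) ∧
      t' + cn * (c.tItem + 3) ≤ t + c.tHv + 2 + cn' * (c.tItem + 3)) σ t := by
  have hbig := hB.big
  have hlM := hB.lM
  have hlE := hB.lE
  have hlA := hB.lA
  have hlC := hB.lC
  have hq1 := hB.q1
  have hqA : c.q ≤ c.A := le_trans (Nat.le_mul_of_pos_left _ hB.τ1) hB.τA
  have hM := c.M_pos
  have hP := hT.acc.ins.pre.par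
  have g1 : R c.q < c.M := hT.acc.ins.pre.hR c.q (by unfold Cx.nR; omega)
  have g2 := c.Hn_lt R w
  have g4 : c.qn R w < c.M := Nat.mod_lt _ hM
  unfold pQuery
  rw [wp_blk_cons]
  refine (h1 hB (x := 50) (by decide) hP hT.acc.ins.pre.b0 hT.acc.ins.pre.hR h50).call
    [34, 35, 37, 57] [] false (by decide) ?_
  rintro σ₀ t₀ hF₀ ⟨e34, -, ht₀⟩
  have hK₀ : Keeps c E R r u σ σ₀ := Keeps.of_frame hF₀ (by decide)
  have hT₀ := hT.keep hF₀ (by decide) (by decide) hK₀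
  have hP₀ := hT₀.acc.ins.pre.par
  simp only [wp_blk_cons, wp_set, wp_blk_nil, Expr.safe, Expr.eval, BOp.safe, BOp.eval,
    e34, hP₀.M, hP₀.M2, hP₀.q, hT₀.acc.ins.pre.b0, c.and_M, ← Cx.qn.eq_1, true_and, and_true]
  refine ⟨by omega, ?_⟩
  set L := Lst (c.vn R r) (c.G * c.N * 3) (c.qn R w) with hL
  set K := c.tItem + 3 with hK
  have z0 : σ₀.var 0 = σ.var 0 := hF₀.var 0 (by decide)
  have z46 : σ₀.var 46 = cn := (hF₀.var 46 (by decide)).trans h46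
  have z50 : σ₀.var 50 = w := (hF₀.var 50 (by decide)).trans h50
  refine wp_while (fun σ' t' => ∃ dn rm : List ℕ, L = dn ++ rm ∧
      Chain (σ₀.bank 9) (σ'.var 51) rm ∧ σ'.var 46 = cn + dn.length ∧
      cn + dn.length ≤ c.Cn ∧ Keeps c E R r u σ₀ σ' ∧ c.Out R r (σ.var 0) (σ'.var 0) ∧
      (∀ m, m + 1 ∈ dn → c.Pass R r u (w + c.hi m) (c.ei m) → σ'.var 0 = 1) ∧
      t' ≤ t₀ + 1 + dn.length * K)
    (fun σ' => c.Cn - σ'.var 46)
    [0, 22, 34, 35, 36, 37, 38, 39, 41, 42, 43, 44, 45, 46, 47, 48, 49, 51, 52, 57, 62, 64]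
    [3, 13, 14, 15] false (by decide)
    ⟨[], L, rfl, by simpa using hT₀.acc.ins.pre.lst.1 _ (by omega), by simp [z46],
      by simpa using hcn, fun _ _ h => h, Or.inl (by simp [z0]), by simp, by simp⟩ ?_
  rintro σ₁ t₁ hF₁ ⟨dn, rm, hLe, hch, e46, hlt, hkp, hout, hhit, ht⟩
  have hF₁' : Frame
      [0, 22, 34, 35, 36, 37, 38, 39, 41, 42, 43, 44, 45, 46, 47, 48, 49, 51, 52, 57, 62, 64]
      [3, 13, 14, 15] false σ₀ σ₁ := hF₁.of_setv (by decide)
  have hT₁ := hT₀.keep hF₁' (by decide) (by decide) hkp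
  have hP₁ := hT₁.acc.ins.pre.par
  have hlen : c.qlen R r w = dn.length + rm.length := by
    rw [Cx.qlen, ← hL, hLe, List.length_append]
  refine ⟨by simp [Expr.safe, BOp.safe]; omega, fun hc => ?_, fun hc => ?_⟩
  · have hc' : σ₁.var 51 ≠ 0 ∧ cn + dn.length < c.Cn := by
      have hc₁ : (if 0 < σ₁.var 51 then 1 else 0) &&&
          (if σ₁.var 46 < σ₁.var 17 then 1 else 0) ≠ 0 := hc
      rw [e46, hP₁.Cn] at hc₁
      split_ifs at hc₁ <;> simp at hc₁; omega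
    obtain ⟨a, rm, rfl⟩ : ∃ a rm', rm = a :: rm' := by
      cases rm with
      | nil => exact absurd hch hc'.1
      | cons a rm => exact ⟨a, rm, rfl⟩
    obtain ⟨e51, -, hch'⟩ := hch
    obtain ⟨m, hm, rfl, hv⟩ := mem_Lst.mp (show a ∈ L by simp [hLe])
    have e9 : σ₁.bank 9 = σ₀.bank 9 := hF₁'.bank 9 (by decide)
    have e50 : σ₁.var 50 = w := (hF₁'.var 50 (by decide)).trans z50
    simp only [wp_blk_cons, wp_set, wp_blk_nil, Expr.safe, Expr.eval, BOp.safe,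
      BOp.eval, St.setv_var, e46, Nat.reduceEqDiff, if_true, if_false, true_and]
    refine ⟨by omega, ?_⟩
    set σ₂ := σ₁.setv 46 (cn + dn.length + 1) with hσ₂
    have hF₂ : Frame [46] [] false σ₁ σ₂ := frame_setv _ _ _
    have hK₂ : Keeps c E R r u σ₁ σ₂ := Keeps.of_frame hF₂ (by decide)
    refine (h2 hB (hT₁.keep hF₂ (by decide) (by decide) hK₂) hw hm
      (by simp [hσ₂, e50]) (by simp [hσ₂, e51])).call
      [0, 22, 34, 35, 36, 37, 38, 39, 41, 42, 43, 44, 45, 47, 48, 49, 52, 57, 62, 64]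
      [3, 13, 14, 15] false (by decide) ?_
    rintro σ₃ t₃ hF₃ ⟨a0, a2, a3, a4⟩
    have f51 : σ₃.var 51 = m + 1 := by rw [hF₃.var 51 (by decide)]; simp [hσ₂, e51]
    have f46 : σ₃.var 46 = cn + dn.length + 1 := by
      rw [hF₃.var 46 (by decide)]; simp [hσ₂]
    have f9 : σ₃.bank 9 = σ₀.bank 9 := by rw [hF₃.bank 9 (by decide)]; simp [hσ₂, e9]
    have a2' : c.Out R r (σ₁.var 0) (σ₃.var 0) := by simpa [hσ₂] using a2
    rw [f51, f9]
    have a5 : cn + (dn ++ [m + 1]).length = cn + dn.length + 1 := by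
      simp only [List.length_append, List.length_singleton]; ring
    refine ⟨by omega, ⟨dn ++ [m + 1], rm, by simp [hLe], hch', by rw [a5, f46], by omega,
      hkp.trans (hK₂.trans a0), hout.trans a2', fun m' hm' b1 => ?_, ?_⟩, by omega⟩
    · rcases List.mem_append.mp hm' with h | h
      · exact a2'.one (hhit m' h b1)
      · obtain rfl : m' = m := by simpa using h
        exact a3 b1
    · simp only [List.length_append, List.length_singleton, Nat.add_mul]; omega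
  · refine ⟨cn + dn.length, e46, by omega, hlt, hK₀.trans hkp, hout,
      fun h1 ⟨m, hm, b1, b2⟩ => ?_, ?_⟩
    · refine hhit m ?_ b2
      have hmem : m + 1 ∈ dn ++ rm := hLe ▸ mem_Lst.mpr ⟨m, hm, rfl, b1⟩
      cases rm with
      | nil => simpa using hmem
      | cons a rm =>
        exfalso
        simp only [List.length_cons] at hlen
        have hc₁ : (if 0 < σ₁.var 51 then 1 else 0) &&&
            (if σ₁.var 46 < σ₁.var 17 then 1 else 0) = 0 := hc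
        rw [e46, hP₁.Cn, if_pos (show 0 < σ₁.var 51 by
          rw [hch.1]; exact Nat.pos_of_ne_zero hch.2.1), if_pos (by omega)] at hc₁
        simp at hc₁
    · rw [Nat.add_mul]; omega

end EvalP

theorem sEval (h1 : SHv) (h2 : SItem) : SEval := by
  intro E c hB σ t R r u hT
  have hbig := hB.big
  have hlQ := hB.lQ
  have hQ := c.Q_pos
  have hQ1 : c.Q1 ≤ c.Q := Nat.pow_le_pow_right c.t_pos (Nat.sub_le _ _)
  have hQ3 : 3 * c.Q ≤ E.Lim := le_trans (Nat.mul_le_mul_right _ (by omega)) hlQ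
  set K := c.tItem + 3 with hK
  unfold pEval
  simp only [wp_blk_cons, wp_set, wp_blk_nil, Expr.safe, Expr.eval]
  refine ⟨by omega, ?_⟩
  refine wp_forT c.Q1 (fun j σ' t' => ∃ cn, σ'.var 46 = cn ∧ cn ≤ c.cum R r j ∧
      cn ≤ c.Cn ∧ Keeps c E R r u σ σ' ∧ c.Out R r (σ.var 0) (σ'.var 0) ∧
      (c.cum R r c.Q1 ≤ c.Cn → ∀ a < j, c.Hit R r u a → σ'.var 0 = 1) ∧
      t' ≤ t + 2 + j * (c.tHv + 4) + cn * K)
    [0, 22, 34, 35, 36, 37, 38, 39, 41, 42, 43, 44, 45, 46, 47, 48, 49, 51, 52, 57, 62, 64]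
    [3, 13, 14, 15] false
    (by decide) (by decide) (by decide) (by decide) (by simp [hT.acc.ins.pre.par.Q1]) (by omega)
    (by omega)
    ⟨0, by simp, by simp, by simp, fun _ _ h => h, Or.inl (by simp), by simp, by simp⟩ ?_ ?_
  · rintro j σ₁ t₁ hj hF₁ h50 ⟨cn₁, a1, a2, a3, aK, a4, a5, a6⟩
    have hT₁ := hT.keep (hF₁.of_setv (by decide)) (by decide) (by decide) aK
    have hcum : c.cum R r (j + 1) = c.cum R r j + c.qlen R r j := by
      rw [Cx.cum, sum_range_succ, ← Cx.cum]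
    refine (EvalP.pQuery_spec h1 h2 hB hT₁ hj h50 a1 a3).mono ?_
    rintro σ₃ t₃ ⟨cn₃, d1, d2, d3, dK, d4, d5, d6⟩
    refine ⟨cn₃, by simpa using d1, by omega, d3, aK.trans dK, by simpa using a4.trans d4,
      fun g1 a ha hh => ?_, ?_⟩
    · simp only [St.setv_var, Nat.reduceEqDiff, if_false]
      by_cases haj : a = j
      · subst haj
        refine d5 (le_trans ?_ g1) hh
        have m2 : c.cum R r (a + 1) ≤ c.cum R r c.Q1 :=
          sum_le_sum_of_subset (range_subset_range.mpr hj)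
        omega
      · exact d4.one (a5 g1 a (by omega) hh)
    · rw [← hK] at d6; rw [Nat.succ_mul]; omega
  · rintro σ₁ t₁ - - ⟨cn₁, a1, a2, a3, aK, a4, a5, a6⟩
    refine ⟨a4, a5, ?_⟩
    have := Nat.mul_le_mul_right K a3
    unfold Cx.tEval
    rw [← hK]
    omega

namespace EvalP

variable {E : Env} {c : Cx}

theorem pInst_spec (h2 : SZero) (h3 : SAcc) (h4 : SGlob) (h5 : SEval) (hB : Bnd c E) {σ : St}
    {t : ℕ} {R : ℕ → ℕ} {r : ℕ} {u : ℕ × ℕ} (hI : Ins c E R r u σ) :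
    WP E pInst (fun σ' t' => c.Out R r (σ.var 0) (σ'.var 0) ∧
      (c.cum R r c.Q1 ≤ c.Cn → ∀ w < c.Q1, c.Hit R r u w → σ'.var 0 = 1) ∧
      t' ≤ t + c.tInst) σ t := by
  unfold pInst
  simp only [wp_blk_cons, wp_blk_nil]
  refine (h2 hB hI.pre.par).call [33] [12] false (by decide) ?_
  rintro σ₁ t₁ hF₁ ⟨a1, a2⟩
  have hI₁ := hI.frame hF₁ (by decide) (by decide)
  refine (h3 hB hI₁ a1).call [33, 34, 35, 37, 57, 64] [12] false (by decide) ?_
  rintro σ₂ t₂ hF₂ ⟨b1, b2⟩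
  have hA₂ : Acc c E R r u σ₂ := ⟨hI₁.frame hF₂ (by decide) (by decide), b1⟩
  refine (h4 hB hA₂).call
    [33, 34, 35, 36, 37, 38, 39, 41, 44, 45, 57, 62] [13, 14, 15] false (by decide) ?_
  rintro σ₃ t₃ hF₃ ⟨d1, d2⟩
  have hA₃ := hA₂.frame hF₃ (by decide) (by decide)
  refine (h5 hB ⟨hA₃, d1⟩).mono ?_
  rintro σ₅ t₅ ⟨g1, g2, g3⟩
  refine ⟨?_, g2, by unfold Cx.tInst; omega⟩
  rwa [hF₃.var 0 (by decide), hF₂.var 0 (by decide), hF₁.var 0 (by decide)] at g1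

set_option maxRecDepth 8000 in
theorem pInner_spec (h2 : SZero) (h3 : SAcc) (h4 : SGlob) (h5 : SEval) (hB : Bnd c E) {σ : St}
    {t : ℕ} {R : ℕ → ℕ} {r p : ℕ} (hP : Pre c E R r σ) (b5 : σ.bank 5 = c.col p) :
    WP E (forL 61 24 pInst) (fun σ' t' => c.Out R r (σ.var 0) (σ'.var 0) ∧
      (c.cum R r c.Q1 ≤ c.Cn → ∀ v < c.A, ∀ w < c.Q1, c.Hit R r (p, v) w → σ'.var 0 = 1) ∧
      t' ≤ t + (c.A * (c.tInst + 2) + 2)) σ t := by
  have hbig := hB.big
  have hlA := hB.lA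
  have hlE := hB.lE
  refine wp_for c.A c.tInst
    (fun m σ' => c.Out R r (σ.var 0) (σ'.var 0) ∧
      (c.cum R r c.Q1 ≤ c.Cn → ∀ v < m, ∀ w < c.Q1, c.Hit R r (p, v) w → σ'.var 0 = 1))
    [0, 22, 33, 34, 35, 36, 37, 38, 39, 41, 42, 43, 44, 45, 46, 47, 48, 49, 50, 51, 52, 57, 62, 64]
    [3, 12, 13, 14, 15]
    false (by decide) (by decide) (by decide) (by decide) hP.par.A (by omega) (by omega)
    ⟨Or.inl (by simp), by simp⟩ ?_ fun σ' t' _ hI ht => ⟨hI.1, hI.2, by omega⟩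
  intro v σ₁ t₁ hv hF₁ h61 ⟨a1, a2⟩
  have hI₁ : Ins c E R r (p, v) σ₁ :=
    ⟨hP.frame hF₁ (by decide) (by decide), (hF₁.bank 5 (by decide)).trans b5, h61, hv⟩
  refine (EvalP.pInst_spec h2 h3 h4 h5 hB hI₁).mono ?_
  rintro σ₂ t₂ ⟨b1, b2, b3⟩
  refine ⟨⟨by simpa using a1.trans b1, fun h v' hv' w hw hh => ?_⟩, b3⟩
  simp only [St.setv_var, Nat.reduceEqDiff, if_false]
  by_cases g1 : v' = v
  · subst g1; exact b2 h w hw hh
  · exact b1.one (a2 h v' (by omega) w hw hh)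

end EvalP

set_option maxRecDepth 8000 in
theorem sLoop (h1 : SCol) (h2 : SZero) (h3 : SAcc) (h4 : SGlob) (h5 : SEval) : SLoop := by
  intro E c hB σ t R r hP h5z
  have hbig := hB.big
  have hlA := hB.lA
  have hlE := hB.lE
  unfold pLoop
  refine wp_for c.A ((c.n * 6 + 3) + (c.A * (c.tInst + 2) + 2))
    (fun m σ' => (∀ d, ¬ (1 ≤ d ∧ d ≤ c.n) → σ'.bank 5 d = 0) ∧
      c.Out R r (σ.var 0) (σ'.var 0) ∧
      (c.cum R r c.Q1 ≤ c.Cn → ∀ u : ℕ × ℕ, u.1 < m → u.2 < c.A → ∀ w < c.Q1,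
        c.Hit R r u w → σ'.var 0 = 1))
    [0, 22, 33, 34, 35, 36, 37, 38, 39, 41, 42, 43, 44, 45, 46, 47, 48, 49, 50, 51, 52, 57, 61,
      62, 63, 64]
    [3, 5, 12, 13, 14, 15]
    false (by decide) (by decide) (by decide) (by decide) hP.par.A (by omega) (by omega)
    ⟨fun d _ => h5z d, Or.inl (by simp), by simp⟩ ?_
    fun σ' t' _ hI ht => ⟨hI.2.1, hI.2.2, by unfold Cx.tLoop; omega⟩
  intro p σ₁ t₁ hp hF₁ h40 ⟨a0, a1, a2⟩
  have hP₁ := hP.frame hF₁ (by decide) (by decide)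
  simp only [wp_blk_cons, wp_blk_nil]
  refine (h1 hB hP₁.par h40 hp a0).call [33, 63] [5] false (by decide) ?_
  rintro σ₂ t₂ hF₂ ⟨b1, b2⟩
  have hP₂ := hP₁.frame hF₂ (by decide) (by decide)
  refine (EvalP.pInner_spec h2 h3 h4 h5 hB hP₂ b1).call
    [0, 22, 33, 34, 35, 36, 37, 38, 39, 41, 42, 43, 44, 45, 46, 47, 48, 49, 50, 51, 52, 57, 61,
      62, 64] [3, 12, 13, 14, 15] false (by decide) ?_
  rintro σ₃ t₃ hF₃ ⟨d1, d2, d3⟩
  rw [hF₂.var 0 (by decide)] at d1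
  refine ⟨⟨fun d hd => ?_, by simpa using a1.trans d1, fun h u hu hu' w hw hh => ?_⟩, by omega⟩
  · rw [St.setv_bank, hF₃.bank 5 (by decide), b1, Cx.col, if_neg hd]
  · simp only [St.setv_var, Nat.reduceEqDiff, if_false]
    by_cases g1 : u.1 = p
    · subst g1; exact d2 h u.2 hu' w hw hh
    · exact d1.one (a2 h u (by omega) hu' w hw hh)

end Pool.Agent.P.MP_8f87b2_lc.KS
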