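import Pool.Agent.P.MP_8f87b2_lc.KS.Base
import Pool.Agent.P.MP_8f87b2_lc.S2.Sets

/-!
# A large family of events
-/

namespace Pool.Agent.P.MP_8f87b2_lc.KS

open Finset

namespace EvsP

section General

variable {ι K : Type} [Fintype ι] [DecidableEq ι] [Fintype K] [DecidableEq K]

/-- the functions with prescribed fibre sizes -/
def Ty (ι : Type) [Fintype ι] [DecidableEq ι] (mu : K → ℕ) : Finset (ι → K) :=
  univ.filter fun p => ∀ y, (univ.filter fun a => p a = y).card = mu y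

theorem mem_Ty {mu : K → ℕ} {p : ι → K} :
    p ∈ Ty ι mu ↔ ∀ y, Fintype.card {a // p a = y} = mu y := by
  simp only [Ty, mem_filter, mem_univ, true_and, Fintype.card_subtype]

theorem prod_Ty {mu : K → ℕ} {p : ι → K} (hp : p ∈ Ty ι mu) (g : K → ℕ) :
    ∏ a, g (p a) = ∏ y, g y ^ mu y := by
  rw [← prod_fiberwise' univ p g]
  refine prod_congr rfl fun y _ => ?_
  rw [prod_const, (mem_filter.mp hp).2 y]

theorem sum_Ty {mu : K → ℕ} {p : ι → K} (hp : p ∈ Ty ι mu) (g : K → ℕ) :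
    ∑ a, g (p a) = ∑ y, mu y * g y := by
  rw [← sum_fiberwise' univ p g]
  refine sum_congr rfl fun y _ => ?_
  rw [sum_const, (mem_filter.mp hp).2 y, smul_eq_mul]

theorem comp_mem {mu : K → ℕ} {p : ι → K} (hp : p ∈ Ty ι mu) (σ : Equiv.Perm ι) :
    p ∘ σ ∈ Ty ι mu := by
  rw [mem_Ty] at hp ⊢
  intro y
  rw [← hp y]
  exact Fintype.card_congr (σ.subtypeEquiv fun _ => Iff.rfl)

theorem swap_mem {mu : K → ℕ} {p : ι → K} (hp : p ∈ Ty ι mu) (sw : K ≃ K)
    (h : ∀ y, mu (sw y) = mu y) : sw ∘ p ∈ Ty ι mu := by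
  rw [mem_Ty] at hp ⊢
  intro y
  rw [← sw.apply_symm_apply y, h, ← hp]
  exact Fintype.card_congr (Equiv.subtypeEquivRight fun _ => sw.injective.eq_iff)

theorem exists_perm {mu : K → ℕ} {p p' : ι → K} (hp : p ∈ Ty ι mu) (hp' : p' ∈ Ty ι mu) :
    ∃ σ : Equiv.Perm ι, p' = p ∘ σ := by
  rw [mem_Ty] at hp hp'
  let e : ∀ c, {a // p' a = c} ≃ {a // p a = c} := fun c =>
    Fintype.equivOfCardEq ((hp' c).trans (hp c).symm)
  exact ⟨Equiv.ofFiberEquiv e, funext fun a => (Equiv.ofFiberEquiv_map e a).symm⟩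

theorem exists_mem {mu : K → ℕ} (h : ∑ y, mu y = Fintype.card ι) : ∃ p, p ∈ Ty ι mu := by
  let e : ι ≃ Σ y : K, Fin (mu y) := Fintype.equivOfCardEq (by simp [h])
  refine ⟨fun a => (e a).1, mem_Ty.mpr fun y => ?_⟩
  rw [Fintype.card_congr (e.subtypeEquiv (q := fun z => z.1 = y) fun _ => Iff.rfl),
    Fintype.card_congr (Equiv.sigmaSubtype y), Fintype.card_fin]

theorem fact_le {mu : K → ℕ} (h : ∑ y, mu y = Fintype.card ι) :
    (Fintype.card ι).factorial ≤ (∏ y, (mu y).factorial) * (Ty ι mu).card := by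
  obtain ⟨p, hp⟩ := exists_mem h
  rw [← Fintype.card_perm, ← card_univ]
  refine card_le_mul_card_image_of_maps_to (f := fun σ : Equiv.Perm ι => p ∘ σ)
    (fun σ _ => comp_mem hp σ) _ fun p' hp' => ?_
  obtain ⟨τ, rfl⟩ := exists_perm hp hp'
  have h1 := DomMulAct.stabilizer_card p
  rw [prod_congr rfl fun y _ => congrArg Nat.factorial (mem_Ty.mp hp y), Fintype.card_subtype] at h1
  rw [← h1]
  refine card_le_card_of_injOn (fun σ => σ * τ⁻¹) (fun σ hσ => ?_) fun _ _ _ _ e => ?_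
  · simp only [coe_filter, mem_univ, true_and, Set.mem_setOf_eq] at hσ ⊢
    funext a
    have := congrFun hσ (τ⁻¹ a)
    simpa using this
  · exact mul_right_cancel e

theorem fib_sq {mu : K → ℕ} (x y : K → ℕ) (inj : ∀ z z', x z = x z' → y z = y z' → z = z')
    (sw : K ≃ K) (h : ∀ z, mu (sw z) = mu z) (hx : ∀ z, x (sw z) = y z) {p : ι → K}
    (hp : p ∈ Ty ι mu) :
    ((Ty ι mu).filter fun r => x ∘ r = x ∘ p).card ^ 2 ≤ (Ty ι mu).card := by
  have h1 : ((Ty ι mu).filter fun r => x ∘ r = x ∘ p).card ≤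
      ((Ty ι mu).image fun r => x ∘ r).card := by
    refine card_le_card_of_injOn (fun r => y ∘ r) (fun r hr => ?_) fun r hr r' hr' e => ?_
    · exact mem_coe.mpr (mem_image.mpr ⟨sw ∘ r, swap_mem (mem_filter.mp hr).1 sw h,
        funext fun a => hx _⟩)
    · funext a
      exact inj _ _ (congrFun ((mem_filter.mp hr).2.trans (mem_filter.mp hr').2.symm) a)
        (congrFun e a)
  refine le_trans ?_ (mul_card_image_le_card (f := fun r => x ∘ r) (Ty ι mu)
    ((Ty ι mu).filter fun r => x ∘ r = x ∘ p).card fun u hu => ?_)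
  · rw [sq]; exact Nat.mul_le_mul_left _ h1
  · obtain ⟨p', hp', rfl⟩ := mem_image.mp hu
    obtain ⟨σ, rfl⟩ := exists_perm hp hp'
    refine card_le_card_of_injOn (fun r => r ∘ σ) (fun r hr => ?_) fun r _ r' _ e => ?_
    · refine mem_coe.mpr (mem_filter.mpr ⟨comp_mem (mem_filter.mp hr).1 σ, funext fun a => ?_⟩)
      exact congrFun (mem_filter.mp hr).2 (σ a)
    · funext a
      have := congrFun e (σ.symm a)
      simpa using this

theorem pow_le (mu : K → ℕ) (s : Finset K) :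
    (∑ y ∈ s, mu y) ^ (∑ y ∈ s, mu y) * ∏ y ∈ s, (mu y).factorial ≤
      (∑ y ∈ s, mu y).factorial * (∏ y ∈ s, mu y ^ mu y) * (∑ y ∈ s, mu y + 1) ^ s.card := by
  induction s using Finset.induction_on with
  | empty => simp
  | insert a s ha ih =>
    rw [sum_insert ha, prod_insert ha, prod_insert ha, card_insert_of_notMem ha]
    generalize ∑ y ∈ s, mu y = n at ih ⊢
    generalize ∏ y ∈ s, (mu y).factorial = P at ih ⊢
    generalize ∏ y ∈ s, mu y ^ mu y = Q at ih ⊢
    generalize mu a = b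
    have h1 := S2.le_choose_mul b n 1
    simp only [mul_one] at h1
    have h2 := Nat.add_choose_mul_factorial_mul_factorial n b
    rw [add_comm n b] at h2
    have h3 : (n + 1) ^ s.card ≤ (b + n + 1) ^ s.card := Nat.pow_le_pow_left (by omega) _
    calc (b + n) ^ (b + n) * (b.factorial * P)
        ≤ (b + n + 1) * ((b + n).choose b * (b ^ b * n ^ n)) * (b.factorial * P) :=
          Nat.mul_le_mul_right _ h1
      _ = (b + n + 1) * (b + n).choose b * b ^ b * b.factorial * (n ^ n * P) := by ring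
      _ ≤ (b + n + 1) * (b + n).choose b * b ^ b * b.factorial *
            (n.factorial * Q * (b + n + 1) ^ s.card) :=
          Nat.mul_le_mul_left _ (ih.trans (Nat.mul_le_mul_left _ h3))
      _ = _ := by rw [← h2]; ring

theorem pow_le_card {mu : K → ℕ} (h : ∑ y, mu y = Fintype.card ι) :
    Fintype.card ι ^ Fintype.card ι ≤
      (∏ y, mu y ^ mu y) * ((Ty ι mu).card * (Fintype.card ι + 1) ^ Fintype.card K) := by
  have h1 := pow_le mu univ
  rw [h, card_univ] at h1
  refine Nat.le_of_mul_le_mul_right (c := ∏ y, (mu y).factorial) (h1.trans ?_)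
    (prod_pos fun y _ => Nat.factorial_pos _)
  refine (Nat.mul_le_mul_right _ (Nat.mul_le_mul_right _ (fact_le h))).trans (le_of_eq ?_)
  ring

end General

/-- the number with the given digits -/
def cd (t : ℕ) {q : ℕ} (u : Fin q → ℕ) : ℕ := enc t q fun a => if h : a < q then u ⟨a, h⟩ else 0

theorem cd_lt {t q : ℕ} {u : Fin q → ℕ} (hu : ∀ a, u a < t) : cd t u < t ^ q :=
  enc_lt fun a ha => by rw [dif_pos ha]; exact hu _

theorem dg_cd {t q : ℕ} {u : Fin q → ℕ} (hu : ∀ a, u a < t) {a : ℕ} (ha : a < q) :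
    dg t a (cd t u) = u ⟨a, ha⟩ := by
  rw [cd, dg_enc (fun a ha => by rw [dif_pos ha]; exact hu _) ha, dif_pos ha]

theorem cd_inj {t q : ℕ} {u v : Fin q → ℕ} (hu : ∀ a, u a < t) (hv : ∀ a, v a < t)
    (h : cd t u = cd t v) : u = v :=
  funext fun a => by rw [← dg_cd hu a.2, ← dg_cd hv a.2, h]

theorem ds_cd {t q : ℕ} {u : Fin q → ℕ} (hu : ∀ a, u a < t) : ds t q (cd t u) = ∑ a, u a := by
  rw [ds, sum_range]
  exact sum_congr rfl fun a _ => dg_cd hu a.2

theorem card_le {t q h D : ℕ} (ht : 0 < t) {Ev : Finset (ℕ × ℕ)} (H : EvOK t q h D Ev) :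
    Ev.card ≤ D * t ^ q := by
  rw [← card_range (t ^ q)]
  refine card_le_mul_card_image_of_maps_to (f := fun p => p.1 + p.2)
    (fun p hp => mem_range.mpr (add_nc (H.lt1 p hp) (H.lt2 p hp) (H.tri p hp)).1) _ fun e _ => ?_
  rcases (Ev.filter fun p => p.1 + p.2 = e).eq_empty_or_nonempty with h0 | ⟨p, hp0⟩
  · rw [h0]; exact Nat.zero_le _
  obtain ⟨hp, rfl⟩ := mem_filter.mp hp0
  refine le_trans ?_ (H.low p hp)
  rw [← prod_congr rfl fun a ha => congrArg (· + 1)
    ((add_nc (H.lt1 p hp) (H.lt2 p hp) (H.tri p hp)).2 a (mem_range.mp ha)), ← card_below ht]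
  refine card_le_card_of_injOn (fun r => r.1) (fun r hr => ?_) fun r hr r' hr' e => ?_
  · obtain ⟨hr, e⟩ := mem_filter.mp hr
    refine mem_coe.mpr (mem_filter.mpr ⟨mem_range.mpr (H.lt1 r hr), fun a ha => ?_⟩)
    rw [← e, (add_nc (H.lt1 r hr) (H.lt2 r hr) (H.tri r hr)).2 a ha]
    exact Nat.le_add_right _ _
  · have e1 := (mem_filter.mp hr).2
    have e2 := (mem_filter.mp hr').2
    have e3 : r.1 = r'.1 := e
    exact Prod.ext e3 (by omega)

/-- the points of the triangle, by antidiagonals -/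
abbrev Tr (t : ℕ) : Type := Σ k : Fin t, Fin (k + 1)

/-- first coordinate -/
def cx {t : ℕ} (z : Tr t) : ℕ := z.2

/-- second coordinate -/
def cy {t : ℕ} (z : Tr t) : ℕ := z.1 - z.2

/-- the reflection -/
def sw (t : ℕ) : Tr t ≃ Tr t := Equiv.sigmaCongrRight fun _ => Fin.revPerm

theorem cx_add {t : ℕ} (z : Tr t) : cx z + cy z = z.1 := by
  have := z.2.2
  unfold cx cy
  omega

theorem cx_lt {t : ℕ} (z : Tr t) : cx z < t := by have := cx_add z; have := z.1.2; omega

theorem cy_lt {t : ℕ} (z : Tr t) : cy z < t := by have := cx_add z; have := z.1.2; omega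

theorem cx_sw {t : ℕ} (z : Tr t) : cx (sw t z) = cy z := by
  obtain ⟨k, j⟩ := z
  show ((Fin.rev j : Fin (k + 1)) : ℕ) = k - j
  rw [Fin.val_rev, Nat.add_sub_add_right]

theorem cy_sw {t : ℕ} (z : Tr t) : cy (sw t z) = cx z := by
  have h1 := cx_add z
  have h2 := cx_add (sw t z)
  have h3 := cx_sw z
  have h4 : (sw t z).1 = z.1 := rfl
  rw [h4] at h2
  omega

theorem c_inj {t : ℕ} (z z' : Tr t) (h1 : cx z = cx z') (h2 : cy z = cy z') : z = z' := by
  have h3 : z.1 = z'.1 := Fin.ext (by rw [← cx_add, ← cx_add, h1, h2])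
  obtain ⟨k, j⟩ := z
  obtain ⟨k', j'⟩ := z'
  obtain rfl : k = k' := h3
  obtain rfl : j = j' := Fin.ext h1
  rfl

theorem card_Tr (t : ℕ) : Fintype.card (Tr t) ≤ t ^ 2 := by
  rw [Fintype.card_sigma]
  refine (sum_le_card_nsmul _ _ t fun k _ => ?_).trans (by simp [sq])
  rw [Fintype.card_fin]
  exact k.2

/-- the multiplicities -/
def mu (t m : ℕ) (z : Tr t) : ℕ := m / (z.1 + 1)

theorem mu_mul {t s : ℕ} (k : Fin t) : (k + 1) * (t.factorial * s / (k + 1)) = t.factorial * s :=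
  Nat.mul_div_cancel' ((Nat.dvd_factorial (Nat.succ_pos _) k.2).mul_right _)

theorem sum_mu {t s : ℕ} (g : ℕ → ℕ) :
    ∑ z : Tr t, mu t (t.factorial * s) z * g z.1 = t.factorial * s * ∑ k ∈ range t, g k := by
  rw [Fintype.sum_sigma, sum_range, mul_sum]
  refine sum_congr rfl fun k _ => ?_
  simp only [mu, sum_const, card_univ, Fintype.card_fin, smul_eq_mul]
  rw [← mul_assoc, mu_mul]

theorem prod_mu {t s : ℕ} :
    ∏ z : Tr t, ((z.1 : ℕ) + 1) ^ mu t (t.factorial * s) z = t.factorial ^ (t.factorial * s) := by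
  rw [Fintype.prod_sigma]
  have h : ∀ k : Fin t, ∏ j : Fin (k + 1), ((k : ℕ) + 1) ^ mu t (t.factorial * s) ⟨k, j⟩ =
      ((k : ℕ) + 1) ^ (t.factorial * s) := fun k => by
    simp only [mu, prod_const, card_univ, Fintype.card_fin]
    rw [← pow_mul, mul_comm _ ((k : ℕ) + 1), mu_mul]
  rw [prod_congr rfl fun k _ => h k, prod_pow, ← prod_range fun k => k + 1,
    prod_range_add_one_eq_factorial]

end EvsP

open EvsP in
theorem exists_Ev {t s q h : ℕ} (ht : 0 < t) (hs : 0 < s) (hq : q = t * t.factorial * s)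
    (hh : 4 * h = q * (t - 1)) :
    ∃ Ev : Finset (ℕ × ℕ), EvOK t q h (t.factorial ^ (t.factorial * s)) Ev ∧
      (t ^ t * t.factorial) ^ (t.factorial * s) ≤ Ev.card * (q + 1) ^ (t ^ 2) ∧
      Ev.card ≤ (t ^ t * t.factorial) ^ (t.factorial * s) := by
  have hq' : q = t * (t.factorial * s) := by rw [hq, mul_assoc]
  have hm : 0 < t.factorial * s := Nat.mul_pos t.factorial_pos hs
  have h0 : ∑ z, mu t (t.factorial * s) z = Fintype.card (Fin q) := by
    have := sum_mu (t := t) (s := s) fun _ => 1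
    simp only [mul_one, sum_const, card_range, smul_eq_mul] at this
    rw [this, Fintype.card_fin, hq', mul_comm]
  have h1 : ∑ z, mu t (t.factorial * s) z * cx z = ∑ z, mu t (t.factorial * s) z * cy z := by
    rw [← (sw t).sum_comp]
    exact sum_congr rfl fun z _ => by rw [cx_sw]; rfl
  have h2 : ∑ z, mu t (t.factorial * s) z * cy z = h := by
    have e1 := sum_mu (t := t) (s := s) fun k => k
    have e2 := sum_range_id_mul_two t
    have e3 : ∑ z, mu t (t.factorial * s) z * cx z + ∑ z, mu t (t.factorial * s) z * cy z =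
        ∑ z : Tr t, mu t (t.factorial * s) z * z.1 := by
      rw [← sum_add_distrib]
      exact sum_congr rfl fun z _ => by rw [← mul_add, cx_add]
    have e4 : t.factorial * s * (∑ k ∈ range t, k) * 2 = q * (t - 1) := by
      rw [mul_assoc, e2, hq']; ring
    omega
  let F : (Fin q → Tr t) → ℕ × ℕ := fun p => (cd t (cx ∘ p), cd t (cy ∘ p))
  have hx : ∀ (p : Fin q → Tr t) a, (cx ∘ p) a < t := fun p a => cx_lt _
  have hy : ∀ (p : Fin q → Tr t) a, (cy ∘ p) a < t := fun p a => cy_lt _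
  have hF : Function.Injective F := fun p p' e => funext fun a =>
    c_inj _ _ (congrFun (cd_inj (hx p) (hx p') (congrArg Prod.fst e)) a)
      (congrFun (cd_inj (hy p) (hy p') (congrArg Prod.snd e)) a)
  have hc := card_image_of_injective (Ty (Fin q) (mu t (t.factorial * s))) hF
  have hd : ∀ (p : Fin q → Tr t) a (ha : a < q),
      dg t a (F p).1 + dg t a (F p).2 = (p ⟨a, ha⟩).1 := fun p a ha => by
    rw [dg_cd (hx p) ha, dg_cd (hy p) ha]; exact cx_add _
  have H : EvOK t q h (t.factorial ^ (t.factorial * s))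
      ((Ty (Fin q) (mu t (t.factorial * s))).image F) := by
    refine ⟨?_, ?_, ?_, ?_, ?_, ?_, ?_, ?_⟩ <;> intro p0 hp0 <;>
      obtain ⟨p, hp, rfl⟩ := mem_image.mp hp0
    · exact cd_lt (hx p)
    · exact cd_lt (hy p)
    · intro a ha
      rw [hd p a ha]
      exact (p _).1.2
    · exact (ds_cd (hx p)).trans ((sum_Ty hp cx).trans (h1.trans h2))
    · exact (ds_cd (hy p)).trans ((sum_Ty hp cy).trans h2)
    · rw [prod_range, prod_congr rfl fun (a : Fin q) _ => congrArg (· + 1) (hd p a a.2)]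
      exact ((prod_Ty hp fun z => z.1 + 1).trans prod_mu).le
    · rw [filter_image, card_image_of_injective _ hF, hc]
      refine le_trans (Nat.pow_le_pow_left (card_le_card fun r hr => ?_) 2)
        (fib_sq cx cy c_inj (sw t) (fun _ => rfl) cx_sw hp)
      exact mem_filter.mpr ⟨(mem_filter.mp hr).1, cd_inj (hx r) (hx p) (mem_filter.mp hr).2⟩
    · rw [filter_image, card_image_of_injective _ hF, hc]
      refine le_trans (Nat.pow_le_pow_left (card_le_card fun r hr => ?_) 2)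
        (fib_sq cy cx (fun z z' a b => c_inj z z' b a) (sw t) (fun _ => rfl) cy_sw hp)
      exact mem_filter.mpr ⟨(mem_filter.mp hr).1, cd_inj (hy r) (hy p) (mem_filter.mp hr).2⟩
  have hT : (t ^ t * t.factorial) ^ (t.factorial * s) =
      t.factorial ^ (t.factorial * s) * t ^ q := by
    rw [mul_pow, ← pow_mul, ← hq', mul_comm]
  refine ⟨_, H, ?_, hT ▸ card_le ht H⟩
  have h3 := pow_le_card h0
  rw [Fintype.card_fin] at h0 h3
  have h4 : q ^ q = (∏ z, mu t (t.factorial * s) z ^ mu t (t.factorial * s) z) *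
      (t.factorial ^ (t.factorial * s) * t ^ q) := by
    conv_lhs => rw [← congrArg (q ^ ·) h0, ← prod_pow_eq_pow_sum]
    rw [← congrArg (t ^ ·) h0, ← prod_pow_eq_pow_sum, ← prod_mu, ← prod_mul_distrib,
      ← prod_mul_distrib]
    refine prod_congr rfl fun z _ => ?_
    rw [← mul_pow, ← mul_pow, hq']
    congr 1
    conv_lhs => rw [← mu_mul (s := s) z.1]
    rw [mu]; ring
  rw [h4] at h3
  rw [hT, hc]
  refine (Nat.le_of_mul_le_mul_left h3 (prod_pos fun z _ => ?_)).trans
    (Nat.mul_le_mul_left _ (Nat.pow_le_pow_right (Nat.succ_pos _) (card_Tr t)))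
  rcases Nat.eq_zero_or_pos (mu t (t.factorial * s) z) with e | e
  · rw [e]; exact Nat.one_pos
  · exact pow_pos e _

end Pool.Agent.P.MP_8f87b2_lc.KS
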