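import Pool.Agent.P.MP_8f87b2_lc.KS.Spec

/-!
# Listing the numbers digitwise below a given one
-/

namespace Pool.Agent.P.MP_8f87b2_lc.KS

open Finset

namespace GenP

section Count

variable {P : ℕ → Prop} [DecidablePred P]

theorem count_eq {a b : ℕ} (hab : a ≤ b) (h : ∀ z, a ≤ z → z < b → ¬ P z) :
    Nat.count P b = Nat.count P a := by
  refine le_antisymm (not_lt.mp fun hlt => ?_) (Nat.count_monotone P hab)
  obtain ⟨z, hz, hp⟩ := Nat.exists_of_count_lt_count hlt
  exact h z hz.1 hz.2 hp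

theorem step {T U B : ℕ} (hsub : ∀ z, T ≤ z → z < U → P z → P (z - T))
    (h : Nat.count P B < Nat.count P (min (T + B) U)) {y : ℕ}
    (hy : y = Nat.nth P (Nat.count P B)) :
    P y ∧ y < U ∧ Nat.count P (y + 1) = Nat.count P B + 1 ∧
      Nat.count P (min (T + y) U) = Nat.count P (min (T + B) U) := by
  have hf : ∀ hf : (Set.ofPred P).Finite, Nat.count P B < hf.toFinset.card :=
    fun hf => h.trans_le (Nat.count_le_card hf _)
  have h1 : P y := hy ▸ Nat.nth_mem _ hf
  have h2 : Nat.count P y = Nat.count P B := hy ▸ Nat.count_nth hf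
  have h3 : y < min (T + B) U := hy ▸ Nat.nth_lt_of_lt_count h
  have h4 : B ≤ y := not_lt.mp fun hlt => (Nat.count_strict_mono h1 hlt).ne h2
  refine ⟨h1, by omega, by rw [Nat.count_succ, if_pos h1, h2], count_eq (by omega) ?_⟩
  intro z hz1 hz2 hz
  have h5 := Nat.count_strict_mono (hsub z (by omega) (by omega) hz) (show z - T < y by omega)
  have h6 := Nat.count_monotone P (show B ≤ z - T by omega)
  omega

theorem exit {T U B : ℕ} (hT : 0 < T) (hsub : ∀ z, T ≤ z → z < U → P z → P (z - T)) (hB : B ≤ U)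
    (h : Nat.count P (min (T + B) U) ≤ Nat.count P B) :
    Nat.count P (min (T + B) U) = Nat.count P U := by
  have h1 : ∀ z, B ≤ z → z < U → ¬ P z := by
    intro z
    induction z using Nat.strong_induction_on with
    | _ z ih =>
      intro hz1 hz2 hz
      by_cases h2 : z < T + B
      · have h3 := Nat.count_strict_mono hz (show z < min (T + B) U by omega)
        have h4 := Nat.count_monotone P hz1
        omega
      · exact ih (z - T) (by omega) (by omega) (by omega) (hsub z (by omega) hz2 hz)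
  exact (count_eq (by omega) fun z hz1 hz2 => h1 z (by omega) hz2).symm

end Count

theorem dg_pos {t a z : ℕ} (h1 : t ^ a ≤ z) (h2 : z < t ^ (a + 1)) (ht : 0 < t) :
    1 ≤ dg t a z := by
  rw [dg, Nat.mod_eq_of_lt (Nat.div_lt_of_lt_mul (by rwa [pow_succ] at h2))]
  exact Nat.div_pos h1 (by positivity)

theorem Pl_sub {t q e mx a : ℕ} (ht : 0 < t) (ha : a < q) (z : ℕ) (h1 : t ^ a ≤ z)
    (h2 : z < t ^ (a + 1)) (h : Pl t q e mx z) : Pl t q e mx (z - t ^ a) := by
  have h3 := dg_pos h1 h2 ht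
  have h4 := ds_sub_pow ht ha h3
  refine ⟨(Nat.sub_le _ _).trans_lt h.1, fun i hi => ?_, by have := h.2.2; omega⟩
  have h5 := h.2.1 i hi
  rw [dg_sub_pow ht h3]
  split_ifs with e
  · subst e; omega
  · exact h5

theorem Pl_add {t q e mx a y : ℕ} (ht : 0 < t) (ha : a < q) (hy : y < t ^ (a + 1))
    (h : Pl t q e mx y) (h1 : dg t a y < dg t a e) (h2 : ds t q y < mx) :
    t ^ a + y < t ^ (a + 1) ∧ Pl t q e mx (t ^ a + y) ∧ ds t q (t ^ a + y) = ds t q y + 1 := by
  have h3 : dg t a y + 1 < t := by have := dg_lt ht a e; omega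
  have h4 := ds_add_pow ha h3
  rw [add_comm (t ^ a)]
  refine ⟨add_pow_lt (Nat.lt_succ_self a) hy h3, ⟨add_pow_lt ha h.1 h3, fun i hi => ?_, by omega⟩,
    h4⟩
  rw [dg_add_pow h3]
  split_ifs with e
  · subst e; omega
  · exact h.2.1 i hi

theorem of_Pl_add {t q e mx a y : ℕ} (ht : 0 < t) (ha : a < q) (hy : t ^ a + y < t ^ (a + 1))
    (h : Pl t q e mx (t ^ a + y)) : dg t a y < dg t a e ∧ ds t q y < mx := by
  have h3 := dg_pos (Nat.le_add_right _ y) hy ht
  have h4 := ds_sub_pow ht ha h3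
  have h5 := dg_sub_pow ht h3 a
  rw [Nat.add_sub_cancel_left] at h4 h5
  rw [if_pos rfl] at h5
  have := h.2.1 a ha
  have := h.2.2
  omega

variable {E : Env} {c : Cx}

theorem snoc {b len y : ℕ} {P : ℕ → Prop} {σ σ' : St} (h : LstAt c b P len σ)
    (hy : Nat.nth P len = y)
    (e : σ'.bank b = Function.update (Function.update (σ.bank b) (len + len) y)
      (len + len + 1) (ds c.t c.q y)) : LstAt c b P (len + 1) σ' := by
  intro i hi
  rw [e]
  rcases Nat.lt_succ_iff_lt_or_eq.1 hi with h1 | rfl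
  · rw [Function.update_of_ne (by omega), Function.update_of_ne (by omega),
      Function.update_of_ne (by omega), Function.update_of_ne (by omega)]
    exact h i h1
  · rw [two_mul, Function.update_self, Function.update_of_ne (by omega), Function.update_self, hy]
    exact ⟨rfl, rfl⟩

theorem genIn (hB : Bnd c E) {b x m len : ℕ} (hx : x ∉ [len, 45, 47, 48])
    (hm : m ∉ [len, 45, 47, 48]) (hlen : len ∉ 45 :: 47 :: 48 :: parVars) {σ : St} {t : ℕ}
    (hP : Par c σ) {e mx a : ℕ} (ha : a < c.q) (vx : σ.var x = e) (vm : σ.var m = mx)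
    (v45 : σ.var 45 = a) (h1 : σ.var len = Nat.count (Pl c.t c.q e mx) (c.t ^ a))
    (h2 : LstAt c b (Pl c.t c.q e mx) (Nat.count (Pl c.t c.q e mx) (c.t ^ a)) σ) :
    WP E (pGenIn b x m len) (fun σ' t' =>
      σ'.var len = Nat.count (Pl c.t c.q e mx) (c.t ^ (a + 1)) ∧
      LstAt c b (Pl c.t c.q e mx) (Nat.count (Pl c.t c.q e mx) (c.t ^ (a + 1))) σ' ∧
      t' ≤ t + (Nat.count (Pl c.t c.q e mx) c.Q * 7 + 2)) σ t := by
  have hbig := hB.big
  have hQ := c.Q_pos
  have hl : 3 * c.Q ≤ E.Lim := le_trans (Nat.mul_le_mul_right _ (by omega)) hB.lQ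
  have hlA := hB.lA
  have hτ : c.τ * a ≤ c.A := (Nat.mul_le_mul_left _ ha.le).trans hB.τA
  have hU : c.t ^ (a + 1) ≤ c.Q := Nat.pow_le_pow_right c.t_pos ha
  have hTU : c.t ^ a ≤ c.t ^ (a + 1) := Nat.pow_le_pow_right c.t_pos (Nat.le_succ a)
  have hsub := Pl_sub (e := e) (mx := mx) c.t_pos ha
  have hlen' : len ∉ parVars := fun h => hlen (by simp [h])
  simp only [List.mem_cons, List.not_mem_nil, or_false, not_or] at hx hm hlen
  unfold pGenIn
  simp only [wp_blk_cons, wp_set, wp_blk_nil, Expr.safe, Expr.eval]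
  refine ⟨by omega, wp_while (fun σ' t' => ∃ B ≤ c.t ^ (a + 1),
      σ'.var 48 = Nat.count (Pl c.t c.q e mx) B ∧
      σ'.var len = Nat.count (Pl c.t c.q e mx) (min (c.t ^ a + B) (c.t ^ (a + 1))) ∧
      LstAt c b (Pl c.t c.q e mx)
        (Nat.count (Pl c.t c.q e mx) (min (c.t ^ a + B) (c.t ^ (a + 1)))) σ' ∧
      t' ≤ t + 1 + Nat.count (Pl c.t c.q e mx) B * 7) (fun σ' => c.Q - σ'.var 48)
    [len, 47, 48] [b] false (by simp [Stmt.Within, blk, Stmt.wv, Stmt.wb, Stmt.rd])
    ⟨0, Nat.zero_le _, by simp, by simp [hlen.2.2.1, h1, min_eq_left hTU],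
      by rw [add_zero, min_eq_left hTU]; exact h2, by simp⟩ ?_⟩
  rintro σ' t' hF ⟨B, hBU, g1, g2, g3, g4⟩
  have hF' : Frame [len, 47, 48] [b] false σ σ' := hF.of_setv (by simp)
  have hP' : Par c σ' := hP.frame hF' fun y hy hy' => by
    simp only [List.mem_cons, List.not_mem_nil, or_false] at hy'
    rcases hy' with rfl | rfl | rfl
    exacts [hlen' hy, by revert hy; decide, by revert hy; decide]
  have wx : σ'.var x = e := by rw [hF'.var x (by simp [hx]), vx]
  have wm : σ'.var m = mx := by rw [hF'.var m (by simp [hm]), vm]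
  have w45 : σ'.var 45 = a := by rw [hF'.var 45 (by simp [Ne.symm hlen.1]), v45]
  refine ⟨by simp [Expr.safe, BOp.safe], fun h => ?_, fun h => ?_⟩
  · have h3 : Nat.count (Pl c.t c.q e mx) B <
        Nat.count (Pl c.t c.q e mx) (min (c.t ^ a + B) (c.t ^ (a + 1))) := by
      simpa [Expr.eval, BOp.eval, g1, g2] using h
    have h4 : Nat.count (Pl c.t c.q e mx) (min (c.t ^ a + B) (c.t ^ (a + 1))) ≤ c.Q :=
      (Nat.count_le _).trans ((min_le_right _ _).trans hU)
    have hg := g3 _ h3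
    rw [two_mul] at hg
    obtain ⟨k1, k2, k3, k4⟩ := step hsub h3 rfl
    generalize Nat.nth (Pl c.t c.q e mx) (Nat.count (Pl c.t c.q e mx) B) = y at hg k1 k2 k3 k4
    generalize Nat.count (Pl c.t c.q e mx) B = j at *
    generalize Nat.count (Pl c.t c.q e mx) (min (c.t ^ a + B) (c.t ^ (a + 1))) = n at *
    have hds : ds c.t c.q y ≤ c.A := (ds_le c.t_pos _ _).trans hB.JA
    rw [wp_blk_cons, wp_set, wp_blk_cons, wp_ite]
    simp only [Expr.safe, Expr.eval, BOp.safe, BOp.eval, St.setv_var, St.setv_bank, g1, hg.1,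
      hg.2, w45, wx, wm, hP'.τ, hP'.tm, if_neg hx.2.2.1, if_neg hm.2.2.1, true_and, and_true,
      if_true, Nat.reduceEqDiff, if_false, c.edg_eq]
    refine ⟨by omega, by omega, fun h => ?_, fun h => ?_⟩
    · have h5 : dg c.t a y < dg c.t a e ∧ ds c.t c.q y < mx := by
        by_contra h5
        apply h
        split_ifs with a1 a2 <;> first | rfl | exact absurd ⟨a1, a2⟩ h5
      obtain ⟨m1, m2, m3⟩ := Pl_add c.t_pos ha k2 k1 h5.1 h5.2
      rw [min_eq_left m1.le] at k4
      have e1 : ∀ v, Function.update (σ'.bank b) (n + n) v (j + j + 1) = ds c.t c.q y :=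
        fun v => by rw [Function.update_of_ne (by omega), hg.2]
      have e2 : Nat.count (Pl c.t c.q e mx) (min (c.t ^ a + (y + 1)) (c.t ^ (a + 1))) = n + 1 := by
        rw [min_eq_left (by omega), ← add_assoc, Nat.count_succ, if_pos m2, k4]
      have e3 : n + 1 ≤ c.Q := e2 ▸ (Nat.count_le _).trans ((min_le_right _ _).trans hU)
      simp only [wp_blk_cons, wp_set, wp_st, wp_blk_nil, Expr.safe, Expr.eval, BOp.safe, BOp.eval,
        St.setm_var, St.setm_bank, St.setv_var, St.setv_bank, if_true, g1, g2, w45, e1, true_and,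
        and_true, if_neg hlen.2.1, if_neg (Ne.symm hlen.2.2.1), hP'.τ, hP'.T, hP'.A6,
        Nat.reduceEqDiff, if_false, c.epw_eq (show c.τ * a ≤ 6 * c.A by omega), ← c.t_pow]
      refine ⟨by omega, by omega, by omega, by omega, by omega, by omega, by omega, by omega,
        ⟨y + 1, k2, by simp [k3], by simp [hlen.2.2.1, e2], ?_, by omega⟩, by omega⟩
      rw [e2]
      refine snoc g3 (k4 ▸ Nat.nth_count m2) ?_
      simp [m3, add_comm y]
    · have e2 : Nat.count (Pl c.t c.q e mx) (min (c.t ^ a + (y + 1)) (c.t ^ (a + 1))) = n := by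
        rw [← k4]
        refine count_eq (by omega) fun z hz1 hz2 hz => ?_
        obtain rfl : z = c.t ^ a + y := by omega
        obtain ⟨a1, a2⟩ := of_Pl_add c.t_pos ha (by omega) hz
        simp [a1, a2] at h
      simp only [wp_skip, wp_blk_cons, wp_set, wp_blk_nil, Expr.safe, Expr.eval, BOp.safe,
        BOp.eval, St.setv_var, g1, true_and, Nat.reduceEqDiff, if_false, if_true]
      exact ⟨by omega, ⟨y + 1, k2, by simp [k3], by simp [hlen.2.2.1, hlen.2.1, e2, g2],
        by rw [e2]; exact g3, by omega⟩, by omega⟩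
  · have h3 : Nat.count (Pl c.t c.q e mx) (min (c.t ^ a + B) (c.t ^ (a + 1))) ≤
        Nat.count (Pl c.t c.q e mx) B := by
      simpa [Expr.eval, BOp.eval, g1, g2] using h
    have h4 := exit (pow_pos c.t_pos a) hsub hBU h3
    have h5 := Nat.count_monotone (Pl c.t c.q e mx) (hBU.trans hU)
    rw [h4] at g2 g3
    exact ⟨g2, g3, by omega⟩

end GenP

open GenP in
theorem sGen : SGen := by
  intro E c hB b x m len hx hm hlen σ t hP e mx he vx vm
  have hbig := hB.big
  have hQ := c.Q_pos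
  have hl : 3 * c.Q ≤ E.Lim := le_trans (Nat.mul_le_mul_right _ (by omega)) hB.lQ
  have hlA := hB.lA
  have hq : c.q ≤ c.A := hB.qL.trans hB.LA
  have h0 : Pl c.t c.q e mx 0 := ⟨hQ, fun a _ => by simp, by simp⟩
  have h1 : Nat.count (Pl c.t c.q e mx) (c.t ^ 0) = 1 := by
    rw [pow_zero, Nat.count_one, if_pos h0]
  have hlen' : len ∉ parVars := fun h => hlen (by simp [h])
  have h3 : 3 ≠ len := fun h => hlen' (h ▸ by decide)
  have hx' := hx
  have hm' := hm
  have hlen2 := hlen
  simp only [List.mem_cons, List.not_mem_nil, or_false, not_or] at hx' hm' hlen2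
  unfold pGen
  simp only [wp_blk_cons, wp_set, wp_st, wp_blk_nil, Expr.safe, Expr.eval]
  refine ⟨by omega, by omega, by omega, by omega, by omega, by omega, by omega, ?_⟩
  refine wp_for c.q (Nat.count (Pl c.t c.q e mx) c.Q * 7 + 2)
    (fun a σ' => σ'.var len = Nat.count (Pl c.t c.q e mx) (c.t ^ a) ∧
      LstAt c b (Pl c.t c.q e mx) (Nat.count (Pl c.t c.q e mx) (c.t ^ a)) σ')
    [len, 47, 48] [b] false
    (by simp [Stmt.Within, blk, pGenIn, Stmt.wv, Stmt.wb, Stmt.rd])
    (by simp [Ne.symm hlen2.1]) (by simp [h3]) (by decide)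
    (by simp [h3, hP.q]) (by omega) (by omega)
    ⟨by rw [h1]; simp [hlen2.1], by rw [h1]; simp [LstAt, Nat.nth_zero_of_zero h0]⟩ ?_
    fun σ' t' _ hI ht => ⟨hI.1, hI.2, ht.trans_eq (by rw [Cx.tGen]; ring)⟩
  intro a σ' t' ha hF hi ⟨g1, g2⟩
  have hv : ∀ y, y ∉ [len, 45, 47, 48] → σ'.var y = σ.var y := fun y hy => by
    simp only [List.mem_cons, List.not_mem_nil, or_false, not_or] at hy
    rw [hF.var y (by simp [hy])]
    simp [hy]
  have hP' : Par c σ' := (hP.frame (vs := [len, 45, 47, 48]) (bs := []) (r := true)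
    (σ' := ⟨σ'.var, σ.bank, σ.pos⟩) ⟨hv, fun _ _ => rfl, fun _ => rfl⟩ fun y hy hy' => by
      simp only [List.mem_cons, List.not_mem_nil, or_false] at hy'
      rcases hy' with rfl | rfl | rfl | rfl
      exacts [hlen' hy, by revert hy; decide, by revert hy; decide, by revert hy; decide]).frame
    (vs := []) (bs := [b]) (r := true)
    ⟨fun _ _ => rfl, fun k hk => by
      rw [hF.bank k hk]
      simp only [List.mem_singleton] at hk
      simp [hk], fun h => by cases h⟩ fun _ _ => List.not_mem_nil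
  refine (genIn hB hx hm hlen hP' ha ((hv x hx).trans vx) ((hv m hm).trans vm) hi g1 g2).mono ?_
  intro σ₂ t₂ ⟨k1, k2, k3⟩
  exact ⟨⟨by simp [hlen2.1, k1], k2⟩, k3⟩

end Pool.Agent.P.MP_8f87b2_lc.KS
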