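import Pool.Agent.P.MP_8f87b2_lc.KS.Base

namespace Pool.Agent.P.MP_8f87b2_lc.KS

open Finset

namespace NearP

theorem sum_tri (T : ℕ) : ∑ a ∈ range T, (2 * T - 2 * a) = T * (T + 1) := by
  have h : ∀ k ≤ T, ∑ a ∈ range k, (2 * T - 2 * a) + k * k = 2 * T * k + k := by
    intro k
    induction k with
    | zero => simp
    | succ k ih =>
      intro hk
      have h1 := ih (by omega)
      have h2 : 2 * T - 2 * k + 2 * k = 2 * T := by omega
      rw [sum_range_succ]
      nlinarith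
  have := h T le_rfl
  nlinarith

theorem tri_le (T : ℕ) (S : Finset (ℕ × ℕ)) (f g : ℕ × ℕ → ℕ)
    (hm : ∀ z ∈ S, 2 * f z + g z < 2 * T)
    (hi : ∀ z ∈ S, ∀ z' ∈ S, f z = f z' → g z = g z' → z = z') : S.card ≤ T * (T + 1) := by
  have e : ((range T).sigma fun a => range (2 * T - 2 * a)).card = T * (T + 1) := by
    rw [card_sigma, ← sum_tri]
    exact sum_congr rfl fun a _ => card_range _
  rw [← e]
  refine card_le_card_of_injOn (fun z => ⟨f z, g z⟩) (fun z hz => ?_) fun z hz z' hz' h => ?_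
  · have := hm z hz
    simp only [mem_coe, mem_sigma, mem_range]
    omega
  · simp only [Sigma.mk.injEq, heq_eq_eq] at h
    exact hi z hz z' hz' h.1 h.2

/-- the lattice points of the triangle -/
def tri (t : ℕ) : Finset (ℕ × ℕ) := (range t ×ˢ range t).filter fun z => z.1 + z.2 < t

theorem mem_tri {t : ℕ} {z : ℕ × ℕ} : z ∈ tri t ↔ z.1 + z.2 < t := by
  simp only [tri, mem_filter, mem_product, mem_range]
  omega

theorem par1 (T c : ℕ) : ((tri (2 * T)).filter fun z => z.1 % 2 = c).card ≤ T * (T + 1) := by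
  refine tri_le T _ (fun z => z.1 / 2) (fun z => z.2) (fun z hz => ?_) fun z hz z' hz' h1 h2 => ?_
  · rw [mem_filter, mem_tri] at hz
    omega
  · rw [mem_filter, mem_tri] at hz hz'
    exact Prod.ext (by omega) h2

theorem par2 (T c : ℕ) : ((tri (2 * T)).filter fun z => z.2 % 2 = c).card ≤ T * (T + 1) := by
  refine tri_le T _ (fun z => z.2 / 2) (fun z => z.1) (fun z hz => ?_) fun z hz z' hz' h1 h2 => ?_
  · rw [mem_filter, mem_tri] at hz
    omega
  · rw [mem_filter, mem_tri] at hz hz'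
    exact Prod.ext h2 (by omega)

theorem par3 (T c : ℕ) :
    ((tri (2 * T)).filter fun z => (z.1 + z.2) % 2 = c).card ≤ T * (T + 1) := by
  refine tri_le T _ (fun z => T - 1 - (z.1 + z.2) / 2) (fun z => z.1) (fun z hz => ?_)
    fun z hz z' hz' h1 h2 => ?_
  · rw [mem_filter, mem_tri] at hz
    omega
  · rw [mem_filter, mem_tri] at hz hz'
    exact Prod.ext h2 (by omega)

theorem key {c d u s : ℤ} (h : c * u = d * s) (hs : |s| ≤ 1) (hcd : |d| < |c|) : u = 0 := by
  by_contra hu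
  have h1 : 1 ≤ |u| := Int.one_le_abs hu
  have h2 : |c| * |u| = |d| * |s| := by rw [← abs_mul, ← abs_mul, h]
  have h3 := abs_nonneg d
  nlinarith

theorem line_le (T : ℕ) {a b : ℤ} (ha : a ≠ 0) (hb : b ≠ 0) (hab : a + b ≠ 0)
    (S : Finset (ℕ × ℕ)) (h1 : ∀ z ∈ S, z.1 + z.2 < 2 * T)
    (h2 : ∀ z ∈ S, ∀ z' ∈ S, a * ((z.2 : ℤ) - z'.2) = b * ((z.1 : ℤ) - z'.1)) : S.card ≤ T := by
  rw [← card_range T]
  rcases lt_trichotomy |a| |b| with h | h | h
  · refine card_le_card_of_injOn (fun z => z.2 / 2) (fun z hz => ?_) fun z hz z' hz' e => ?_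
    · have := h1 z hz
      simp only [mem_coe, mem_range]
      omega
    · have e2 := h2 z hz z' hz'
      have e' : z.2 / 2 = z'.2 / 2 := e
      have hu := key e2.symm (by rw [abs_le]; omega) h
      rw [hu, mul_zero, mul_eq_zero] at e2
      exact Prod.ext (by omega) (by have := e2.resolve_left ha; omega)
  · have hab' : a = b := by
      rcases abs_eq_abs.mp h with h | h
      · exact h
      · omega
    refine card_le_card_of_injOn (fun z => (z.1 + z.2) / 2) (fun z hz => ?_)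
      fun z hz z' hz' e => ?_
    · have := h1 z hz
      simp only [mem_coe, mem_range]
      omega
    · have e2 := h2 z hz z' hz'
      have e' : (z.1 + z.2) / 2 = (z'.1 + z'.2) / 2 := e
      rw [← hab'] at e2
      have e3 := mul_left_cancel₀ ha e2
      exact Prod.ext (by omega) (by omega)
  · refine card_le_card_of_injOn (fun z => z.1 / 2) (fun z hz => ?_) fun z hz z' hz' e => ?_
    · have := h1 z hz
      simp only [mem_coe, mem_range]
      omega
    · have e2 := h2 z hz z' hz'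
      have e' : z.1 / 2 = z'.1 / 2 := e
      have hu := key e2 (by rw [abs_le]; omega) h
      rw [hu, mul_zero, eq_comm, mul_eq_zero] at e2
      exact Prod.ext (by have := e2.resolve_left hb; omega) (by omega)

theorem pow_bound {t q h D : ℕ} {Ev : Finset (ℕ × ℕ)} (hE : EvOK t q h D Ev)
    (S : ℕ → Finset (ℕ × ℕ)) (n : ℕ) (hS : ∀ a, (S a).card ≤ n) :
    (Ev.filter fun p' => ∀ a < q, (dg t a p'.1, dg t a p'.2) ∈ S a).card ≤ n ^ q := by
  refine (card_pairs_le t q S _ fun p' hp' => ?_).trans ?_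
  · rw [mem_filter] at hp'
    exact ⟨hE.lt1 _ hp'.1, hE.lt2 _ hp'.1, hp'.2⟩
  · simpa using prod_le_pow_card (range q) (fun a => (S a).card) n fun a _ => hS a

end NearP

open NearP

variable {t T q h D : ℕ} {Ev : Finset (ℕ × ℕ)}

open Classical in
/-- events all of whose minors with `p` are even -/
theorem card_even (hT : t = 2 * T) (hE : EvOK t q h D Ev) {p : ℕ × ℕ} (hp : p ∈ Ev) :
    (Ev.filter fun p' => ∀ i < q, ∀ j < q, ¬ Odd (mnr t p p' i j)).card ≤
      3 * (T * (T + 1)) ^ q := by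
  have b1 := pow_bound hE (fun a => (tri t).filter fun z => z.1 % 2 = dg t a p.1 % 2) _
    fun a => by rw [hT]; exact par1 T _
  have b2 := pow_bound hE (fun a => (tri t).filter fun z => z.2 % 2 = dg t a p.2 % 2) _
    fun a => by rw [hT]; exact par2 T _
  have b3 := pow_bound hE
    (fun a => (tri t).filter fun z => (z.1 + z.2) % 2 = (dg t a p.1 + dg t a p.2) % 2) _
    fun a => by rw [hT]; exact par3 T _
  refine le_trans (card_le_card ?_) ((card_union_le _ _).trans ((add_le_add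
    ((card_union_le _ _).trans (add_le_add b1 b2)) b3).trans (by omega)))
  intro p' hp'
  rw [mem_filter] at hp'
  obtain ⟨hm, hev⟩ := hp'
  have htr := hE.tri p' hm
  simp only [mem_union, mem_filter, mem_tri]
  by_cases c1 : ∀ a < q, dg t a p'.1 % 2 = dg t a p.1 % 2
  · exact Or.inl (Or.inl ⟨hm, fun a ha => ⟨htr a ha, c1 a ha⟩⟩)
  by_cases c2 : ∀ a < q, dg t a p'.2 % 2 = dg t a p.2 % 2
  · exact Or.inl (Or.inr ⟨hm, fun a ha => ⟨htr a ha, c2 a ha⟩⟩)
  refine Or.inr ⟨hm, fun a ha => ⟨htr a ha, ?_⟩⟩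
  push Not at c1 c2
  obtain ⟨i, hi, ci⟩ := c1
  obtain ⟨j, hj, cj⟩ := c2
  have oi : ¬ Even ((dg t i p.1 : ℤ) - dg t i p'.1) := by rintro ⟨k, hk⟩; omega
  have oj : ¬ Even ((dg t j p.2 : ℤ) - dg t j p'.2) := by rintro ⟨k, hk⟩; omega
  have m1 := hev i hi j hj
  have m2 := hev i hi a ha
  rw [Int.not_odd_iff_even, mnr, Int.even_sub, Int.even_mul, Int.even_mul] at m1 m2
  have oi2 : ¬ Even ((dg t i p.2 : ℤ) - dg t i p'.2) := by tauto
  have m3 : Even ((dg t a p.2 : ℤ) - dg t a p'.2) ↔ Even ((dg t a p.1 : ℤ) - dg t a p'.1) := by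
    tauto
  rw [Int.even_iff, Int.even_iff] at m3
  omega

open Classical in
/-- events all of whose minors with `p` vanish -/
theorem card_par (hT : t = 2 * T) (hE : EvOK t q h D Ev) {p : ℕ × ℕ} (hp : p ∈ Ev) :
    (Ev.filter fun p' => ∀ i < q, ∀ j < q, mnr t p p' i j = 0).card ≤
      (Ev.filter fun p' => p'.1 = p.1).card + (Ev.filter fun p' => p'.2 = p.2).card + D +
        4 * t ^ 2 * T ^ q := by
  set P : Finset (ℤ × ℤ) := (Ico (-(t : ℤ)) t ×ˢ Ico (-(t : ℤ)) t).filter
    fun c => c.1 ≠ 0 ∧ c.2 ≠ 0 ∧ c.1 + c.2 ≠ 0 with hP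
  set L : ℤ × ℤ → ℕ → Finset (ℕ × ℕ) := fun c a => (tri t).filter fun z =>
    c.1 * ((dg t a p.2 : ℤ) - z.2) = c.2 * ((dg t a p.1 : ℤ) - z.1) with hL
  have cP : P.card ≤ 4 * t ^ 2 := by
    refine (card_filter_le _ _).trans ?_
    rw [card_product, Int.card_Ico, show ((t : ℤ) - -t).toNat = 2 * t by omega]
    nlinarith
  have b3 : (Ev.filter fun p' => ∀ a < q,
      (dg t a p'.1, dg t a p'.2) ∈ antidiagonal (dg t a p.1 + dg t a p.2)).card ≤ D := by
    refine (card_pairs_le t q (fun a => antidiagonal (dg t a p.1 + dg t a p.2)) _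
      fun p' hp' => ?_).trans ?_
    · rw [mem_filter] at hp'
      exact ⟨hE.lt1 _ hp'.1, hE.lt2 _ hp'.1, hp'.2⟩
    · simpa only [Nat.card_antidiagonal] using hE.low p hp
  have b4 : (P.biUnion fun c =>
      Ev.filter fun p' => ∀ a < q, (dg t a p'.1, dg t a p'.2) ∈ L c a).card ≤
        4 * t ^ 2 * T ^ q := by
    refine (card_biUnion_le_card_mul _ _ (T ^ q) fun c hc => ?_).trans
      (Nat.mul_le_mul_right _ cP)
    rw [hP, mem_filter] at hc
    refine pow_bound hE (L c) T fun a => line_le T hc.2.1 hc.2.2.1 hc.2.2.2 _ (fun z hz => ?_)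
      fun z hz z' hz' => ?_
    · rw [hL, mem_filter, mem_tri] at hz
      omega
    · rw [hL, mem_filter] at hz hz'
      linear_combination hz'.2 - hz.2
  refine le_trans (card_le_card ?_) ((card_union_le _ _).trans (add_le_add
    ((card_union_le _ _).trans (add_le_add (card_union_le _ _) b3)) b4))
  intro p' hp'
  rw [mem_filter] at hp'
  obtain ⟨hm, hz⟩ := hp'
  have htr := hE.tri p' hm
  simp only [mem_union, mem_filter, mem_biUnion, HasAntidiagonal.mem_antidiagonal]
  by_cases c1 : ∀ a < q, dg t a p'.1 = dg t a p.1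
  · exact Or.inl (Or.inl (Or.inl ⟨hm, dg_ext (hE.lt1 _ hm) (hE.lt1 _ hp) c1⟩))
  by_cases c2 : ∀ a < q, dg t a p'.2 = dg t a p.2
  · exact Or.inl (Or.inl (Or.inr ⟨hm, dg_ext (hE.lt2 _ hm) (hE.lt2 _ hp) c2⟩))
  by_cases c3 : ∀ a < q, dg t a p'.1 + dg t a p'.2 = dg t a p.1 + dg t a p.2
  · exact Or.inl (Or.inr ⟨hm, c3⟩)
  push Not at c1 c2 c3
  obtain ⟨i, hi, ci⟩ := c1
  obtain ⟨j, hj, cj⟩ := c2
  obtain ⟨k, hk, ck⟩ := c3
  have ha : (dg t i p.1 : ℤ) - dg t i p'.1 ≠ 0 := by omega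
  have t1 := hE.tri p hp i hi
  have t2 := htr i hi
  refine Or.inr ⟨((dg t i p.1 : ℤ) - dg t i p'.1, (dg t i p.2 : ℤ) - dg t i p'.2), ?_, hm,
    fun a hq => ?_⟩
  · rw [hP, mem_filter, mem_product, mem_Ico, mem_Ico]
    refine ⟨⟨by constructor <;> simp only <;> omega, by constructor <;> simp only <;> omega⟩,
      ha, fun hb => ?_, fun hb => ?_⟩
    · have m := hz i hi j hj
      have hb' : (dg t i p.2 : ℤ) - dg t i p'.2 = 0 := hb
      rw [mnr, hb', mul_zero, sub_zero, mul_eq_zero] at m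
      have := m.resolve_left ha
      omega
    · have m := hz i hi k hk
      have hb' : (dg t i p.1 : ℤ) - dg t i p'.1 + ((dg t i p.2 : ℤ) - dg t i p'.2) = 0 := hb
      rw [mnr] at m
      have m' : ((dg t i p.1 : ℤ) - dg t i p'.1) * (((dg t k p.2 : ℤ) - dg t k p'.2) +
          ((dg t k p.1 : ℤ) - dg t k p'.1)) = 0 := by
        linear_combination m + ((dg t k p.1 : ℤ) - dg t k p'.1) * hb'
      have := (mul_eq_zero.mp m').resolve_left ha
      omega
  · rw [hL, mem_filter, mem_tri]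
    refine ⟨htr a hq, ?_⟩
    have m := hz i hi a hq
    rw [mnr] at m
    simp only
    linear_combination m

end Pool.Agent.P.MP_8f87b2_lc.KS
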