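import Pool.Agent.P.MP_8f87b2_lc.KS.Pair
import Pool.Agent.P.MP_8f87b2_lc.KS.Near

/-!
# The probability that a fixed solution is covered by a clean output
-/

namespace Pool.Agent.P.MP_8f87b2_lc.KS

open Finset

variable {M : ℕ} [NeZero M] {t T q h D : ℕ} {Ev : Finset (ℕ × ℕ)}

namespace ProbP

theorem le_div {nR : ℕ} {P : (ℕ → ZMod M) → Prop} {k c : ℕ} (h : num nR P * M ^ k ≤ c * M ^ nR) :
    (num nR P : ℝ) ≤ c * ((M : ℝ) ^ nR / M ^ k) := by
  have hM : (0 : ℝ) < M := by exact_mod_cast Nat.pos_of_ne_zero (NeZero.ne M)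
  rw [← mul_div_assoc, le_div_iff₀ (by positivity)]
  exact_mod_cast h

theorem num_three (ht : 0 < t) (hE : EvOK t q h D Ev) (α β : ZMod M) {p p' : ℕ × ℕ} (hp : p ∈ Ev)
    (hp' : p' ∈ Ev) (hne : p' ≠ p) :
    (num (q + 2) fun R => cov t q α β p R ∧ cov t q α β p' R : ℝ) ≤
      t * ((M : ℝ) ^ (q + 2) / M ^ 3) := by
  by_cases h1 : p'.1 = p.1
  · have h2 : p'.2 ≠ p.2 := fun h2 => hne (Prod.ext h1 h2)
    refine le_trans (Nat.cast_le.mpr <| num_mono fun R hR => ?_)
      (le_div (num_cov_diff ht α β 0 p (hE.lt2 _ hp') (hE.lt2 _ hp) h2))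
    refine ⟨?_, hR.1⟩
    have a := hR.1.2
    have b := hR.2.2
    unfold ks at a b
    linear_combination b - a
  · refine le_trans (Nat.cast_le.mpr <| num_mono fun R hR => ?_)
      (le_div (num_cov_diff ht α β 0 p (hE.lt1 _ hp') (hE.lt1 _ hp) h1))
    refine ⟨?_, hR.1⟩
    have a := hR.1.1
    have b := hR.2.1
    unfold ks at a b
    linear_combination b - a

theorem mul_le_of_sq {a b c : ℕ} (ha : a ^ 2 ≤ c) (hb : b ^ 2 ≤ c) : a * b ≤ c := by
  refine (Nat.pow_le_pow_iff_left two_ne_zero).mp ?_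
  rw [mul_pow, sq c]
  exact Nat.mul_le_mul ha hb

omit [NeZero M] in
open Classical in
theorem par_le (hT : t = 2 * T) (hE : EvOK t q h D Ev) {p : ℕ × ℕ} (hp : p ∈ Ev)
    (hμ : (200 * t) ^ 2 * M ^ 2 ≤ Ev.card) (hΘ : 12 * t ^ 4 * (T * (T + 1)) ^ q ≤ M ^ 2)
    (hD : D ≤ M) :
    100 * t * M * (Ev.filter fun p' => ∀ i < q, ∀ j < q, mnr t p p' i j = 0).card ≤
      Ev.card + 300 * t * M ^ 2 := by
  have h0 := card_par hT hE hp
  rw [← mul_pow] at hμ
  have h1 := mul_le_of_sq (hE.f1 p hp) hμ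
  have h2 := mul_le_of_sq (hE.f2 p hp) hμ
  have h3 : 2 * t ^ 2 * T ^ q ≤ M := by
    refine (Nat.pow_le_pow_iff_left two_ne_zero).mp (le_trans ?_ hΘ)
    have : (T ^ q) ^ 2 ≤ (T * (T + 1)) ^ q := by
      rw [← pow_mul, mul_comm q 2, pow_mul]
      exact Nat.pow_le_pow_left (by nlinarith) q
    calc (2 * t ^ 2 * T ^ q) ^ 2 = 4 * t ^ 4 * (T ^ q) ^ 2 := by ring
      _ ≤ _ := Nat.mul_le_mul (Nat.mul_le_mul_right _ (by norm_num)) this
  generalize (Ev.filter fun p' => p'.1 = p.1).card = a at *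
  generalize (Ev.filter fun p' => p'.2 = p.2).card = b at *
  generalize (Ev.filter fun p' => ∀ i < q, ∀ j < q, mnr t p p' i j = 0).card = c at *
  have h4 : c ≤ a + b + 3 * M := by linarith
  have h5 := Nat.mul_le_mul_left (100 * t * M) h4
  nlinarith

theorem num_uncovered {k : ℕ} (hM : M = 2 ^ k) (hT : t = 2 * T) (ht : 0 < t)
    (hE : EvOK t q h D Ev) (α β : ZMod M) (hμ : (200 * t) ^ 2 * M ^ 2 ≤ Ev.card)
    (hΘ : 12 * t ^ 4 * (T * (T + 1)) ^ q ≤ M ^ 2) (hD : D ≤ M) :
    50 * (num (q + 2) fun R => ∀ e ∈ Ev, ¬ cov t q α β e R : ℝ) ≤ (M : ℝ) ^ (q + 2) := by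
  classical
  have hM0 : (0 : ℝ) < M := by exact_mod_cast Nat.pos_of_ne_zero (NeZero.ne M)
  set Z : ℝ := (M : ℝ) ^ (q + 2) with hZ
  have hZ0 : 0 < Z := by positivity
  have ht1 : (1 : ℝ) ≤ t := by exact_mod_cast ht
  have hμ' : ((200 * t) ^ 2 : ℝ) ≤ Ev.card * (1 / M ^ 2) := by
    rw [mul_one_div, le_div_iff₀ (by positivity)]; exact_mod_cast hμ
  have key := num_none (nR := q + 2) Ev (cov t q α β) (1 / M ^ 2)
    (2 + 3 * t + Ev.card * (1 / M ^ 2) / 100) (lt_of_lt_of_le (by positivity) hμ')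
    (fun e _ => by rw [num_le_div (num_cov α β e)]; ring) (fun e he => by
      have b : ∀ e' ∈ Ev,
          (num (q + 2) fun R => cov t q α β e R ∧ cov t q α β e' R : ℝ) ≤
          (if e' = e then Z / M ^ 2 else 0) +
            (if ∀ i < q, ∀ j < q, mnr t e e' i j = 0 then t * (Z / M ^ 3) else 0) +
            (if ∀ i < q, ∀ j < q, ¬ Odd (mnr t e e' i j) then 4 * t ^ 4 * (Z / M ^ 4) else 0) +
            Z / M ^ 4 := by
        intro e' he'
        have p3 : 0 ≤ t * (Z / M ^ 3) := by positivity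
        have p4 : 0 ≤ Z / M ^ 4 := by positivity
        have p5 : 0 ≤ 4 * t ^ 4 * (Z / M ^ 4) := by positivity
        by_cases h1 : e' = e
        · subst h1
          rw [if_pos rfl, num_congr (Q := cov t q α β e') fun R => and_self_iff,
            num_le_div (num_cov α β e')]
          split_ifs <;> linarith
        rw [if_neg h1]
        by_cases h2 : ∀ i < q, ∀ j < q, mnr t e e' i j = 0
        · rw [if_pos h2]
          have := num_three ht hE α β he he' h1
          split_ifs <;> linarith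
        rw [if_neg h2]
        by_cases h3 : ∀ i < q, ∀ j < q, ¬ Odd (mnr t e e' i j)
        · rw [if_pos h3]
          push Not at h2
          obtain ⟨i, hi, j, hj, h4⟩ := h2
          have := le_div (num_cov_minor ht α β hi hj h4)
          push_cast at this
          linarith
        · rw [if_neg h3]
          push Not at h3
          obtain ⟨i, hi, j, hj, h4⟩ := h3
          have := le_div (c := 1) ((num_cov_odd hM α β hi hj h4).trans_eq (one_mul _).symm)
          push_cast at this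
          linarith
      refine (sum_le_sum b).trans ?_
      rw [sum_add_distrib, sum_add_distrib, sum_add_distrib, sum_ite_eq' _ e, if_pos he,
        ← sum_filter, ← sum_filter, sum_const, sum_const, sum_const, nsmul_eq_mul, nsmul_eq_mul,
        nsmul_eq_mul]
      have c1 : (100 * t * M *
          ((Ev.filter fun p' => ∀ i < q, ∀ j < q, mnr t e p' i j = 0).card : ℝ)) ≤
          Ev.card + 300 * t * M ^ 2 := by
        exact_mod_cast par_le hT hE he hμ hΘ hD
      have c2 : (4 * t ^ 4 *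
          ((Ev.filter fun p' => ∀ i < q, ∀ j < q, ¬ Odd (mnr t e p' i j)).card : ℝ)) ≤ M ^ 2 := by
        have := (Nat.mul_le_mul_left (4 * t ^ 4) (card_even hT hE he)).trans
          (le_of_eq_of_le (by ring) hΘ)
        exact_mod_cast this
      generalize ((Ev.filter fun p' => ∀ i < q, ∀ j < q, mnr t e p' i j = 0).card : ℝ) = A at *
      generalize ((Ev.filter fun p' => ∀ i < q, ∀ j < q, ¬ Odd (mnr t e p' i j)).card : ℝ) = B
        at *
      have d1 := mul_le_mul_of_nonneg_right c1 (show 0 ≤ Z / M ^ 4 / 100 by positivity)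
      have d2 := mul_le_mul_of_nonneg_right c2 (show 0 ≤ Z / M ^ 4 by positivity)
      have e1 : A * (t * (Z / M ^ 3)) = 100 * t * M * A * (Z / M ^ 4 / 100) := by
        field_simp
      have e2 : Z / M ^ 2 = M ^ 2 * (Z / M ^ 4) := by field_simp
      have e3 : (2 + 3 * t + (Ev.card : ℝ) * (1 / M ^ 2) / 100 + Ev.card * (1 / M ^ 2)) *
          (1 / M ^ 2) * Z = M ^ 2 * (Z / M ^ 4) + (Ev.card + 300 * t * M ^ 2) * (Z / M ^ 4 / 100) +
            M ^ 2 * (Z / M ^ 4) + Ev.card * (Z / M ^ 4) := by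
        field_simp; ring
      rw [e1, e2, e3]
      linarith)
  rw [← hZ] at key
  generalize (num (q + 2) fun R => ∀ e ∈ Ev, ¬ cov t q α β e R : ℝ) = X at *
  generalize (Ev.card : ℝ) * (1 / M ^ 2) = μ at *
  have hμ0 : 0 < μ := lt_of_lt_of_le (by positivity) hμ'
  have h1 : (2 + 3 * t : ℝ) ≤ μ / 100 := by nlinarith
  have h2 := mul_le_mul_of_nonneg_right h1 hZ0.le
  refine le_of_mul_le_mul_right ?_ hμ0
  linarith

theorem num_overflow {N Cn : ℕ} (γ : ℕ → ZMod M) (hB : 60 * N * t ^ q ≤ Cn * M) (hB0 : 0 < Cn) :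
    20 * num (q + 2) (fun R => Cn < nneed t q N γ R) ≤ M ^ (q + 2) := by
  have hM : 0 < M := Nat.pos_of_ne_zero (NeZero.ne M)
  have h := num_markov (nR := q + 2) (Nd (t ^ q) N) (need t q γ) M (Cn * M)
  rw [sum_mul, sum_congr rfl fun e _ => num_need γ e, sum_const, smul_eq_mul] at h
  have hc : (Nd (t ^ q) N).card * 20 = 60 * N * t ^ q := by
    simp [Nd]; ring
  have e : num (q + 2) (fun R => Cn < nneed t q N γ R) =
      num (q + 2) (fun R => Cn * M < nneed t q N γ R * M) :=
    num_congr fun R => (Nat.mul_lt_mul_right hM).symm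
  refine Nat.le_of_mul_le_mul_right ?_ (Nat.mul_pos hB0 hM)
  calc 20 * num (q + 2) (fun R => Cn < nneed t q N γ R) * (Cn * M)
      = 20 * (num (q + 2) (fun R => Cn * M < nneed t q N γ R * M) * (Cn * M)) := by rw [e]; ring
    _ ≤ 20 * ((Nd (t ^ q) N).card * M ^ (q + 2)) := Nat.mul_le_mul_left _ h
    _ = M ^ (q + 2) * ((Nd (t ^ q) N).card * 20) := by ring
    _ ≤ _ := Nat.mul_le_mul_left _ (hc ▸ hB)

omit [NeZero M] in
theorem cov_total {α β : ZMod M} {u v e : ℕ} {R : ℕ → ZMod M}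
    (hd : ∀ a < q, dg t a u + dg t a v = dg t a e) (h : cov t q α β (u, v) R) :
    α + β = ks t q q e R + R (q + 1) := by
  rw [← h.1, ← h.2]
  unfold ks
  linear_combination Hd_of_dg R hd

open Classical in
/-- false pairs whose hash sums collide with the solution -/
noncomputable def collq (N b : ℕ) (γ : ℕ → ZMod M) (x : ℕ → ℤ) (ia ic : ℕ) : Finset (ℕ × ℕ) :=
  (range N ×ˢ range b).filter fun p =>
    x p.1 + x p.2 ≠ x ia + x ic ∧ γ p.1 + γ p.2 = γ ia + γ ic

open Classical in
theorem num_bad {k : ℕ} (hM : M = 2 ^ k) (hT : t = 2 * T) (ht : 0 < t) (hE : EvOK t q h D Ev)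
    {N b Cn : ℕ} (γ : ℕ → ZMod M) (x : ℕ → ℤ) (ia ic : ℕ) (hb : b ≤ N)
    (hμ : (200 * t) ^ 2 * M ^ 2 ≤ Ev.card) (hΘ : 12 * t ^ 4 * (T * (T + 1)) ^ q ≤ M ^ 2)
    (hD : D ≤ M) (hB : 60 * N * t ^ q ≤ Cn * M) (hB0 : 0 < Cn) :
    (num (q + 2) fun R => ¬ Good t q Ev N b Cn γ x ia ic R : ℝ) ≤
      (M : ℝ) ^ (q + 2) * ((if bad0 N γ x ia ic then 1 else 0) + 1 / 50 + 1 / 20 +
        t * Ev.card * D / M ^ 3 * (collq N b γ x ia ic).card) := by
  have hM0 : (0 : ℝ) < M := by exact_mod_cast Nat.pos_of_ne_zero (NeZero.ne M)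
  set Z : ℝ := (M : ℝ) ^ (q + 2) with hZ
  have hZ0 : 0 < Z := by positivity
  have p0 : (0 : ℝ) ≤ t * Ev.card * D / M ^ 3 * (collq N b γ x ia ic).card := by
    positivity
  split_ifs with h0
  · have : (num (q + 2) fun R => ¬ Good t q Ev N b Cn γ x ia ic R : ℝ) ≤ Z := by
      rw [hZ]; exact_mod_cast (num_mono fun _ _ => trivial).trans num_true.le
    nlinarith
  have sub : ∀ R, ¬ Good t q Ev N b Cn γ x ia ic R →
      ((∀ e ∈ Ev, ¬ cov t q (γ ia) (γ ic) e R) ∨ Cn < nneed t q N γ R) ∨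
      ∃ e ∈ Ev, ∃ p ∈ collq N b γ x ia ic,
        ∃ u ∈ ((range (t ^ q)).filter fun u => Below t q u (e.1 + e.2)).erase e.1,
        Hd t q R u - Hd t q R e.1 = γ p.1 - γ ia ∧ cov t q (γ ia) (γ ic) e R := by
    intro R hR
    by_contra hc
    simp only [not_or, not_forall, not_not, not_lt] at hc
    obtain ⟨⟨⟨e, he, hcov⟩, h3⟩, h2⟩ := hc
    refine hR ⟨⟨e, he, hcov, fun a ha c hc u hu hS hc' => ?_⟩, h3⟩
    by_contra hne
    have hs := add_nc (hE.lt1 e he) (hE.lt2 e he) (hE.tri e he)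
    by_cases hSe : u = e.1
    · subst hSe
      rw [Nat.add_sub_cancel_left] at hc'
      have ea : γ a = γ ia := hc'.1.symm.trans hcov.1
      have eb : γ c = γ ic := hc'.2.symm.trans hcov.2
      apply h0
      by_cases hx : x a = x ia
      · exact Or.inr ⟨c, mem_range.mpr (hc.trans_le hb), fun h => hne (by rw [hx, h]), eb⟩
      · exact Or.inl ⟨a, mem_range.mpr ha, hx, ea⟩
    · refine h2 ⟨e, he, (a, c), ?_, u,
        mem_erase.mpr ⟨hSe, mem_filter.mpr ⟨mem_range.mpr hu, hS⟩⟩, ?_, hcov⟩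
      · simp only [collq, mem_filter, mem_product, mem_range]
        exact ⟨⟨ha, hc⟩, hne,
          (cov_total (fun i hi => (add_comm _ _).trans ((sub_nb ht hu hs.1 hS).2 i hi)) hc').trans
          (cov_total (u := e.1) (v := e.2) (fun i hi => (hs.2 i hi).symm) hcov).symm⟩
      · have a1 := hc'.1
        have a2 := hcov.1
        unfold ks at a1 a2
        linear_combination a1 - a2
  have b1 := num_uncovered hM hT ht hE (γ ia) (γ ic) hμ hΘ hD
  have b3 : 20 * (num (q + 2) (fun R => Cn < nneed t q N γ R) : ℝ) ≤ Z := by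
    rw [hZ]; exact_mod_cast num_overflow γ hB hB0
  have b2 : (num (q + 2) (fun R => ∃ e ∈ Ev, ∃ p ∈ collq N b γ x ia ic,
      ∃ u ∈ ((range (t ^ q)).filter fun u => Below t q u (e.1 + e.2)).erase e.1,
        Hd t q R u - Hd t q R e.1 = γ p.1 - γ ia ∧ cov t q (γ ia) (γ ic) e R) : ℝ) ≤
      Z * (t * Ev.card * D / M ^ 3 * (collq N b γ x ia ic).card) := by
    refine le_trans (Nat.cast_le.mpr (num_exists _ _)) ?_
    push_cast
    refine (sum_le_card_nsmul _ _ ((collq N b γ x ia ic).card * (D * (t * (Z / M ^ 3))))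
      fun e he => ?_).trans (le_of_eq (by rw [nsmul_eq_mul]; ring))
    refine le_trans (Nat.cast_le.mpr (num_exists _ _)) ?_
    push_cast
    refine (sum_le_card_nsmul _ _ (D * (t * (Z / M ^ 3))) fun p _ => ?_).trans
      (le_of_eq (by rw [nsmul_eq_mul]))
    refine le_trans (Nat.cast_le.mpr (num_exists _ _)) ?_
    push_cast
    refine (sum_le_card_nsmul _ _ (t * (Z / M ^ 3)) fun u hu => ?_).trans ?_
    · have hu' := mem_erase.mp hu
      exact le_div (num_cov_diff ht _ _ _ e (mem_range.mp (mem_filter.mp hu'.2).1)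
        (hE.lt1 e he) hu'.1)
    · rw [nsmul_eq_mul]
      refine mul_le_mul_of_nonneg_right ?_ (by positivity)
      have hs := add_nc (hE.lt1 e he) (hE.lt2 e he) (hE.tri e he)
      have := hE.low e he
      rw [← prod_congr rfl fun a ha => congrArg (· + 1) (hs.2 a (mem_range.mp ha)),
        ← card_below ht] at this
      exact_mod_cast card_erase_le.trans this
  have := Nat.cast_le (α := ℝ).mpr ((num_mono (nR := q + 2) sub).trans
    ((num_or _ _).trans (Nat.add_le_add_right (num_or _ _) _)))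
  push_cast at this
  linarith

end ProbP

open ProbP in
theorem good_count {k : ℕ} (hM : M = 2 ^ k) (hT : t = 2 * T) (ht : 0 < t) (hE : EvOK t q h D Ev)
    {N b Cn V : ℕ} (x : ℕ → ℤ) {ia ic : ℕ} (hb : b ≤ N) (hia : ia < N) (hic : ic < b)
    (hV : 0 < V) (hx : ∀ i < N, 4 * |x i| ≤ V)
    (hμ : (200 * t) ^ 2 * M ^ 2 ≤ Ev.card) (hΘ : 12 * t ^ 4 * (T * (T + 1)) ^ q ≤ M ^ 2)
    (hD : D ≤ M) (hB : 60 * N * t ^ q ≤ Cn * M) (hB0 : 0 < Cn) (hA : 2400 * N ≤ M)
    (hC : 120 * t * Ev.card * D * (N * b) ≤ M ^ 4) :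
    2 * (M * V * M ^ (q + 2)) ≤
      3 * ∑ r ∈ range (M * V), num (q + 2) (Good t q Ev N b Cn (gz M V r x) x ia ic) := by
  classical
  have hM2 : 2 ≤ M := by omega
  have hib : ic < N := hic.trans_le hb
  have hM0 : (0 : ℝ) < M := by exact_mod_cast Nat.pos_of_ne_zero (NeZero.ne M)
  have hV' : (0 : ℝ) < V := by exact_mod_cast hV
  set Z : ℝ := (M : ℝ) ^ (q + 2) with hZ
  have hZ0 : 0 < Z := by positivity
  have habs : ∀ a < N, ∀ c < N, |x a + x c - x ia - x ic| ≤ V := by
    intro a ha c hc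
    have := hx a ha
    have := hx c hc
    have := hx ia hia
    have := hx ic hib
    have := abs_le.mp (le_refl |x a|)
    have := abs_le.mp (le_refl |x c|)
    have := abs_le.mp (le_refl |x ia|)
    have := abs_le.mp (le_refl |x ic|)
    rw [abs_le]; constructor <;> linarith
  have c0 : ((range (M * V)).filter fun r => bad0 N (gz M V r x) x ia ic).card ≤ 24 * N * V := by
    have sub : ((range (M * V)).filter fun r => bad0 N (gz M V r x) x ia ic) ⊆
        (((range N).filter fun a => x a ≠ x ia).biUnion fun a => (range (M * V)).filter fun r =>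
          gz M V r x a + gz M V r x ic = gz M V r x ia + gz M V r x ic) ∪
        (((range N).filter fun c => x c ≠ x ic).biUnion fun c => (range (M * V)).filter fun r =>
          gz M V r x ia + gz M V r x c = gz M V r x ia + gz M V r x ic) := by
      intro r hr
      simp only [mem_filter, bad0] at hr
      simp only [mem_union, mem_biUnion, mem_filter]
      obtain ⟨hr, ⟨a, ha, h1, h2⟩ | ⟨c, hc, h1, h2⟩⟩ := hr
      · exact Or.inl ⟨a, ⟨ha, h1⟩, hr, by rw [h2]⟩
      · exact Or.inr ⟨c, ⟨hc, h1⟩, hr, by rw [h2]⟩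
    refine (card_le_card sub).trans ((card_union_le _ _).trans ?_)
    refine (Nat.add_le_add (card_biUnion_le_card_mul _ _ (12 * V) fun a ha => ?_)
      (card_biUnion_le_card_mul _ _ (12 * V) fun c hc => ?_)).trans ?_
    · simp only [mem_filter, mem_range] at ha
      exact gam_coll hM2 hV (fun h => ha.2 (by linarith)) (habs a ha.1 ic hib)
    · simp only [mem_filter, mem_range] at hc
      exact gam_coll hM2 hV (fun h => hc.2 (by linarith)) (habs ia hia c hc.1)
    · have h1 := card_filter_le (range N) fun a => x a ≠ x ia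
      have h2 := card_filter_le (range N) fun c => x c ≠ x ic
      rw [card_range] at h1 h2
      have h3 := Nat.mul_le_mul_right (12 * V) h1
      have h4 := Nat.mul_le_mul_right (12 * V) h2
      calc _ ≤ N * (12 * V) + N * (12 * V) := Nat.add_le_add h3 h4
        _ = _ := by ring
  have c2 : ∑ r ∈ range (M * V), (collq N b (gz M V r x) x ia ic).card ≤ N * b * (12 * V) := by
    simp only [collq, card_filter]
    rw [sum_comm]
    refine (sum_le_card_nsmul _ _ (12 * V) fun p hp => ?_).trans (le_of_eq (by simp))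
    simp only [mem_product, mem_range] at hp
    by_cases h1 : x p.1 + x p.2 = x ia + x ic
    · simp [h1]
    · simp only [ne_eq, h1, not_false_eq_true, true_and]
      rw [← card_filter]
      exact gam_coll hM2 hV (fun h => h1 (by linarith)) (habs _ hp.1 _ (hp.2.trans_le hb))
  have tot : ∑ r ∈ range (M * V),
      (num (q + 2) fun R => ¬ Good t q Ev N b Cn (gz M V r x) x ia ic R : ℝ) ≤
      Z * (M * V) / 3 := by
    refine (sum_le_sum fun r _ =>
      ProbP.num_bad hM hT ht hE (gz M V r x) x ia ic hb hμ hΘ hD hB hB0).trans ?_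
    rw [← mul_sum, mul_div_assoc Z]
    refine mul_le_mul_of_nonneg_left ?_ hZ0.le
    simp only [sum_add_distrib, ← mul_sum, sum_const, card_range, nsmul_eq_mul, sum_boole]
    have d0 : (((range (M * V)).filter fun r => bad0 N (gz M V r x) x ia ic).card : ℝ) ≤
        M * V / 100 := by
      have h1 : (((range (M * V)).filter fun r => bad0 N (gz M V r x) x ia ic).card : ℝ) ≤
        24 * N * V := by exact_mod_cast c0
      have h2 : (2400 * N : ℝ) ≤ M := by exact_mod_cast hA
      nlinarith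
    have d2 : (t * Ev.card * D / M ^ 3 : ℝ) *
        ∑ r ∈ range (M * V), ((collq N b (gz M V r x) x ia ic).card : ℝ) ≤ M * V / 10 := by
      have h1 : ∑ r ∈ range (M * V), ((collq N b (gz M V r x) x ia ic).card : ℝ) ≤
        N * b * (12 * V) := by exact_mod_cast c2
      have h2 : (120 * t * Ev.card * D * (N * b) : ℝ) ≤ M ^ 4 := by
        exact_mod_cast hC
      refine (mul_le_mul_of_nonneg_left h1 (by positivity)).trans ?_
      rw [div_mul_eq_mul_div, div_le_div_iff₀ (by positivity) (by norm_num)]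
      nlinarith
    have : (0 : ℝ) < M * V := by positivity
    push_cast
    linarith
  have tot2 : ∑ r ∈ range (M * V),
      (num (q + 2) (Good t q Ev N b Cn (gz M V r x) x ia ic) : ℝ) +
      ∑ r ∈ range (M * V),
      (num (q + 2) fun R => ¬ Good t q Ev N b Cn (gz M V r x) x ia ic R : ℝ) =
      Z * (M * V) := by
    rw [← sum_add_distrib, sum_congr rfl (g := fun _ => Z) fun r _ => by
      rw [hZ]; exact_mod_cast num_not _]
    simp [mul_comm]
  have : (2 * (M * V * Z) : ℝ) ≤ 3 * ∑ r ∈ range (M * V),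
      (num (q + 2) (Good t q Ev N b Cn (gz M V r x) x ia ic) : ℝ) := by linarith
  rw [hZ] at this
  exact_mod_cast this

end Pool.Agent.P.MP_8f87b2_lc.KS
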