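import Pool.Agent.P.MP_8f87b2_lc.KS.Spec
import Pool.Agent.P.MP_8f87b2_lc.KS.Evs
import Pool.Agent.P.MP_8f87b2_lc.KS.Prob

/-!
# The numerical hypotheses of the probability estimate
-/

namespace Pool.Agent.P.MP_8f87b2_lc.KS

open Finset

namespace GoodHypP

theorem p2_le {a b : ℕ} (h : a ≤ b) : 2 ^ a ≤ 2 ^ b := Nat.pow_le_pow_right (by norm_num) h

theorem pow_self_le (t : ℕ) : t ^ t ≤ 3 ^ t * t.factorial := by
  have h1 := Real.pow_div_factorial_le_exp (t : ℝ) (Nat.cast_nonneg t) t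
  have h2 : Real.exp t ≤ 3 ^ t := by
    rw [← Real.exp_one_pow]
    exact pow_le_pow_left₀ (Real.exp_pos 1).le (Real.exp_one_lt_d9.le.trans (by norm_num)) t
  have h3 : (0 : ℝ) < t.factorial := by exact_mod_cast t.factorial_pos
  have h4 := (div_le_iff₀ h3).mp (h1.trans h2)
  exact_mod_cast h4

theorem two_mul_factorial_le {n : ℕ} (hn : 2 ≤ n) : 2 * n.factorial ≤ n ^ n := by
  induction n, hn using Nat.le_induction with
  | base => norm_num [Nat.factorial]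
  | succ n _ ih =>
    calc 2 * (n + 1).factorial = (n + 1) * (2 * n.factorial) := by
          rw [Nat.factorial_succ]; ring
      _ ≤ (n + 1) * (n + 1) ^ n :=
          Nat.mul_le_mul_left _ (ih.trans (Nat.pow_le_pow_left (Nat.le_succ n) n))
      _ = (n + 1) ^ (n + 1) := by ring

theorem quartic {T : ℕ} (hT : 128 ≤ T) : 2 * (3 * (T * (T + 1))) ^ 4 ≤ ((2 * T) ^ 2) ^ 4 := by
  have h1 : 10 * (T + 1) ≤ 11 * T := by omega
  have h2 := Nat.pow_le_pow_left h1 4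
  have h3 : 162 * (T + 1) ^ 4 ≤ 256 * T ^ 4 := by
    rw [mul_pow, mul_pow] at h2
    norm_num at h2
    omega
  calc 2 * (3 * (T * (T + 1))) ^ 4 = T ^ 4 * (162 * (T + 1) ^ 4) := by ring
    _ ≤ T ^ 4 * (256 * T ^ 4) := Nat.mul_le_mul_left _ h3
    _ = _ := by ring

/-- the estimate behind the count of parallel events -/
theorem theta {t T q q' s D M : ℕ} (hT : t = 2 * T) (hT1 : 128 ≤ T) (hq : q = 4 * q')
    (h1 : t ^ q ≤ 3 ^ q * D) (h2 : D * t ^ q ≤ 16 ^ s * M ^ 2)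
    (h3 : 12 * t ^ 4 * 16 ^ s ≤ 2 ^ q') : 12 * t ^ 4 * (T * (T + 1)) ^ q ≤ M ^ 2 := by
  have h4 : 2 ^ q' * (3 ^ q * (T * (T + 1)) ^ q) ≤ t ^ q * t ^ q := by
    have := Nat.pow_le_pow_left (quartic hT1) q'
    rw [mul_pow 2, ← pow_mul, ← pow_mul, ← hq, mul_pow 3, ← hT, sq t, mul_pow t] at this
    exact this
  refine Nat.le_of_mul_le_mul_left (c := 3 ^ q * 16 ^ s) ?_ (by positivity)
  calc 3 ^ q * 16 ^ s * (12 * t ^ 4 * (T * (T + 1)) ^ q)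
      = 12 * t ^ 4 * 16 ^ s * (3 ^ q * (T * (T + 1)) ^ q) := by ring
    _ ≤ t ^ q * t ^ q := (Nat.mul_le_mul_right _ h3).trans h4
    _ ≤ 3 ^ q * D * t ^ q := Nat.mul_le_mul_right _ h1
    _ = 3 ^ q * (D * t ^ q) := mul_assoc _ _ _
    _ ≤ 3 ^ q * (16 ^ s * M ^ 2) := Nat.mul_le_mul_left _ h2
    _ = _ := (mul_assoc _ _ _).symm

end GoodHypP

open GoodHypP

theorem sGood : SGood := by
  intro c cc hK hS hN
  have hm := hK.hm
  have hτ : c.τ = 4 * (c.m + 1) := hK.hτ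
  have hl : c.l + 9 = 4 * c.g := hK.hl
  have hs : 2 ≤ c.s := hK.hs0.trans hS.s1
  have hg : c.g = c.t * c.t.factorial := hK.hg
  have hη : 4 * c.η = c.g * (c.t - 1) := hK.hη
  have hκ1 : 4 ^ (c.κ + 1) ≤ (c.t ^ c.t * c.t.factorial) ^ c.t.factorial := hK.hκ1
  have hκ2 : (c.t ^ c.t * c.t.factorial) ^ c.t.factorial < 4 ^ (c.κ + 2) := hK.hκ2
  have hss : (200 * c.t) ^ 2 * (c.q + 1) ^ c.t ^ 2 ≤ 4 ^ c.s := hK.hs c.s hS.s1
  have hτt : c.τ ≤ c.t := Nat.lt_two_pow_self.le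
  obtain ⟨u, hu⟩ : ∃ u, u = 2 ^ (4 * c.m + 2) := ⟨_, rfl⟩
  have htu : c.t = 4 * u := by
    rw [hu, Cx.t, hτ, show 4 * (c.m + 1) = 2 + (4 * c.m + 2) by ring, pow_add]; norm_num
  have hu64 : 64 ≤ u := by
    rw [hu]; exact p2_le (a := 6) (by omega)
  have hF : c.t ≤ c.t.factorial := Nat.self_le_factorial _
  have hq : c.q = c.t * c.t.factorial * c.s := by rw [Cx.q, hg]
  have hq' : c.q = c.t * (c.t.factorial * c.s) := by rw [hq, mul_assoc]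
  have hh : 4 * c.h = c.q * (c.t - 1) := by
    rw [Cx.h, Cx.q, ← mul_assoc, hη]; ring
  obtain ⟨Ev, hE, hE1, hE2⟩ := exists_Ev c.t_pos (by omega : 0 < c.s) hq hh
  obtain ⟨D, hD⟩ : ∃ D, D = c.t.factorial ^ (c.t.factorial * c.s) := ⟨_, rfl⟩
  have hD0 : 0 < D := hD ▸ pow_pos c.t.factorial_pos _
  have hZ : (c.t ^ c.t * c.t.factorial) ^ (c.t.factorial * c.s) = D * c.t ^ c.q := by
    rw [mul_pow, ← pow_mul, ← hq', hD, mul_comm]
  have hM2 : c.M ^ 2 = 4 ^ (c.κ * c.s) := by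
    rw [Cx.M, Cx.k, ← pow_mul, mul_comm _ 2, pow_mul]; norm_num
  have hlo : 4 ^ c.s * c.M ^ 2 ≤ D * c.t ^ c.q := by
    rw [← hZ, hM2, ← pow_add, show c.s + c.κ * c.s = (c.κ + 1) * c.s by ring, pow_mul, pow_mul]
    exact Nat.pow_le_pow_left hκ1 _
  have hhi : D * c.t ^ c.q ≤ 16 ^ c.s * c.M ^ 2 := by
    rw [← hZ, hM2, show (16 : ℕ) = 4 ^ 2 by norm_num, ← pow_mul, ← pow_add,
      show 2 * c.s + c.κ * c.s = (c.κ + 2) * c.s by ring, pow_mul, pow_mul]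
    exact Nat.pow_le_pow_left hκ2.le _
  rw [← hD] at hE
  rw [hZ] at hE1 hE2
  have hμ : (200 * c.t) ^ 2 * c.M ^ 2 ≤ Ev.card := by
    refine Nat.le_of_mul_le_mul_right (c := (c.q + 1) ^ c.t ^ 2) ?_ (by positivity)
    calc (200 * c.t) ^ 2 * c.M ^ 2 * (c.q + 1) ^ c.t ^ 2
        = (200 * c.t) ^ 2 * (c.q + 1) ^ c.t ^ 2 * c.M ^ 2 := by ring
      _ ≤ 4 ^ c.s * c.M ^ 2 := Nat.mul_le_mul_right _ hss
      _ ≤ _ := hlo.trans hE1
  have h3 : c.t ^ c.q ≤ 3 ^ c.q * D := by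
    rw [hD, hq', pow_mul, pow_mul 3, ← mul_pow]
    exact Nat.pow_le_pow_left (pow_self_le _) _
  have hΘ : 12 * c.t ^ 4 * (2 * u * (2 * u + 1)) ^ c.q ≤ c.M ^ 2 := by
    refine theta (q' := u * (c.t.factorial * c.s)) (by omega) (by omega)
      (by rw [← mul_assoc, ← htu]; exact hq') h3 hhi ?_
    have e1 : c.t ^ 4 * 16 ^ c.s = 2 ^ (c.τ * 4 + 4 * c.s) := by
      rw [c.t_pow, pow_add, pow_mul 2 4]; norm_num
    have e2 : c.t * c.s ≤ c.t.factorial * c.s := Nat.mul_le_mul_right _ hF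
    have e3 : 64 * (c.t.factorial * c.s) ≤ u * (c.t.factorial * c.s) := Nat.mul_le_mul_right _ hu64
    have e4 : c.t ≤ c.t * c.s := Nat.le_mul_of_pos_right _ (by omega)
    have e5 : c.s ≤ c.t * c.s := Nat.le_mul_of_pos_left _ c.t_pos
    calc 12 * c.t ^ 4 * 16 ^ c.s = 12 * 2 ^ (c.τ * 4 + 4 * c.s) := by rw [mul_assoc, e1]
      _ ≤ 2 ^ 4 * 2 ^ (c.τ * 4 + 4 * c.s) := Nat.mul_le_mul_right _ (by norm_num)
      _ = 2 ^ (4 + (c.τ * 4 + 4 * c.s)) := (pow_add _ _ _).symm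
      _ ≤ _ := p2_le (by omega)
  have hTM : (2 * u) ^ c.q ≤ c.M := by
    refine (Nat.pow_le_pow_iff_left two_ne_zero).mp (le_trans ?_ hΘ)
    have : ((2 * u) ^ c.q) ^ 2 ≤ (2 * u * (2 * u + 1)) ^ c.q := by
      rw [← pow_mul, mul_comm c.q 2, pow_mul, sq]
      exact Nat.pow_le_pow_left (Nat.mul_le_mul_left _ (Nat.le_succ _)) _
    exact this.trans (Nat.le_mul_of_pos_left _ (by have := c.t_pos; positivity))
  have hDM : D ≤ c.M := by
    have e1 : 2 ^ (c.t.factorial * c.s) * D ≤ c.t ^ c.q := by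
      rw [hD, hq', pow_mul c.t, ← mul_pow]
      exact Nat.pow_le_pow_left (two_mul_factorial_le (by omega)) _
    have e2 : 16 ^ c.s ≤ 2 ^ (c.t.factorial * c.s) := by
      rw [show (16 : ℕ) = 2 ^ 4 by norm_num, ← pow_mul]
      exact p2_le (Nat.mul_le_mul_right _ (by omega))
    refine (Nat.pow_le_pow_iff_left two_ne_zero).mp
      (Nat.le_of_mul_le_mul_left (c := 16 ^ c.s) ?_ (by positivity))
    calc 16 ^ c.s * D ^ 2 = D * (16 ^ c.s * D) := by ring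
      _ ≤ D * c.t ^ c.q := Nat.mul_le_mul_left _ ((Nat.mul_le_mul_right _ e2).trans e1)
      _ ≤ _ := hhi
  have hB : 60 * c.N * c.t ^ c.q ≤ c.Cn * c.M := by
    have e1 : c.t ^ c.q = 2 ^ c.q * (2 * u) ^ c.q := by
      rw [← mul_pow, show 2 * (2 * u) = c.t by omega]
    calc 60 * c.N * c.t ^ c.q = 60 * (c.N * 2 ^ c.q) * (2 * u) ^ c.q := by rw [e1]; ring
      _ ≤ 64 * (c.N * 2 ^ c.q) * c.M :=
          Nat.mul_le_mul (Nat.mul_le_mul_right _ (by norm_num)) hTM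
      _ = _ := by rw [Cx.Cn]; ring
  have hB0 : 0 < c.Cn := by have := c.N_pos; unfold Cx.Cn; positivity
  have hNe : c.N = 2 ^ (c.l * c.s * c.m) := (pow_mul _ _ _).symm
  have hgs : c.t ≤ c.g * c.s :=
    (hg ▸ Nat.le_mul_of_pos_right _ c.t.factorial_pos : c.t ≤ c.g).trans
      (Nat.le_mul_of_pos_right _ (by omega))
  have hls : c.l * c.s + 9 * c.s = 4 * (c.g * c.s) := by rw [← add_mul, hl, mul_assoc]
  have hA : 2400 * c.N ≤ c.M := by
    refine le_trans ?_ hTM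
    have e1 : (2 * u) ^ c.q = 2 ^ ((4 * c.m + 3) * (c.g * c.s)) := by
      rw [hu, ← pow_succ', ← pow_mul, Cx.q]
    have e2 : c.l * c.s * c.m ≤ 4 * (c.g * c.s) * c.m := Nat.mul_le_mul_right _ (by omega)
    have e3 : (4 * c.m + 3) * (c.g * c.s) = 4 * (c.g * c.s) * c.m + 3 * (c.g * c.s) := by ring
    calc 2400 * c.N ≤ 2 ^ 12 * c.N := Nat.mul_le_mul_right _ (by norm_num)
      _ = 2 ^ (12 + c.l * c.s * c.m) := by rw [hNe, pow_add]
      _ ≤ _ := by rw [e1]; exact p2_le (by omega)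
  have hC : 120 * c.t * Ev.card * D * (c.N * c.b) ≤ c.M ^ 4 := by
    have e1 : 120 * c.t * 256 ^ c.s * (c.N * c.b) ≤ c.t ^ c.q := by
      have a1 : c.t * 256 ^ c.s * (c.N * c.b) =
          2 ^ (c.τ + 8 * c.s + (c.l * c.s * c.m + c.l * c.s)) := by
        rw [hNe, pow_add, pow_add, pow_add, pow_mul 2 8]; rfl
      have a2 : c.τ * c.q = (c.l * c.s + 9 * c.s) * (c.m + 1) := by
        rw [hls, hτ, Cx.q]; ring
      have a3 : (c.l * c.s + 9 * c.s) * (c.m + 1) =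
          c.l * c.s * c.m + c.l * c.s + 9 * (c.s * c.m) + 9 * c.s := by ring
      have a4 : 2 * c.m ≤ c.s * c.m := Nat.mul_le_mul_right _ hs
      calc 120 * c.t * 256 ^ c.s * (c.N * c.b) = 120 * (c.t * 256 ^ c.s * (c.N * c.b)) := by ring
        _ ≤ 2 ^ 7 * 2 ^ (c.τ + 8 * c.s + (c.l * c.s * c.m + c.l * c.s)) := by
            rw [a1]; exact Nat.mul_le_mul_right _ (by norm_num)
        _ = 2 ^ (7 + (c.τ + 8 * c.s + (c.l * c.s * c.m + c.l * c.s))) := (pow_add _ _ _).symm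
        _ ≤ _ := by rw [c.t_pow]; exact p2_le (by omega)
    refine Nat.le_of_mul_le_mul_left (c := 256 ^ c.s) ?_ (by positivity)
    have e2 : 256 ^ c.s * c.M ^ 4 = (16 ^ c.s * c.M ^ 2) * (16 ^ c.s * c.M ^ 2) := by
      rw [show (256 : ℕ) = 16 * 16 by norm_num, mul_pow]; ring
    calc 256 ^ c.s * (120 * c.t * Ev.card * D * (c.N * c.b))
        = Ev.card * (D * (120 * c.t * 256 ^ c.s * (c.N * c.b))) := by ring
      _ ≤ (D * c.t ^ c.q) * (D * c.t ^ c.q) := Nat.mul_le_mul hE2 (Nat.mul_le_mul_left _ e1)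
      _ ≤ _ := by rw [e2]; exact Nat.mul_le_mul hhi hhi
  exact ⟨D, Ev, hE, fun ia hia ic hic =>
    good_count (k := c.k) (T := 2 * u) rfl (by omega) c.t_pos hE c.x hN.bN hia hic c.V_pos hN.xV
      hμ hΘ hDM hB hB0 hA hC⟩

end Pool.Agent.P.MP_8f87b2_lc.KS
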