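import Pool.Agent.P.MP_8f87b2_lc.KS.Spec

/-!
# The simple loops of the k-SUM program
-/

namespace Pool.Agent.P.MP_8f87b2_lc.KS

open Finset

namespace HvP

variable {E : Env} {c : Cx}

theorem q_le (hB : Bnd c E) : c.q ≤ c.A :=
  (Nat.le_mul_of_pos_left _ hB.τ1).trans hB.τA

theorem Q_le (hB : Bnd c E) : c.Q ≤ E.Lim :=
  (Nat.le_mul_of_pos_left _ (by omega)).trans hB.lQ

theorem t_le (hB : Bnd c E) : c.t + 1 ≤ E.Lim :=
  (Nat.le_mul_of_pos_right _ c.M_pos).trans hB.ltM

theorem succ_mod (i p : ℕ) :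
    (i + 1) % p = if i % p + 1 = p then 0 else i % p + 1 := by
  rcases Nat.eq_zero_or_pos p with rfl | hp
  · simp
  have h1 := Nat.mod_lt i hp
  rw [← Nat.mod_add_mod]
  split_ifs with h
  · rw [h, Nat.mod_self]
  · exact Nat.mod_eq_of_lt (by omega)

theorem eeq_val (a b : ℕ) :
    ((if a < b + 1 then 1 else 0) &&& if b < a + 1 then 1 else 0 : ℕ) = if a = b then 1 else 0 := by
  split_ifs <;> first | rfl | omega

end HvP

open HvP

theorem sHv : SHv := by
  intro E c hB x hx σ t hP R hR0 hR w hv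
  have hbig := hB.big
  have hlM := hB.lM
  have hlA := hB.lA
  have hM := c.M_pos
  have hq := q_le hB
  have ht1 := t_le hB
  have hnR : c.nR = c.q + 2 := rfl
  have hT : c.tHv = c.q * 5 + 4 := rfl
  simp only [List.mem_cons, List.not_mem_nil, or_false, not_or] at hx
  obtain ⟨x1, x2, x3, x4⟩ := hx
  unfold pHv
  simp only [wp_blk_cons, wp_set, wp_blk_nil, Expr.safe, Expr.eval]
  refine ⟨by omega, by omega, ?_⟩
  refine wp_for c.q 3
    (fun u σ' => σ'.var 34 = Hd c.t u R w % c.M ∧ σ'.var 35 = ds c.t u w)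
    [57, 34, 35] [] false (by simp [Stmt.Within, blk, Stmt.wv, Stmt.wb, Stmt.rd]) (by decide)
    (by decide) (by decide) (by simp [hP.q]) (by omega) (by omega) (by simp [Hd, ds]) ?_ ?_
  · intro u σ₂ t₂ hu hF hiu ⟨h34, h35⟩
    have hx2 : σ₂.var x = w := by rw [hF.var x (by simp [x1, x2, x3, x4])]; simp [x1, x2, hv]
    have h6 : σ₂.var 6 = c.M := by rw [hF.var 6 (by decide)]; simp [hP.M]
    have h11 : σ₂.var 11 = c.τ := by rw [hF.var 11 (by decide)]; simp [hP.τ]
    have h12 : σ₂.var 12 = c.t - 1 := by rw [hF.var 12 (by decide)]; simp [hP.tm]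
    have hb : σ₂.bank 0 = R := by rw [hF.bank 0 (by decide)]; simp [hR0]
    have h1 := hR u (by omega)
    have h2 : Hd c.t u R w % c.M < c.M := Nat.mod_lt _ hM
    have h3 : ds c.t u w ≤ c.A :=
      ((ds_le c.t_pos u w).trans (Nat.mul_le_mul_right _ hu.le)).trans hB.JA
    have h4 : dg c.t u w < c.t := dg_lt c.t_pos _ _
    have h5 : c.τ * u ≤ c.A := (Nat.mul_le_mul_left _ hu.le).trans hB.τA
    have h7 : dg c.t u w * R u ≤ c.t * c.M := Nat.mul_le_mul h4.le h1.le
    have h8 : c.t * c.M + c.M ≤ E.Lim := by have := hB.ltM; rwa [Nat.add_mul, one_mul] at this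
    have e1 : Hd c.t (u + 1) R w = Hd c.t u R w + dg c.t u w * R u := by
      simp [Hd, sum_range_succ]
    have e2 : ds c.t (u + 1) w = ds c.t u w + dg c.t u w := sum_range_succ _ _
    rw [e1, e2]
    simp only [wp_blk_cons, wp_set, wp_blk_nil]
    simp only [Expr.safe, Expr.eval, BOp.safe, BOp.eval, St.setv_var, St.setv_bank, hx2, h6, h11,
      h12, hb, hiu, h34, h35, Nat.reduceEqDiff, if_true, if_false, c.edg_eq, c.and_M,
      true_and, and_true, Nat.mod_add_mod]
    omega
  · intro σ₂ t₂ _ ⟨h34, h35⟩ ht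
    exact ⟨h34, h35, by omega⟩

theorem sChk : SChk := by
  intro E c hB x hx σ t hP p z st h5 hv h64
  have hbig := hB.big
  have hlA := hB.lA
  have hmA := hB.mA
  have hm1 := hB.m1
  have hQ := Q_le hB
  have hbN := hB.bN
  have hNQ := hB.NQ
  have hT : c.tChk = c.m * 5 + 2 := rfl
  simp only [List.mem_cons, List.not_mem_nil, or_false, not_or] at hx
  obtain ⟨x1, x2, x3⟩ := hx
  unfold pChk
  refine wp_for c.m 3 (fun j σ' => σ'.var 64 = chn (c.col p) c.b c.Q z st j)
    [57, 64] [] false (by simp [Stmt.Within, blk, Stmt.wv, Stmt.wb, Stmt.rd]) (by decide)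
    (by decide) (by decide) hP.m (by omega) (by omega) (by simp [chn, h64]) ?_ ?_
  · intro j σ₂ t₂ hj hF hij hI
    have hP' := hP.frame hF (by decide)
    have hx2 : σ₂.var x = z := by rw [hF.var x (by simp [x1, x2, x3]), hv]
    have hb : σ₂.bank 5 = c.col p := by rw [hF.bank 5 (by decide), h5]
    have h4 : dg c.b j z < c.b := dg_lt c.b_pos _ _
    have h6 : c.lb * j ≤ c.A := (Nat.mul_le_mul_left _ hj.le).trans hB.bA
    simp only [wp_blk_cons, wp_set, wp_blk_nil, wp_ite]
    simp only [Expr.safe, Expr.eval, BOp.safe, BOp.eval, St.setv_var, hx2, hP'.lb,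
      hP'.bm, hP'.Q, hb, hij, hI, Nat.reduceEqDiff, if_true, if_false, c.ecd_eq,
      true_and, and_true, chn]
    refine ⟨by omega, fun h => ?_, fun h => ?_⟩
    · have h' : chn (c.col p) c.b c.Q z st j < c.col p (dg c.b j z) := by
        by_contra hc
        simp [hc] at h
      exact ⟨by rw [if_pos h'], by omega⟩
    · have h' : ¬ chn (c.col p) c.b c.Q z st j < c.col p (dg c.b j z) := by
        intro hc
        simp [hc] at h
      exact ⟨by rw [if_neg h'], by omega⟩
  · intro σ₂ t₂ _ hI ht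
    exact ⟨hI, by omega⟩

theorem sCol : SCol := by
  intro E c hB σ t hP p h40 hp h5
  have hbig := hB.big
  have hlA := hB.lA
  have hQ := Q_le hB
  have hnb := hB.nb
  have hbN := hB.bN
  have hNQ := hB.NQ
  unfold pCol
  simp only [wp_blk_cons, wp_set, wp_blk_nil, Expr.safe, Expr.eval]
  refine ⟨by omega, ?_⟩
  refine wp_for c.n 4
    (fun i σ' => σ'.var 63 = i % p ∧ (∀ d, 1 ≤ d → d ≤ i → σ'.bank 5 d = d % p + 1) ∧
      ∀ d, ¬ (1 ≤ d ∧ d ≤ c.n) → σ'.bank 5 d = 0)
    [63] [5] false (by decide) (by decide) (by decide) (by decide) (by simp [hP.n]) (by omega)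
    (by omega) ⟨by simp, fun d h1 h2 => by omega, by simpa using h5⟩ ?_ ?_
  · intro i σ₂ t₂ hi hF h33 ⟨h63, hI, hZ⟩
    have h40' : σ₂.var 40 = p := by rw [hF.var 40 (by decide)]; simp [h40]
    have h1 : i % p ≤ i := Nat.mod_le _ _
    have h2 := succ_mod i p
    have key : ∀ v, v = (i + 1) % p →
        (∀ d, 1 ≤ d → d ≤ i + 1 → Function.update (σ₂.bank 5) (i + 1) (v + 1) d = d % p + 1) ∧
          ∀ d, ¬ (1 ≤ d ∧ d ≤ c.n) → Function.update (σ₂.bank 5) (i + 1) (v + 1) d = 0 := by
      rintro v rfl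
      refine ⟨fun d a1 a2 => ?_, fun d a1 => ?_⟩
      · rw [Function.update_apply]
        split_ifs with h
        · rw [h]
        · exact hI d a1 (by omega)
      · rw [Function.update_apply, if_neg (by omega)]
        exact hZ d a1
    simp only [wp_blk_cons, wp_set, wp_blk_nil, wp_ite, wp_st, wp_skip]
    simp only [Expr.safe, Expr.eval, BOp.safe, BOp.eval, St.setv_var, St.setv_bank, St.setm_var,
      St.setm_bank, h40', h33, h63, Nat.reduceEqDiff, if_true, if_false, true_and, and_true,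
      eeq_val]
    refine ⟨by omega, by omega, fun h => ?_, fun h => ?_⟩
    · have h' : i % p + 1 = p := by
        by_contra hc
        simp [hc] at h
      rw [if_pos h'] at h2
      exact ⟨by omega, by omega, by omega, by omega, ⟨h2.symm, key 0 h2.symm⟩, by omega⟩
    · have h' : ¬ i % p + 1 = p := by
        intro hc
        simp [hc] at h
      rw [if_neg h'] at h2
      exact ⟨by omega, by omega, by omega, ⟨h2.symm, key _ h2.symm⟩, by omega⟩
  · intro σ₂ t₂ _ ⟨_, hI, hZ⟩ ht
    refine ⟨funext fun d => ?_, by omega⟩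
    unfold Cx.col
    split_ifs with h
    · exact hI d h.1 h.2
    · exact hZ d h

theorem sRead : SRead := by
  intro E c hB σ t hP
  have hbig := hB.big
  have hlA := hB.lA
  have hq := q_le hB
  have hq1 := hB.q1
  have hnR : c.nR = c.q + 2 := rfl
  have hlM := hB.lM
  have hM := c.M_pos
  refine wp_for c.nR (4 * c.k + 4)
    (fun m σ' => (∀ i < m, σ'.bank 0 i = bits E.ω (σ.pos + i * c.k) c.k) ∧
      σ'.pos = σ.pos + m * c.k) [32, 30, 31] [0] true (by decide) (by decide) (by decide)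
    (by decide) hP.nR (by omega) (by omega) (by simp) ?_ fun σ' t' _ hI ht => ⟨hI.1, by omega⟩
  intro m σ' t' hm hF hi ⟨hI, hpos⟩
  have hP' := hP.frame hF (by decide)
  rw [wp_blk_cons]
  refine (pWord_spec (k := c.k) (by decide) (by decide) (by decide) hP'.M
    (by change 2 * c.M < E.W; omega)).call [32, 30, 31] [] true (by decide) ?_
  rintro σ₂ t₂ hF₂ ⟨h1, h2, h3⟩
  have h33 : σ₂.var 33 = m := (hF₂.var 33 (by decide)).trans hi
  have hb : σ₂.bank 0 = σ'.bank 0 := hF₂.bank 0 (by decide)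
  simp only [wp_blk_cons, wp_st, wp_blk_nil]
  simp [h33, h1, hb, h2, hpos]
  refine ⟨by omega, ⟨fun i hi => ?_, by ring⟩, by omega⟩
  rw [Function.update_apply]
  split_ifs with h
  · rw [h]
  · exact hI i (by omega)

theorem sZero : SZero := by
  intro E c hB σ t hP
  have hbig := hB.big
  have hlM := hB.lM
  have hM := c.M_pos
  refine wp_for (2 * c.M) 1 (fun m σ' => ∀ a < m, σ'.bank 12 a = 0) [] [12]
    false (by decide) (by decide) (by decide) (by decide) hP.M2 (by omega) (by omega) (by simp) ?_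
    fun σ' t' _ hI ht => ⟨hI, by omega⟩
  intro i σ' t' hi hF h33 hI
  simp [h33]
  refine ⟨by omega, by omega, fun a ha => ?_⟩
  rw [Function.update_apply]
  split_ifs with h
  · rfl
  · exact hI a (by omega)

end Pool.Agent.P.MP_8f87b2_lc.KS
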