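import Pool.Agent.P.MP_8f87b2_lc.KS.Spec

/-!
# The constants and the size facts
-/

namespace Pool.Agent.P.MP_8f87b2_lc.KS

open Finset

namespace NumP

theorem p2_le {a b : ℕ} (h : a ≤ b) : 2 ^ a ≤ 2 ^ b := Nat.pow_le_pow_right (by norm_num) h

theorem p2_lt {a b : ℕ} (h : a < b) : 2 ^ a < 2 ^ b := Nat.pow_lt_pow_right (by norm_num) h

theorem p2_mul {x y a b : ℕ} (hx : x ≤ 2 ^ a) (hy : y ≤ 2 ^ b) : x * y ≤ 2 ^ (a + b) := by
  rw [pow_add]; exact Nat.mul_le_mul hx hy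

theorem p2_add {x y a : ℕ} (hx : x ≤ 2 ^ a) (hy : y ≤ 2 ^ a) : x + y ≤ 2 ^ (a + 1) := by
  rw [pow_succ]; omega

theorem p2_self (a : ℕ) : a ≤ 2 ^ a := Nat.lt_two_pow_self.le

theorem exists_s0 (C g k : ℕ) : ∃ s0, 2 ≤ s0 ∧ ∀ s, s0 ≤ s → C * (g * s + 1) ^ k ≤ 4 ^ s := by
  have h := tendsto_pow_const_div_const_pow_of_one_lt k (show (1 : ℝ) < 4 by norm_num)
  have hp : (0 : ℝ) < (C * (g + 1) ^ k : ℕ) + 1 := by positivity
  obtain ⟨s1, hs1⟩ := Filter.eventually_atTop.1 (h.eventually_le_const (one_div_pos.2 hp))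
  refine ⟨max 2 s1, le_max_left _ _, fun s hs => ?_⟩
  have h2 : 2 ≤ s := (le_max_left _ _).trans hs
  have h3 := hs1 s ((le_max_right _ _).trans hs)
  rw [div_le_div_iff₀ (by positivity) hp, one_mul] at h3
  have h4 : s ^ k * (C * (g + 1) ^ k + 1) ≤ 4 ^ s := by exact_mod_cast h3
  have h5 : (g * s + 1) ^ k ≤ (g + 1) ^ k * s ^ k := by
    rw [← mul_pow]
    exact Nat.pow_le_pow_left (by rw [add_mul]; omega) k
  calc C * (g * s + 1) ^ k ≤ C * ((g + 1) ^ k * s ^ k) := Nat.mul_le_mul_left _ h5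
    _ = s ^ k * (C * (g + 1) ^ k) := by ring
    _ ≤ s ^ k * (C * (g + 1) ^ k + 1) := Nat.mul_le_mul_left _ (Nat.le_succ _)
    _ ≤ 4 ^ s := h4

theorem exists_log {Z : ℕ} (h : 4 ≤ Z) : ∃ κ, 4 ^ (κ + 1) ≤ Z ∧ Z < 4 ^ (κ + 2) := by
  have h1 : 0 < Nat.log 4 Z := Nat.log_pos (by norm_num) h
  refine ⟨Nat.log 4 Z - 1, ?_, ?_⟩
  · rw [Nat.sub_add_cancel h1]
    exact Nat.pow_log_le_self 4 (by omega)
  · rw [show Nat.log 4 Z - 1 + 2 = (Nat.log 4 Z).succ by omega]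
    exact Nat.lt_pow_succ_log_self (by norm_num) Z

theorem four_le {t : ℕ} (ht : 4 ≤ t) : 4 ≤ (t ^ t * t.factorial) ^ t.factorial := by
  have h1 : t ≤ t ^ t := Nat.le_self_pow (by omega) t
  have h2 : t ^ t ≤ t ^ t * t.factorial := Nat.le_mul_of_pos_right _ t.factorial_pos
  exact (ht.trans (h1.trans h2)).trans (Nat.le_self_pow t.factorial_ne_zero _)

theorem abs_val_le {b m : ℕ} {y : ℕ → ℤ} {B : ℤ} (h : ∀ d, |y d| ≤ B) (z : ℕ) :
    |val b m y z| ≤ m * B := by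
  unfold val
  refine (abs_sum_le_sum_abs _ _).trans ?_
  have := sum_le_card_nsmul (range m) (fun j => |y (dg b j z)|) B fun j _ => h _
  rwa [card_range, nsmul_eq_mul] at this

end NumP

open NumP

theorem sK : SK := by
  intro m cc hm
  obtain ⟨u, hu, hu1⟩ : ∃ u, 2 ^ (4 * (m + 1)) = 4 * u ∧ 1 ≤ u :=
    ⟨2 ^ (4 * m + 2), by rw [show 4 * (m + 1) = 2 + (4 * m + 2) by ring, pow_add]; norm_num,
      Nat.one_le_two_pow⟩
  have ht : 4 ≤ 2 ^ (4 * (m + 1)) := by omega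
  obtain ⟨κ, hκ1, hκ2⟩ := exists_log (four_le ht)
  obtain ⟨g, hg⟩ : ∃ g, g = 2 ^ (4 * (m + 1)) * (2 ^ (4 * (m + 1))).factorial := ⟨_, rfl⟩
  have hg4 : 4 ≤ g := hg ▸ ht.trans (Nat.le_mul_of_pos_right _ (Nat.factorial_pos _))
  obtain ⟨s0, hs0, hs⟩ := exists_s0 ((200 * 2 ^ (4 * (m + 1))) ^ 2) g ((2 ^ (4 * (m + 1))) ^ 2)
  obtain ⟨η, hη⟩ : ∃ η, 4 * η = g * (2 ^ (4 * (m + 1)) - 1) :=
    ⟨u * (2 ^ (4 * (m + 1))).factorial * (2 ^ (4 * (m + 1)) - 1), by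
      rw [hg, ← mul_assoc, ← mul_assoc, ← hu]⟩
  obtain ⟨l, hl⟩ : ∃ l, l + 9 = 4 * g := ⟨4 * g - 9, by omega⟩
  obtain ⟨a, ha⟩ : ∃ a, (cc + 2 * (2 * m + 1) ^ 2) * l + 2 * (g * 2 ^ (4 * (m + 1))) + κ + η + s0 +
    m + 4 * (m + 1) + 100 ≤ a := ⟨_, le_rfl⟩
  exact ⟨⟨m, 4 * (m + 1), g, l, κ, η, s0, a⟩, rfl, hm, rfl, hg, hl, hη, hκ1, hκ2, hs0, hs, ha⟩

theorem sBnd : SBnd := by
  intro E c cc w hK hS hW hw hL hn hin hy0 hy
  have hm := hK.hm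
  have hτ := hK.hτ
  have hl := hK.hl
  have hs : 2 ≤ c.s := hK.hs0.trans hS.s1
  have hτt : c.τ ≤ c.t := p2_self _
  have hη : 4 * c.η = c.g * (c.t - 1) := hK.hη
  have hg : c.t ≤ c.g := by
    rw [hK.hg]; exact Nat.le_mul_of_pos_right _ (Nat.factorial_pos _)
  have hA : cc * c.lb + 2 * ((2 * c.m + 1) ^ 2 * c.lb) + 2 * c.J + c.k + c.h + c.s0 * c.s +
      c.m * c.s + c.τ * c.s + 100 * c.s ≤ c.A := by
    refine le_of_eq_of_le ?_ (Nat.mul_le_mul_right c.s hK.ha)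
    unfold Cx.lb Cx.J Cx.q Cx.k Cx.h Cx.t
    ring
  have hms : c.m ≤ c.m * c.s := Nat.le_mul_of_pos_right _ (by omega)
  have hτs : c.τ ≤ c.τ * c.s := Nat.le_mul_of_pos_right _ (by omega)
  have hτq : c.τ * c.q ≤ c.J := by
    rw [Cx.J, mul_comm]; exact Nat.mul_le_mul_left _ hτt
  have hqJ : c.q ≤ c.J := Nat.le_mul_of_pos_right _ c.t_pos
  have hbm : c.lb * c.m ≤ (2 * c.m + 1) ^ 2 * c.lb := by
    rw [mul_comm]; exact Nat.mul_le_mul_right _ (by nlinarith)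
  have hs3 : 3 * c.s ≤ c.q := Nat.mul_le_mul_right _ (by omega)
  have hqL : c.q ≤ c.L := by
    have h1 : c.g * 2 ≤ c.g * (c.t - 1) := Nat.mul_le_mul_left _ (by omega)
    have h2 : c.g ≤ 2 * c.η := by omega
    unfold Cx.q Cx.L Cx.h
    rw [← mul_assoc]
    exact Nat.mul_le_mul_right _ h2
  have hhJ : c.h ≤ c.J := by
    have h1 : c.g * (c.t - 1) ≤ c.g * c.t := Nat.mul_le_mul_left _ (Nat.sub_le _ _)
    have h2 : c.η ≤ c.g * c.t := by omega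
    unfold Cx.h Cx.J Cx.q
    rw [mul_right_comm]
    exact Nat.mul_le_mul_right _ h2
  have hQ : c.Q = 2 ^ (c.τ * c.q) := c.t_pow _
  have hN : c.N = 2 ^ (c.lb * c.m) := (pow_mul _ _ _).symm
  have hG : c.G ≤ 2 ^ (c.τ * c.q) := by
    rw [Cx.G, c.t_pow]; exact p2_le (Nat.mul_le_mul_left _ hs3)
  have hbN : c.b ≤ c.N := Nat.le_self_pow (by omega) _
  have hNQ : c.N < c.Q := by
    rw [hQ, hN]
    refine p2_lt ?_
    have h1 : c.l * c.m < c.τ * c.g := by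
      have : c.l * c.m ≤ 4 * c.g * c.m := Nat.mul_le_mul_right _ (by omega)
      have h2 : c.τ * c.g = 4 * c.g * c.m + 4 * c.g := by rw [hτ]; ring
      omega
    unfold Cx.lb Cx.q
    rw [mul_right_comm, ← mul_assoc]
    exact Nat.mul_lt_mul_of_pos_right h1 (by omega)
  have hLd : c.L = 2 * c.h := rfl
  refine ⟨⟨by omega, hm, by omega, hs3, hqL, hn, hin, hy0, hS.nN, hbN, hNQ, ?_, ?_, ?_, ?_, ?_, ?_,
    ?_, by omega, by omega, by omega, by omega, by omega, ?_, ?_, ?_⟩,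
    ⟨hm, hs3, hS.nN, hbN, hNQ, hy0, fun z _ => ?_, ?_, by omega⟩⟩
  · rw [hL, hW]
    exact lt_of_le_of_lt (p2_mul (a := 11) (by norm_num) le_rfl) (p2_lt (by omega))
  · rw [hL]
    exact (p2_mul (p2_self _) hQ.le).trans (p2_le (by omega))
  · rw [hL]
    exact (p2_mul (a := 2) (b := c.k) (by norm_num) le_rfl).trans (p2_le (by omega))
  · rw [hL]
    exact (p2_mul (b := c.k) (p2_add (a := c.τ) le_rfl Nat.one_le_two_pow) le_rfl).trans
      (p2_le (by omega))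
  · rw [hL]
    exact (p2_add (p2_mul (a := 2) (by norm_num) (p2_mul hG hN.le)) Nat.one_le_two_pow).trans
      (p2_le (by omega))
  · rw [hL]
    exact (p2_mul (a := 7) (by norm_num) (p2_self _)).trans (p2_le (by omega))
  · rw [hL]
    exact (p2_mul (p2_mul (a := 6) (by norm_num) hN.le) le_rfl).trans (p2_le (by omega))
  · rw [hW, c.MV]
    exact lt_of_le_of_lt (p2_mul (a := 1) (by norm_num) le_rfl) (p2_lt (by omega))
  · rw [hW, c.MV]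
    exact pow_dvd_pow _ (by omega)
  · rw [hW, Cx.T, ← pow_mul]
    exact pow_dvd_pow _ (by omega)
  · have h1 : c.n ^ cc ≤ 2 ^ (cc * c.lb) := by
      rw [mul_comm, pow_mul]; exact Nat.pow_le_pow_left hS.nN.le cc
    have h2 : 4 * (c.m * c.n ^ cc) ≤ c.V :=
      (p2_mul (a := 2) (by norm_num) (p2_mul (p2_self _) h1)).trans (p2_le (by omega))
    have h3 : (4 : ℤ) * (c.m * (c.n : ℤ) ^ cc) ≤ c.V := by exact_mod_cast h2
    exact (mul_le_mul_of_nonneg_left (abs_val_le hy z) (by norm_num)).trans h3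
  · have hV : c.V ^ 2 ≤ 2 ^ (c.A * 2) := (pow_mul _ _ _).ge
    exact lt_of_le_of_lt (p2_mul (p2_mul (a := 3) (by norm_num)
      (p2_mul (p2_mul hQ.le (p2_mul hN.le hN.le)) le_rfl)) hV) (p2_lt (by omega))

end Pool.Agent.P.MP_8f87b2_lc.KS
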