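import Pool.Agent.P.MP_8f87b2_lc.KS.Spec
import Pool.Agent.P.MP_8f87b2_lc.KS.Cnt

/-!
# Evaluation of one output and of one list entry
-/

namespace Pool.Agent.P.MP_8f87b2_lc.KS

open Finset

namespace OneP

variable {E : Env} {c : Cx}

theorem nth_spec {P : ℕ → Prop} [DecidablePred P] {j n : ℕ} (hj : j < Nat.count P n) :
    P (Nat.nth P j) ∧ Nat.count P (Nat.nth P j) = j :=
  ⟨Nat.nth_mem j fun hf => hj.trans_le (Nat.count_le_card hf n),
    Nat.count_nth fun hf => hj.trans_le (Nat.count_le_card hf n)⟩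

theorem Q3_le (hB : Bnd c E) : 3 * c.Q ≤ E.Lim :=
  (Nat.mul_le_mul_right _ (by omega)).trans hB.lQ

theorem len_le_Lb (e : ℕ) : Nat.count (Pl c.t c.q e c.s1) c.Q ≤ c.Lb := by
  rw [Nat.count_eq_card_filter_range]
  refine le_trans (card_le_card fun w hw => ?_) (count_local (t := c.t) c.q)
  rw [mem_filter] at hw ⊢
  refine ⟨hw.1, hw.2.2.2.trans ?_⟩
  unfold Cx.s1
  omega

theorem zero_mem (e : ℕ) : Pl c.t c.q e c.s1 0 :=
  ⟨c.Q_pos, fun a _ => by simp, by simp⟩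

theorem GQ (hB : Bnd c E) : c.G * c.Q1 = c.Q := by
  unfold Cx.G Cx.Q1 Cx.Q
  rw [← pow_add, Nat.add_sub_cancel' hB.s3]

theorem eeq_val (a b : ℕ) :
    ((if a < b + 1 then 1 else 0) &&& if b < a + 1 then 1 else 0 : ℕ) = if a = b then 1 else 0 := by
  split_ifs <;> first | rfl | omega

/-- the rows needed for the row of a listed number -/
theorem next (hB : Bnd c E) {e : ℕ} (he : e < c.Q) (hc : ds c.t c.q e = c.L) {j a : ℕ}
    (hj : j < Nat.count (Pl c.t c.q e c.s1) c.Q) (ha : a < c.q)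
    (h1 : 1 ≤ dg c.t a (e - Nat.nth (Pl c.t c.q e c.s1) j)) :
    (∃ j' < Nat.count (Pl c.t c.q e c.s1) c.Q, j < j' ∧
      e - Nat.nth (Pl c.t c.q e c.s1) j - c.t ^ a = e - Nat.nth (Pl c.t c.q e c.s1) j') ∨
      ds c.t c.q (e - Nat.nth (Pl c.t c.q e c.s1) j - c.t ^ a) ≤ c.d := by
  obtain ⟨hP, hcnt⟩ := nth_spec hj
  generalize Nat.nth (Pl c.t c.q e c.s1) j = y at hP hcnt h1 ⊢
  obtain ⟨y1, y2, y3⟩ := hP
  obtain ⟨-, hd⟩ := sub_nb c.t_pos y1 he y2
  have h2 := hd a ha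
  have h3 := dg_lt c.t_pos a e
  rcases y3.lt_or_eq with h | h
  · have h4 : dg c.t a y + 1 < c.t := by omega
    have h5 : y + c.t ^ a < c.t ^ c.q := add_pow_lt ha y1 h4
    have h6 : Pl c.t c.q e c.s1 (y + c.t ^ a) := by
      refine ⟨h5, fun i hi => ?_, by rw [ds_add_pow ha h4]; omega⟩
      rw [dg_add_pow h4]
      split_ifs with hia
      · rw [hia]; omega
      · exact y2 i hi
    refine Or.inl ⟨Nat.count (Pl c.t c.q e c.s1) (y + c.t ^ a), Nat.count_strict_mono h6 h5, ?_,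
      by rw [Nat.nth_count h6, Nat.sub_sub]⟩
    rw [← hcnt]
    exact Nat.count_strict_mono ⟨y1, y2, y3⟩ (Nat.lt_add_of_pos_right (pow_pos c.t_pos _))
  · have h4 := ds_of_dg hd
    have h5 := ds_sub_pow c.t_pos ha h1
    have h6 := hB.q1
    refine Or.inr ?_
    unfold Cx.s1 at h
    unfold Cx.d
    omega

theorem top (h2 : SRow) (hB : Bnd c E) {σ : St} {t : ℕ} {R : ℕ → ℕ} {r : ℕ} {u : ℕ × ℕ}
    (hT : Tab c E R r u σ) {e : ℕ} (he : e < c.Q) (hc : ds c.t c.q e = c.L)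
    (h42 : σ.var 42 = e) (h22 : σ.var 22 = Nat.count (Pl c.t c.q e c.s1) c.Q)
    (h3 : LstAt c 3 (Pl c.t c.q e c.s1) (Nat.count (Pl c.t c.q e c.s1) c.Q) σ) :
    WP E pTop (fun σ' t' => Keeps c E R r u σ σ' ∧
      (σ'.var 38 : ZMod E.W) = (c.Uz R r u e : ℤ) ∧
      t' ≤ t + (c.Lb * (c.tRow + 3) + 2)) σ t := by
  have hbig := hB.big
  have hQ := Q3_le hB
  have hQ0 := c.Q_pos
  have hLb := len_le_Lb (c := c) e
  have hpos : 0 < Nat.count (Pl c.t c.q e c.s1) c.Q :=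
    (Nat.zero_le _).trans_lt (Nat.count_strict_mono (zero_mem e) hQ0)
  have hlQ : Nat.count (Pl c.t c.q e c.s1) c.Q ≤ c.Q := Nat.count_le _
  have hmem : ∀ j < Nat.count (Pl c.t c.q e c.s1) c.Q, Nat.nth (Pl c.t c.q e c.s1) j ≤ e :=
    fun j hj => (sub_nb c.t_pos (nth_spec hj).1.1 he (nth_spec hj).1.2.1).1
  have hnx := fun j a hj ha h1 => next hB he hc (j := j) (a := a) hj ha h1
  have hz : Nat.nth (Pl c.t c.q e c.s1) 0 = 0 := Nat.nth_zero_of_zero (zero_mem e)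
  unfold LstAt at h3
  generalize Nat.count (Pl c.t c.q e c.s1) c.Q = len at *
  generalize Nat.nth (Pl c.t c.q e c.s1) = f at *
  unfold pTop
  refine wp_for len (c.tRow + 1)
    (fun k σ' => Keeps c E R r u σ σ' ∧
      (∀ j < len, len ≤ j + k → RowOK c E R r u σ' (e - f j)) ∧
      (0 < k → (σ'.var 38 : ZMod E.W) = (c.Uz R r u (e - f (len - k)) : ℤ)))
    [36, 34, 35, 37, 57, 38, 39, 41, 44, 45, 62] [13, 14, 15] false (by decide) (by decide)
    (by decide) (by decide) h22 (by omega) (by omega)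
    ⟨fun _ _ h => h, fun j h1 h2 => by omega, fun h => by omega⟩ ?_ ?_
  · rintro k σ₁ t₁ hk hF h49 ⟨hK, hrows, -⟩
    have e42 : σ₁.var 42 = e := (hF.var 42 (by decide)).trans h42
    have e22 : σ₁.var 22 = len := (hF.var 22 (by decide)).trans h22
    have hj : len - (k + 1) < len := by omega
    have e3 : σ₁.bank 3 (2 * (len - (k + 1))) = f (len - (k + 1)) := by
      rw [hF.bank 3 (by decide)]
      exact (h3 _ hj).1
    have hle := hmem _ hj
    simp only [wp_blk_cons, wp_set, wp_blk_nil, Expr.safe, Expr.eval, BOp.safe, BOp.eval, e42,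
      e22, h49, e3, true_and]
    refine ⟨by omega, ?_⟩
    have hA : Acc c E R r u (σ₁.setv 36 (e - f (len - (k + 1)))) :=
      (hT.acc.frame hF (by decide) (by decide)).frame (frame_setv _ _ _) (by decide) (by decide)
    refine (h2 hB hA (w := e - f (len - (k + 1))) (by omega)
      (by rw [St.setv_var, if_pos rfl]) fun a ha h1 => ?_).mono ?_
    · rcases hnx _ a hj ha h1 with ⟨j', b1, b2, b3⟩ | b4
      · rw [b3]
        exact hrows j' b1 (by omega)
      · exact hK _ (by omega) (hT.rows _ (by omega) b4)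
    · rintro σ₂ t₂ ⟨a1, a2, a3, a4⟩
      refine ⟨⟨fun w hw h => a2 w hw (hK w hw h), fun j b1 b2 => ?_, fun _ => ?_⟩, by omega⟩
      · by_cases h : len ≤ j + k
        · exact a2 _ (by omega) (hrows j b1 h)
        · obtain rfl : j = len - (k + 1) := by omega
          exact a1
      · rw [St.setv_var, if_neg (by decide)]
        exact a3
  · rintro σ₁ t₁ - ⟨hK, -, h38⟩ ht
    have h4 : len * (c.tRow + 3) ≤ c.Lb * (c.tRow + 3) := Nat.mul_le_mul_right _ hLb
    have h5 := h38 hpos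
    rw [Nat.sub_self, hz, Nat.sub_zero] at h5
    refine ⟨hK, h5, ?_⟩
    rw [show c.tRow + 1 + 2 = c.tRow + 3 from rfl] at ht
    omega

end OneP

open OneP

theorem sOne (h1 : SGen) (h2 : SRow) : SOne := by
  intro E c hB σ t R r u hT e z he hc hz h42 h43
  have hbig := hB.big
  have hQ := Q3_le hB
  have hNQ := hB.NQ
  have hP := hT.acc.ins.pre.par
  have hLb := len_le_Lb (c := c) e
  unfold pOne
  rw [wp_blk_cons]
  refine (h1 hB (b := 3) (x := 42) (m := 21) (len := 22) (by decide) (by decide)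
    (by decide) hP he h42 hP.s1).call [22, 45, 47, 48] [3] false (by decide) ?_
  rintro σ₁ t₁ hF₁ ⟨h22, h3, ht₁⟩
  have hK₁ : Keeps c E R r u σ σ₁ := Keeps.of_frame hF₁ (by decide)
  have hT₁ := hT.keep hF₁ (by decide) (by decide) hK₁
  rw [wp_blk_cons]
  refine (top h2 hB hT₁ he hc ((hF₁.var 42 (by decide)).trans h42) h22 h3).call
    [49, 36, 34, 35, 37, 57, 38, 39, 41, 44, 45, 62] [13, 14, 15] false (by decide) ?_
  rintro σ₂ t₂ hF₂ ⟨hK₂, h38, ht₂⟩
  have hA₂ := hT₁.acc.frame hF₂ (by decide) (by decide)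
  have hP₂ := hA₂.ins.pre.par
  have e4 := hA₂.ins.pre.b4 z hz
  have e43 : σ₂.var 43 = z := by rw [hF₂.var 43 (by decide), hF₁.var 43 (by decide), h43]
  have e0 : σ₂.var 0 = σ.var 0 := by rw [hF₂.var 0 (by decide), hF₁.var 0 (by decide)]
  have hand : ∀ a : ℕ, a &&& (c.T ^ 3 - 1) = a % c.T ^ 3 := fun a => by
    rw [Cx.T, ← pow_mul, Nat.and_two_pow_sub_one_eq_mod]
  have hK := hK₁.trans hK₂
  have htm : t₂ + 3 ≤ t + c.tOne := by
    have h4 : c.q * (Nat.count (Pl c.t c.q e c.s1) c.Q * 7 + 4) ≤ c.q * (c.Lb * 7 + 4) :=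
      Nat.mul_le_mul_left _ (by omega)
    unfold Cx.tGen at ht₁
    unfold Cx.tOne Cx.tGen
    omega
  simp only [wp_blk_cons, wp_ite, wp_set, wp_skip, wp_blk_nil, Expr.safe, Expr.eval, BOp.safe,
    BOp.eval, St.setv_var, e43, e0, hP₂.T, hP₂.T3, hand, Nat.reduceEqDiff, if_true,
    if_false, true_and, and_true]
  generalize hy : _ % c.T ^ 3 = y
  have hy' : (y : ℤ) = (c.Uz R r u e * wt c.T (c.x z)) % c.T ^ 3 := by
    rw [← hy, cast_mod_eq (z := c.Uz R r u e * wt c.T (c.x z)) _ hB.dT]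
    · push_cast; rfl
    · rw [cast_rmul, cast_wt _ _ _ e4, h38]; push_cast; rfl
  have hte : c.test R r u e z ↔ 0 < y ∧ y < c.T := by
    rw [Cx.test, ← hy']; omega
  rw [hte]
  refine ⟨by omega, by omega,
    fun h => ⟨by omega, hK, fun _ => trivial, fun h' => ?_, by omega⟩,
    fun h => ⟨hK, fun h' => ?_, fun _ => trivial, by omega⟩⟩
  · exfalso; apply h'
    split_ifs at h <;> simp at h; omega
  · rw [if_pos h'.1, if_pos h'.2] at h; simp at h

theorem sItem (h1 : SHv) (h2 : SChk) (h3 : SOne) : SItem := by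
  intro E c hB σ t R r u hT w m hw hm h50 h51
  have hbig := hB.big
  have hQ := Q3_le hB
  have hlE := hB.lE
  have hlA := hB.lA
  have hLA := hB.LA
  have hJA := hB.JA
  have h5 : 3 * (c.G * c.N) = c.G * c.N * 3 := by ring
  obtain ⟨b10, b11⟩ := hT.acc.ins.pre.lst.2 m hm
  have hei : c.ei m < c.N := Nat.mod_lt _ c.N_pos
  have heg : c.eg m < c.G := by
    unfold Cx.eg
    exact Nat.div_lt_of_lt_mul (by rw [mul_comm]; omega)
  have he : w + c.hi m < c.Q := by
    rw [← GQ hB, add_comm]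
    exact mul_add_lt heg hw
  have hds : ds c.t c.q (w + c.hi m) ≤ c.J := ds_le c.t_pos _ _
  generalize c.ei m = z at *
  generalize hee : w + c.hi m = e at *
  unfold pItem
  simp only [wp_blk_cons, wp_set, Expr.safe, Expr.eval, BOp.safe, BOp.eval, St.setv_var,
    St.setv_bank, h50, h51, b10, b11, hee, Nat.reduceEqDiff, if_false, true_and]
  refine ⟨by omega, by omega, ?_⟩
  set σ₁ := (σ.setv 43 z).setv 42 e with hσ₁
  have hF₁ : Frame [43, 42] [] false σ σ₁ :=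
    ((Frame.refl _ _ _ σ₁).of_setv (by decide)).of_setv (by decide)
  have hK₁ : Keeps c E R r u σ σ₁ := Keeps.of_frame hF₁ (by decide)
  have hT₁ := hT.keep hF₁ (by decide) (by decide) hK₁
  have a42 : σ₁.var 42 = e := by simp [hσ₁]
  have a43 : σ₁.var 43 = z := by simp [hσ₁]
  refine (h1 hB (x := 42) (by decide) hT₁.acc.ins.pre.par hT₁.acc.ins.pre.b0 hT₁.acc.ins.pre.hR
    a42).call [34, 35, 37, 57] [] false (by decide) ?_
  rintro σ₂ t₂ hF₂ ⟨-, e35, ht₂⟩
  have hK₂ : Keeps c E R r u σ₁ σ₂ := Keeps.of_frame hF₂ (by decide)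
  have hT₂ := hT₁.keep hF₂ (by decide) (by decide) hK₂
  rw [hT₂.acc.ins.hu]
  set σ₃ := σ₂.setv 64 u.2 with hσ₃
  have hF₃ : Frame [64] [] false σ₂ σ₃ := frame_setv _ _ _
  have hK₃ : Keeps c E R r u σ₂ σ₃ := Keeps.of_frame hF₃ (by decide)
  have hT₃ := hT₂.keep hF₃ (by decide) (by decide) hK₃
  have c43 : σ₃.var 43 = z := by rw [hF₃.var 43 (by decide), hF₂.var 43 (by decide), a43]
  refine (h2 hB (x := 43) (by decide) hT₃.acc.ins.pre.par (st := u.2) hT₃.acc.ins.b5 c43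
    (by simp [hσ₃])).call [37, 57, 64] [] false (by decide) ?_
  rintro σ₄ t₄ hF₄ ⟨e64, ht₄⟩
  have hK₄ : Keeps c E R r u σ₃ σ₄ := Keeps.of_frame hF₄ (by decide)
  have hT₄ := hT₃.keep hF₄ (by decide) (by decide) hK₄
  have hP₄ := hT₄.acc.ins.pre.par
  have hK : Keeps c E R r u σ σ₄ := ((hK₁.trans hK₂).trans hK₃).trans hK₄
  have d35 : σ₄.var 35 = ds c.t c.q e := by
    rw [hF₄.var 35 (by decide), hF₃.var 35 (by decide), e35]
  have d42 : σ₄.var 42 = e := by
    rw [hF₄.var 42 (by decide), hF₃.var 42 (by decide), hF₂.var 42 (by decide), a42]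
  have d43 : σ₄.var 43 = z := by rw [hF₄.var 43 (by decide), c43]
  have d0 : σ₄.var 0 = σ.var 0 := by
    rw [hF₄.var 0 (by decide), hF₃.var 0 (by decide), hF₂.var 0 (by decide),
      hF₁.var 0 (by decide)]
  have hI : c.tItem = c.tHv + c.tChk + c.tOne + 4 := rfl
  simp only [wp_ite, wp_skip, wp_blk_nil, Expr.safe, Expr.eval, BOp.safe, BOp.eval, d35, e64,
    hP₄.L, hP₄.Q, eeq_val, true_and, and_true]
  refine ⟨by omega, fun h => ?_, fun h => ?_⟩
  · have hc : ds c.t c.q e = c.L ∧ c.isB u z := by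
      unfold Cx.isB
      split_ifs at h with g1 g2
      · exact ⟨g1, g2⟩
      all_goals simp at h
    refine (h3 hB hT₄ he hc.1 hei d42 d43).mono ?_
    rintro σ₅ t₅ ⟨a0, a1, a2, a3⟩
    refine ⟨hK.trans a0, ?_, fun hp => a1 hp.2.2, by omega⟩
    by_cases hte : c.test R r u e z
    · exact Or.inr ⟨a1 hte, u, e, z, he, hei, hc.1, hc.2, hte⟩
    · exact Or.inl ((a2 hte).trans d0)
  · refine ⟨hK, Or.inl d0, fun hp => ?_, by omega⟩
    rw [if_pos hp.1, if_pos (show chn (c.col u.1) c.b c.Q z u.2 c.m < c.Q from hp.2.1)] at h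
    simp at h

end Pool.Agent.P.MP_8f87b2_lc.KS
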