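import Pool.Agent.P.MP_8f87b2_lc.KS.Spec

/-!
# Filling the rows
-/

namespace Pool.Agent.P.MP_8f87b2_lc.KS

open Finset

variable {E : Env} {c : Cx}

namespace RowP

/-- the first `k` cells of row `w` are filled and filled rows are kept -/
def RInv (c : Cx) (E : Env) (ε : ℤ) (X : ℕ → ℤ) (w : ℕ) (m₀ m : ℕ → ℕ) (k : ℕ) : Prop :=
  (∀ j < k, (m (j * c.Q + w) : ZMod E.W) = (zet c.t ε X j w : ℤ)) ∧
    ∀ w' < c.Q, RowM c E ε X m₀ w' → RowM c E ε X m w'

theorem RInv.step {ε : ℤ} {X : ℕ → ℤ} {w : ℕ} {m₀ m : ℕ → ℕ} {k v : ℕ}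
    (h : RInv c E ε X w m₀ m k) (hw : w < c.Q) (hv : (v : ZMod E.W) = (zet c.t ε X k w : ℤ)) :
    RInv c E ε X w m₀ (Function.update m (k * c.Q + w) v) (k + 1) := by
  have key : ∀ a w', w' < c.Q → (¬ (a = k ∧ w' = w) →
      (m (a * c.Q + w') : ZMod E.W) = (zet c.t ε X a w' : ℤ)) →
      (Function.update m (k * c.Q + w) v (a * c.Q + w') : ZMod E.W) =
        (zet c.t ε X a w' : ℤ) := by
    intro a w' hw' h1
    rw [Function.update_apply]
    split_ifs with e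
    · have h3 := congrArg (· / c.Q) e
      simp only [add_comm _ w, add_comm _ w', Nat.add_mul_div_right _ _ c.Q_pos,
        Nat.div_eq_of_lt hw, Nat.div_eq_of_lt hw', zero_add] at h3
      subst h3
      obtain rfl : w' = w := by omega
      exact hv
    · exact h1 fun e' => e (by rw [e'.1, e'.2])
  refine ⟨fun a ha => key a w hw fun e => h.1 a ?_,
    fun w' hw' h' a ha => key a w' hw' fun _ => h.2 w' hw' h' a ha⟩
  by_contra h1
  exact e ⟨by omega, rfl⟩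

theorem pZ_spec (hB : Bnd c E) {b : ℕ} {o : BOp} {ε : ℤ}
    (ho : ∀ x y, ((o.eval E.W x y : ℕ) : ZMod E.W) = x + ε * y) (hs : ∀ x y, o.safe E.W x y)
    {σ : St} {t : ℕ} (hP : Par c σ) (X : ℕ → ℤ) {w : ℕ} (hw : w < c.Q) (h36 : σ.var 36 = w)
    (h38 : (σ.var 38 : ZMod E.W) = (X w : ℤ))
    (hX : ∀ a < c.q, 1 ≤ dg c.t a w → RowM c E ε X (σ.bank b) (w - c.t ^ a)) :
    WP E (pZ b o) (fun σ' t' => RowM c E ε X (σ'.bank b) w ∧
      (∀ w' < c.Q, RowM c E ε X (σ.bank b) w' → RowM c E ε X (σ'.bank b) w') ∧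
      (σ'.var 38 : ZMod E.W) = (zet c.t ε X c.J w : ℤ) ∧ t' ≤ t + c.tZ) σ t := by
  have hbig := hB.big
  have hlA := hB.lA
  have hJA := hB.JA
  have hτA := hB.τA
  have hlQ := hB.lQ
  have hQ := c.Q_pos
  have ht := c.t_pos
  have htJ : c.t ≤ c.J := Nat.le_mul_of_pos_left _ hB.q1
  rw [Nat.add_mul] at hlQ
  unfold pZ
  simp only [wp_blk_cons, wp_set, wp_blk_nil, Expr.safe, Expr.eval, true_and]
  refine wp_for c.J 6 (fun k σ' => σ'.var 41 = k * c.Q + w ∧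
      (σ'.var 38 : ZMod E.W) = (zet c.t ε X k w : ℤ) ∧ RInv c E ε X w (σ.bank b) (σ'.bank b) k)
    [38, 41, 44, 45] [b] false (by simp [Stmt.Within, blk, Stmt.wv, Stmt.wb, Stmt.rd])
    (by decide) (by decide) (by decide) (by simp [hP.J]) (by omega) (by omega)
    ⟨by simp [h36], by simpa [zet] using h38, fun _ h => absurd h (Nat.not_lt_zero _),
      fun _ _ h => h⟩ ?_
    fun σ' t' _ ⟨_, e38, i⟩ ht => ⟨i.1, i.2, e38, by unfold Cx.tZ; omega⟩
  intro k σ' t' hk hF hi ⟨h41, e38, i⟩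
  have hF' : Frame [37, 38, 41, 44, 45] [b] false σ σ' := hF.of_setv (by decide)
  have hP' := hP.frame hF' (by decide)
  have g36 : σ'.var 36 = w := (hF'.var 36 (by decide)).trans h36
  have ha : k / c.t < c.q := (Nat.div_lt_iff_lt_mul ht).2 hk
  have h1 : c.τ * (k / c.t) ≤ c.τ * c.q := Nat.mul_le_mul_left _ ha.le
  have h2 : k * c.Q ≤ c.J * c.Q := Nat.mul_le_mul_right _ hk.le
  have h3 := dg_lt ht (k / c.t) w
  have j := i.step hw e38
  simp only [wp_blk_cons, wp_set, wp_st, wp_ite, wp_skip, wp_blk_nil, Expr.safe, Expr.eval,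
    St.setv_var, St.setm_var, St.setv_bank, St.setm_bank, Nat.reduceEqDiff, if_true, if_false,
    g36, h41, hi, hP'.τ, hP'.tm, hP'.T, hP'.A6, hP'.Q, hs, true_and, and_true]
  simp only [BOp.safe, BOp.eval.eq_1, BOp.eval.eq_2, BOp.eval.eq_3, BOp.eval.eq_7, BOp.eval.eq_8,
    BOp.eval.eq_9, c.shr_t, c.edg_eq, c.and_t k, c.epw_eq (show c.τ * (k / c.t) ≤ 6 * c.A by omega),
    ← c.t_pow, true_and, and_true]
  refine ⟨by omega, by omega, fun h => ?_, fun h => ?_⟩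
  · have hc : 1 ≤ k % c.t ∧ k % c.t ≤ dg c.t (k / c.t) w := by
      split_ifs at h <;> first | omega | simp at h
    have h4 := pow_le_of_dg (hc.1.trans hc.2)
    have r := j.2 _ (by omega) (hX _ ha (hc.1.trans hc.2)) k hk
    refine ⟨by omega, by omega, ⟨by rw [Nat.succ_mul]; omega, ?_, j⟩, by omega⟩
    rw [ho, e38, Nat.add_sub_assoc h4, r, zet, if_pos hc]
    push_cast; rfl
  · have hc : ¬ (1 ≤ k % c.t ∧ k % c.t ≤ dg c.t (k / c.t) w) := by
      intro hc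
      rw [if_pos (by omega), if_pos (by omega)] at h
      simp at h
    refine ⟨by omega, ⟨by rw [Nat.succ_mul]; omega, ?_, j⟩, by omega⟩
    rw [e38, zet, if_neg hc, add_zero]

/-- the part of `pRow` after the inputs are loaded -/
theorem tail (hB : Bnd c E) {σ : St} {t : ℕ} {R : ℕ → ℕ} {r : ℕ} {u : ℕ × ℕ} (hP : Par c σ)
    {w : ℕ} (hw : w < c.Q) (h36 : σ.var 36 = w)
    (h38 : (σ.var 38 : ZMod E.W) = (c.Xz R r u 0 w : ℤ))
    (h39 : (σ.var 39 : ZMod E.W) = (c.Xz R r u 1 w : ℤ))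
    (hrec : ∀ a < c.q, 1 ≤ dg c.t a w → RowOK c E R r u σ (w - c.t ^ a)) :
    WP E (blk [pZ 13 .radd, .set 62 (.v 38), .set 38 (.v 39), pZ 14 .radd,
      .set 38 (rmul (.v 62) (.v 38)), pZ 15 .rsub])
      (fun σ' t' => RowOK c E R r u σ' w ∧ Keeps c E R r u σ σ' ∧
      (σ'.var 38 : ZMod E.W) = (c.Uz R r u w : ℤ) ∧ t' ≤ t + (3 * c.tZ + 3)) σ t := by
  have hW : 0 < E.W := by have := hB.big; omega
  have oa : ∀ x y, ((BOp.radd.eval E.W x y : ℕ) : ZMod E.W) = x + (1 : ℤ) * y := fun x y => by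
    rw [BOp.eval, cast_radd]; simp
  have os : ∀ x y, ((BOp.rsub.eval E.W x y : ℕ) : ZMod E.W) = x + (-1 : ℤ) * y := fun x y => by
    rw [BOp.eval, cast_rsub hW]; push_cast; ring
  rw [wp_blk_cons]
  refine (pZ_spec hB oa (fun _ _ => trivial) hP _ hw h36 h38 fun a ha h => (hrec a ha h).1).call
    [41, 37, 44, 45, 38] [13] false (by decide) ?_
  rintro σ₁ t₁ hF₁ ⟨a1, a2, a3, a4⟩
  simp only [wp_blk_cons, wp_set, Expr.safe, Expr.eval, true_and]
  set σ₂ := (σ₁.setv 62 (σ₁.var 38)).setv 38 ((σ₁.setv 62 (σ₁.var 38)).var 39) with hσ₂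
  have hF₂ : Frame [62, 38] [] false σ₁ σ₂ :=
    (((Frame.refl _ _ _ σ₂).of_setv (by decide)).of_setv (by decide))
  have hP₂ := (hP.frame hF₁ (by decide)).frame hF₂ (by decide)
  have e14 : σ₂.bank 14 = σ.bank 14 := hF₁.bank 14 (by decide)
  refine (pZ_spec hB oa (fun _ _ => trivial) hP₂ (c.Xz R r u 1) hw
    ((hF₂.var 36 (by decide)).trans ((hF₁.var 36 (by decide)).trans h36))
    (by simp [hσ₂, hF₁.var 39 (by decide), h39])
    fun a ha h => e14 ▸ (hrec a ha h).2.1).call [41, 37, 44, 45, 38] [14] false (by decide) ?_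
  rintro σ₃ t₃ hF₃ ⟨b1, b2, b3, b4⟩
  have e62 : σ₃.var 62 = σ₁.var 38 := by rw [hF₃.var 62 (by decide)]; simp [hσ₂]
  refine ⟨trivial, ?_⟩
  set σ₄ := σ₃.setv 38 (BOp.rmul.eval E.W (σ₃.var 62) (σ₃.var 38)) with hσ₄
  have hF₄ : Frame [38] [] false σ₃ σ₄ := frame_setv _ _ _
  have e15 : σ₄.bank 15 = σ.bank 15 :=
    (hF₃.bank 15 (by decide)).trans (hF₁.bank 15 (by decide))
  refine (pZ_spec hB os (fun _ _ => trivial) ((hP₂.frame hF₃ (by decide)).frame hF₄ (by decide))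
    (c.Pz R r u) hw ((hF₄.var 36 (by decide)).trans ((hF₃.var 36 (by decide)).trans
      ((hF₂.var 36 (by decide)).trans ((hF₁.var 36 (by decide)).trans h36)))) ?_
    fun a ha h => e15 ▸ (hrec a ha h).2.2).call [41, 37, 44, 45, 38] [15] false (by decide) ?_
  · simp only [hσ₄, St.setv_var, if_true, BOp.eval]
    rw [cast_rmul, e62, a3, b3, Cx.Pz]
    push_cast
    rfl
  rintro σ₅ t₅ hF₅ ⟨d1, d2, d3, d4⟩
  have f13 : σ₅.bank 13 = σ₁.bank 13 :=
    (hF₅.bank 13 (by decide)).trans (hF₃.bank 13 (by decide))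
  have f14 : σ₅.bank 14 = σ₃.bank 14 := hF₅.bank 14 (by decide)
  rw [wp_blk_nil]
  refine ⟨⟨f13 ▸ a1, f14 ▸ b1, d1⟩, fun w' hw' h => ?_, d3, by omega⟩
  exact ⟨f13 ▸ a2 w' hw' h.1, f14 ▸ b2 w' hw' (e14 ▸ h.2.1), d2 w' hw' (e15 ▸ h.2.2)⟩

end RowP

theorem sRow (hHv : SHv) : SRow := by
  intro E c hB σ t R r u hA w hw h36 hrec
  have hbig := hB.big
  have hlM := hB.lM
  have hlA := hB.lA
  have hJA := hB.JA
  have hLA := hB.LA
  have hqL := hB.qL
  have hM := c.M_pos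
  have hL : c.L = 2 * c.h := rfl
  have hnR : c.nR = c.q + 2 := rfl
  have hcard : ds c.t c.q w ≤ c.J := ds_le c.t_pos _ _
  have hHn := c.Hn_lt R w
  have r0 := hA.ins.pre.hR c.q (by omega)
  have r1 := hA.ins.pre.hR (c.q + 1) (by omega)
  have m0 : (R c.q + c.Hn R w) % c.M < c.M := Nat.mod_lt _ hM
  have m1 : (R (c.q + 1) + c.Hn R w) % c.M < c.M := Nat.mod_lt _ hM
  have hq1 := hB.q1
  unfold pRow
  rw [wp_blk_cons]
  refine (hHv hB (by decide) hA.ins.pre.par hA.ins.pre.b0 hA.ins.pre.hR h36).call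
    [34, 35, 37, 57] [] false (by decide) ?_
  rintro σ₁ t₁ hF₁ ⟨h34, h35, ht₁⟩
  have hA₁ := hA.frame hF₁ (by decide) (by decide)
  have hP₁ := hA₁.ins.pre.par
  rw [wp_blk_cons]
  have key : WP E (.ite (eeq (.v 35) (.v 13)) (blk
      [.set 38 (.ld 12 (emodM (eadd (.ld 0 (.v 3)) (.v 34)))),
        .set 39 (.ld 12 (eadd (emodM (eadd (.ld 0 (einc 3)) (.v 34))) (.v 6)))])
      (blk [.set 38 (.c 0), .set 39 (.c 0)]))
      (fun σ' t' => (σ'.var 38 : ZMod E.W) = (c.Xz R r u 0 w : ℤ) ∧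
        (σ'.var 39 : ZMod E.W) = (c.Xz R r u 1 w : ℤ) ∧ t' ≤ t₁ + 3) σ₁ t₁ := by
    by_cases hc : ds c.t c.q w = c.h
    · refine wp_iteT ?_ ?_ ?_
      · simp [h35, hP₁.h]; omega
      · simp [h35, hP₁.h, hc]
      · simp only [wp_blk_cons, wp_set, wp_blk_nil]
        have e0 := hA₁.b12 ((R c.q + c.Hn R w) % c.M) (by omega)
        have e1 := hA₁.b12 ((R (c.q + 1) + c.Hn R w) % c.M + c.M) (by omega)
        simp [h34, hP₁.q, hP₁.M, hA₁.ins.pre.b0, c.and_M, Cx.Xz, hc, e0, e1]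
        omega
    · refine wp_iteF ?_ ?_ ?_
      · simp [h35, hP₁.h]; omega
      · simp only [Expr.eval, BOp.eval, h35, hP₁.h]
        split_ifs <;> first | rfl | omega
      · simp only [wp_blk_cons, wp_set, wp_blk_nil]
        simp [Cx.Xz, hc]
        omega
  refine key.call [38, 39] [] false (by decide) ?_
  rintro σ₂ t₂ hF₂ ⟨h38, h39, ht₂⟩
  have hK : Keeps c E R r u σ σ₂ :=
    (Keeps.of_frame hF₁ (by decide)).trans (Keeps.of_frame hF₂ (by decide))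
  refine (RowP.tail hB (hP₁.frame hF₂ (by decide)) hw
    ((hF₂.var 36 (by decide)).trans ((hF₁.var 36 (by decide)).trans h36)) h38 h39
    fun a ha h => hK _ (by omega) (hrec a ha h)).mono ?_
  rintro σ₃ t₃ ⟨a1, a2, a3, a4⟩
  refine ⟨a1, hK.trans a2, a3, ?_⟩
  unfold Cx.tRow
  omega

theorem sGlob (hRow : SRow) : SGlob := by
  intro E c hB σ t R r u hA
  have hbig := hB.big
  have hQ := c.Q_pos
  have hlen : 3 * c.Q ≤ E.Lim := le_trans (Nat.mul_le_mul_right _ (by omega)) hB.lQ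
  have hLG : c.LG ≤ c.Q := Nat.count_le _
  have hPG : ∀ w, c.PG w ↔ w < c.Q ∧ ds c.t c.q w ≤ c.d := fun w =>
    ⟨fun h => ⟨h.1, h.2.2⟩, fun h => ⟨h.1, below_top c.t_pos w, h.2⟩⟩
  have hmem : ∀ i < c.LG, c.PG (Nat.nth c.PG i) := fun i hi =>
    Nat.nth_mem i fun hf => hi.trans_le (Nat.count_le_card hf _)
  refine wp_for c.LG (c.tRow + 1)
    (fun m σ' => ∀ i < m, RowOK c E R r u σ' (Nat.nth c.PG i))
    [36, 34, 35, 37, 57, 38, 39, 41, 44, 45, 62] [13, 14, 15] false (by decide) (by decide)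
    (by decide) (by decide) hA.ins.pre.n1 (by omega) (by omega) (by simp) ?_ ?_
  · intro m σ₁ t₁ hm hF₁ h33 hI
    have hA₁ := hA.frame hF₁ (by decide) (by decide)
    rw [wp_blk_cons, wp_set, wp_blk_cons]
    refine ⟨by simp [h33]; omega, ?_⟩
    have hw := (hPG _).mp (hmem m hm)
    refine (hRow hB (hA₁.frame (frame_setv _ _ _) (by decide) (by decide)) hw.1 ?_ ?_).mono ?_
    · simp only [St.setv_var, if_true, Expr.eval, BOp.eval, h33]
      rw [← two_mul]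
      exact (hA₁.ins.pre.b1 m hm).1
    · intro a ha h
      have h1 := ds_sub_pow c.t_pos ha h
      have h2 := pow_le_of_dg h
      have h3 : 0 < c.t ^ a := pow_pos c.t_pos _
      have h4 : c.PG (Nat.nth c.PG m - c.t ^ a) := (hPG _).mpr ⟨by omega, by omega⟩
      have h5 := hI (Nat.count c.PG (Nat.nth c.PG m - c.t ^ a)) (by
        have h6 := Nat.count_strict_mono h4 (show _ < Nat.nth c.PG m by omega)
        rwa [Nat.count_nth fun hf => hm.trans_le (Nat.count_le_card hf _)] at h6)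
      rwa [Nat.nth_count h4] at h5
    · rintro σ₃ t₃ ⟨a1, a2, -, a4⟩
      rw [wp_blk_nil]
      refine ⟨fun i hi => ?_, by omega⟩
      by_cases h : i = m
      · exact h ▸ a1
      · exact a2 _ (hmem i (by omega)).1 (hI i (by omega))
  · intro σ₁ t₁ _ hI ht
    refine ⟨fun w hw hd => ?_, ht.trans (by rw [add_assoc t])⟩
    have h4 := (hPG w).mpr ⟨hw, hd⟩
    have := hI _ (Nat.count_strict_mono h4 hw)
    rwa [Nat.nth_count h4] at this

end Pool.Agent.P.MP_8f87b2_lc.KS
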