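import Pool.Agent.P.MP_8f87b2_lc.KS.Spec

/-!
# Computing the parameters, and the specification of the whole program
-/

namespace Pool.Agent.P.MP_8f87b2_lc.KS

open Finset

namespace SetupP

variable {E : Env} {c : Cx} {cc : ℕ}

/-- all constants are bounded by the largest one -/
theorem consts (hK : c.toKc.OK cc) : c.τ ≤ c.a ∧ c.m ≤ c.a ∧ c.g ≤ c.a ∧ c.l ≤ c.a ∧ c.κ ≤ c.a ∧
    c.η ≤ c.a ∧ c.s0 ≤ c.a ∧ 100 ≤ c.a := by
  have ha := hK.ha
  have h1 : c.g ≤ c.g * 2 ^ c.τ := Nat.le_mul_of_pos_right _ (by positivity)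
  have h2 : c.l ≤ (cc + 2 * (2 * c.m + 1) ^ 2) * c.l := Nat.le_mul_of_pos_left _ (by positivity)
  omega

theorem pConst_spec (K : Kc) (h1 : K.τ < E.W) (h2 : K.m < E.W) (h3 : K.g < E.W)
    (h4 : K.l < E.W) (h5 : K.κ < E.W) (h6 : K.η < E.W) (h7 : K.a < E.W) (h8 : K.s0 < E.W)
    {σ : St} {t : ℕ} :
    WP E (pConst K) (fun σ' t' => σ'.var 11 = K.τ ∧ σ'.var 29 = K.m ∧ σ'.var 70 = K.g ∧
      σ'.var 71 = K.l ∧ σ'.var 72 = K.κ ∧ σ'.var 73 = K.η ∧ σ'.var 74 = K.a ∧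
      σ'.var 2 = K.s0 ∧ t' ≤ t + 8) σ t := by
  unfold pConst
  simp only [wp_blk_cons, wp_set, wp_blk_nil, Expr.safe, Expr.eval, St.setv_var,
    Nat.reduceEqDiff, if_true, if_false, true_and, h1, h2, h3, h4, h5, h6, h7, h8]
  omega

theorem pSize_spec (hS : Sz c) (hn1 : E.n1 = c.n + 1) (hin : E.inp 0 = c.n)
    (hl : c.l * c.s < E.W) (hs : c.s + 1 < E.W) {σ : St} {t : ℕ} (h71 : σ.var 71 = c.l)
    (h2 : σ.var 2 = c.s0) :
    WP E pSize (fun σ' t' => σ'.var 1 = c.n ∧ σ'.var 2 = c.s ∧ t' ≤ t + 2 * c.s + 2) σ t := by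
  have hs1 := hS.s1
  unfold pSize
  simp only [wp_blk_cons, wp_set, wp_blk_nil, Expr.safe, Expr.eval, hin]
  refine ⟨by omega, ?_⟩
  refine wp_while (fun σ' t' => ∃ i, c.s0 ≤ i ∧ i ≤ c.s ∧ σ'.var 1 = c.n ∧ σ'.var 2 = i ∧
      σ'.var 71 = c.l ∧ t' ≤ t + 2 * i + 1) (fun σ' => c.s - σ'.var 2) [2] [] false
    (by simp [Stmt.Within, Stmt.wv, Stmt.wb, Stmt.rd]) ⟨c.s0, by simp [hs1, h2, h71]⟩ ?_
  rintro σ' t' - ⟨i, i1, i2, v1, v2, v71, ht⟩
  have he : (eshr (.v 1) (emul (.v 71) (.v 2))).eval E σ' = c.n / 2 ^ (c.l * i) := by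
    simp only [Expr.eval, BOp.eval, v1, v2, v71, Nat.shiftRight_eq_div_pow]
  rw [he]
  refine ⟨?_, fun hc => ?_, fun hc => ?_⟩
  · simp only [Expr.safe, Expr.eval, BOp.safe, v2, v71, true_and, and_true]
    exact lt_of_le_of_lt (Nat.mul_le_mul_left _ i2) hl
  · have hlt : i < c.s := by
      by_contra h
      obtain rfl : i = c.s := by omega
      exact hc (Nat.div_eq_of_lt hS.nN)
    simp only [wp_set, Expr.safe, Expr.eval, BOp.safe, BOp.eval, St.setv_var, Nat.reduceEqDiff,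
      if_true, if_false, true_and, v1, v2, v71]
    exact ⟨by omega, ⟨i + 1, by omega, hlt, rfl, by omega⟩, by omega⟩
  · have : i = c.s := by
      by_contra h
      exact (Nat.div_pos (hS.smin i i1 (by omega)) (by positivity)).ne' hc
    exact ⟨v1, v2.trans this, by omega⟩

theorem pDbl_spec {e : ℕ} {σ : St} {t : ℕ} (h75 : σ.var 75 = e) (h10 : σ.var 10 = 1)
    (hW : 2 * 2 ^ e < E.W) :
    WP E (forL 30 75 (.set 10 (edbl 10))) (fun σ' t' => σ'.var 10 = 2 ^ e ∧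
      t' ≤ t + 3 * e + 2) σ t := by
  have h1 : e < 2 ^ e := Nat.lt_two_pow_self
  refine wp_for e 1 (fun k σ' => σ'.var 10 = 2 ^ k) [10] [] false (by decide) (by decide)
    (by decide) (by decide) h75 (by omega) (by omega) (by simp [h10])
    (fun k σ' t' hk _ _ hI => ?_) fun σ' t' _ hI ht => ⟨hI, by omega⟩
  have h4 : 2 ^ k ≤ 2 ^ e := Nat.pow_le_pow_right (by norm_num) hk.le
  simp only [wp_set, Expr.safe, Expr.eval, BOp.safe, BOp.eval, St.setv_var, Nat.reduceEqDiff,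
    if_false, if_true, true_and, hI, pow_succ]
  exact ⟨by omega, by omega, le_rfl⟩

theorem setup (hK : c.toKc.OK cc) (hS : Sz c) (hB : Bnd c E) (hin : E.inp 0 = c.n)
    (hW : 2 ^ (20 * c.A) ≤ E.W) {σ : St} {t : ℕ} :
    WP E (.seq (pConst c.toKc) pSetup) (fun σ' t' => Par c σ' ∧ t' ≤ t + 30 * c.A) σ t := by
  obtain ⟨kτ, km, kg, kl, kκ, kη, ks0, ka⟩ := consts hK
  have hs2 : 2 ≤ c.s := hK.hs0.trans hS.s1
  have eA : c.a * c.s = c.A := rfl
  have aA : c.a * 2 ≤ c.A := Nat.mul_le_mul_left _ hs2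
  have sA : 100 * c.s ≤ c.A := Nat.mul_le_mul_right _ ka
  have h1 : 20 * c.A < E.W := lt_of_lt_of_le Nat.lt_two_pow_self hW
  have lt : ∀ a, a + 2 ≤ 20 * c.A → 2 * 2 ^ a < E.W := fun a ha =>
    calc 2 * 2 ^ a = 2 ^ (a + 1) := by rw [pow_add]; omega
      _ < 2 ^ (20 * c.A) := Nat.pow_lt_pow_right (by norm_num) (by omega)
      _ ≤ _ := hW
  have eq : c.g * c.s = c.q := rfl
  have elb : c.l * c.s = c.lb := rfl
  have eh : c.η * c.s = c.h := rfl
  have ek : c.κ * c.s = c.k := rfl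
  have eL : 2 * c.h = c.L := rfl
  have eJ : c.q * c.t = c.J := rfl
  have eC : 64 * c.N * 2 ^ c.q = c.Cn := rfl
  have qA : c.q ≤ c.A := Nat.mul_le_mul_right _ kg
  have lbA : c.lb ≤ c.A := Nat.mul_le_mul_right _ kl
  have hA : c.h ≤ c.A := Nat.mul_le_mul_right _ kη
  have kA : c.k ≤ c.A := Nat.mul_le_mul_right _ kκ
  have τA := hB.τA
  have τ3 : c.τ * (3 * c.s) ≤ c.τ * c.q := Nat.mul_le_mul_left _ hB.s3
  have τ4 : c.τ * (c.q - 3 * c.s) ≤ c.τ * c.q := Nat.mul_le_mul_left _ (Nat.sub_le _ _)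
  have bA := hB.bA
  have w1 : c.T >>> (6 * c.A - c.τ) = c.t := c.epw_eq (by omega)
  have w2 : c.T >>> (6 * c.A - c.τ * c.q) = c.Q := by
    rw [c.epw_eq (by omega), ← c.t_pow]; rfl
  have w3 : c.T >>> (6 * c.A - c.τ * (3 * c.s)) = c.G := by
    rw [c.epw_eq (by omega), ← c.t_pow]; rfl
  have w4 : c.T >>> (6 * c.A - c.τ * (c.q - 3 * c.s)) = c.Q1 := by
    rw [c.epw_eq (by omega), ← c.t_pow]; rfl
  have w5 : c.T >>> (6 * c.A - c.k) = c.M := c.epw_eq (by omega)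
  have w6 : c.T >>> (6 * c.A - c.lb) = c.b := c.epw_eq (by omega)
  have w7 : c.T >>> (6 * c.A - c.lb * c.m) = c.N := by
    rw [c.epw_eq (by omega), pow_mul]; rfl
  have w8 : c.T >>> (6 * c.A - c.A) = c.V := c.epw_eq (by omega)
  have w9 : c.T >>> (6 * c.A - c.q) = 2 ^ c.q := c.epw_eq (by omega)
  have bT3 : c.T * c.T * c.T < E.W := by
    have := lt (6 * c.A + 6 * c.A + 6 * c.A) (by omega)
    rw [pow_add, pow_add] at this
    unfold Cx.T; omega
  have hT := c.T_pos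
  have bT2 : c.T * c.T ≤ c.T * c.T * c.T := Nat.le_mul_of_pos_right _ hT
  have e3 : 0 < c.T * c.T * c.T := by positivity
  have bN : 64 * c.N ≤ c.Cn := Nat.le_mul_of_pos_right _ (by positivity)
  have big := hB.big
  have lC := hB.lC
  have lM := hB.lM
  have lWd := hB.lWd
  have JA := hB.JA
  have LA := hB.LA
  have q1 := hB.q1
  have qL := hB.qL
  have s3 := hB.s3
  have tp := c.t_pos
  have bp := c.b_pos
  have Qp := c.Q_pos
  rw [wp_seq]
  refine (pConst_spec c.toKc (by omega) (by omega) (by omega) (by omega) (by omega) (by omega)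
    (by omega) (by omega)).mono ?_
  rintro σ₀ t₀ ⟨a11, a29, a70, a71, a72, a73, a74, a2, ht₀⟩
  unfold pSetup
  rw [wp_blk_cons]
  refine (pSize_spec hS hB.n1 hin (by omega) (by omega) a71 a2).call [1, 2] [] false
    (by decide) ?_
  rintro σ₁ t₁ F₁ ⟨a1, b2, ht₁⟩
  replace a11 := (F₁.var 11 (by decide)).trans a11
  replace a29 := (F₁.var 29 (by decide)).trans a29
  replace a70 := (F₁.var 70 (by decide)).trans a70
  replace a71 := (F₁.var 71 (by decide)).trans a71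
  replace a72 := (F₁.var 72 (by decide)).trans a72
  replace a73 := (F₁.var 73 (by decide)).trans a73
  replace a74 := (F₁.var 74 (by decide)).trans a74
  clear a2
  rw [wp_blk_cons, wp_set]
  refine ⟨by simp only [Expr.safe, Expr.eval, BOp.safe, a74, b2, true_and]; omega, ?_⟩
  rw [wp_blk_cons, wp_set]
  refine ⟨by
    simp only [Expr.safe, Expr.eval, BOp.safe, BOp.eval, a74, b2, St.setv_var, if_true, true_and]
    omega, ?_⟩
  rw [wp_blk_cons, wp_set]
  refine ⟨by simp only [Expr.safe]; omega, ?_⟩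
  simp only [Expr.eval, BOp.eval, a74, b2, St.setv_var, if_true, eA]
  rw [wp_blk_cons]
  refine (pDbl_spec (e := 6 * c.A) (by simp) (by simp) (lt _ (by omega))).call [30, 10] [] false
    (by decide) ?_
  rintro σ₂ t₂ F₂ ⟨a10, ht₂⟩
  have a24 : σ₂.var 24 = c.A := by rw [F₂.var 24 (by decide)]; simp
  have a75 : σ₂.var 75 = 6 * c.A := by rw [F₂.var 75 (by decide)]; simp
  have fr : ∀ x, x ∉ [30, 10, 24, 75] → σ₂.var x = σ₁.var x := fun x hx => by
    simp only [List.mem_cons, List.not_mem_nil, or_false, not_or] at hx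
    rw [F₂.var x (by simp [hx.1, hx.2.1])]
    simp [hx.2.1, hx.2.2.1, hx.2.2.2]
  replace a1 := (fr 1 (by decide)).trans a1
  replace b2 := (fr 2 (by decide)).trans b2
  replace a11 := (fr 11 (by decide)).trans a11
  replace a29 := (fr 29 (by decide)).trans a29
  replace a70 := (fr 70 (by decide)).trans a70
  replace a71 := (fr 71 (by decide)).trans a71
  replace a72 := (fr 72 (by decide)).trans a72
  replace a73 := (fr 73 (by decide)).trans a73
  replace a10 : σ₂.var 10 = c.T := a10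
  clear fr F₂ F₁ a74
  simp only [wp_blk_cons, wp_blk_nil, wp_set, Expr.safe, Expr.eval, BOp.safe, BOp.eval,
    St.setv_var, Nat.reduceEqDiff, if_true, if_false, true_and, and_true, b2, a10, a11, a24, a29,
    a70, a71, a72, a73, a75, eq, elb, eh, ek, eL, w1, w2, w3, w4, w5, w6, w7, w8, w9, eJ, eC]
  clear lt hW w1 w2 w3 w4 w5 w6 w7 w8 w9 eA eq elb eh ek eJ eC
  refine ⟨by omega, by omega, by omega, by omega, by omega, by omega, by omega, by omega,
    by omega, by omega, by omega, by omega, by omega, by omega, by omega, by omega, by omega,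
    by omega, by omega, by omega, by omega, ?_, by omega⟩
  constructor <;>
    simp only [St.setv_var, Nat.reduceEqDiff, if_true, if_false, a1, a10, a11, a24, a29, a75,
      Cx.d, Cx.nR, Cx.s1, pow_succ, pow_zero, one_mul]

end SetupP

theorem sSetup : SSetup := by
  intro E c cc hK hS hB hin hW σ t
  refine (SetupP.setup hK hS hB hin hW).call
    [1, 2, 3, 4, 5, 6, 7, 8, 10, 11, 12, 13, 14, 15, 16, 17, 18, 21, 23, 24, 25, 26, 27, 28, 29,
      30, 58, 59, 70, 71, 72, 73, 74, 75] [] false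
    (show (Stmt.seq (pConst ⟨0, 0, 0, 0, 0, 0, 0, 0⟩) pSetup).Within _ _ _ by decide) ?_
  rintro σ' t' hF ⟨hP, ht⟩
  exact ⟨hP, hF.var 0 (by decide), funext fun k => hF.bank k (by simp), hF.pos rfl, ht⟩

theorem sMain (h1 : SSetup) (h2 : SRead) (h3 : SGen) (h4 : SVal) (h5 : SList) (h6 : SLoop) :
    SMain := by
  intro E c cc hK hS hB hin hW
  unfold pMain pRest
  rw [wp_seq]
  refine (wp_seq.1 (h1 hK hS hB hin hW (σ := St.zero) (t := 0))).mono fun σ₀ t₀ h => ?_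
  simp only [wp_blk_cons, wp_blk_nil]
  refine h.mono ?_
  rintro σ₁ t₁ ⟨hP₁, v₁, z₁, p₁, a1⟩
  refine (pWord_spec (k := c.k + c.A) (by decide) (by decide) (by decide) (c.MV ▸ hP₁.Wd)
    (c.MV ▸ hB.lWd)).call [19, 30, 31] [] true (by decide) ?_
  rintro σ₂ t₂ hF₂ ⟨b1, b2, b3⟩
  have hP₂ := hP₁.frame hF₂ (by decide)
  replace p₁ : σ₁.pos = 0 := p₁
  rw [p₁] at b1
  rw [p₁, zero_add] at b2
  refine (h2 hB hP₂).call [33, 32, 30, 31] [0] true (by decide) ?_
  rintro σ₃ t₃ hF₃ ⟨d1, d2⟩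
  have hP₃ := hP₂.frame hF₃ (by decide)
  rw [b2] at d1
  have hR : ∀ i < c.nR, σ₃.bank 0 i < c.M := fun i hi => by rw [d1 i hi]; exact bits_lt _ _ _
  have hQ := c.Q_pos
  refine (h3 hB (b := 1) (x := 26) (m := 14) (len := 20) (by decide) (by decide) (by decide) hP₃
    (by omega) hP₃.full hP₃.d).call [20, 45, 47, 48] [1] false (by decide) ?_
  rintro σ₄ t₄ hF₄ ⟨e1, e2, e3⟩
  have hP₄ := hP₃.frame hF₄ (by decide)
  have z₄ : ∀ k, k ∉ [0, 1] → σ₄.bank k = fun _ => 0 := fun k hk => by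
    simp only [List.mem_cons, List.not_mem_nil, or_false, not_or] at hk
    rw [hF₄.bank k (by simp [hk.2]), hF₃.bank k (by simp [hk.1]), hF₂.bank k (by simp), z₁]
    rfl
  refine (h4 hB hP₄ (by rw [z₄ 4 (by decide)])).call [33, 34, 35] [4, 6] false (by decide) ?_
  rintro σ₅ t₅ hF₅ ⟨f1, f2⟩
  have hP₅ := hP₄.frame hF₅ (by decide)
  have e19 : σ₄.var 19 = bits E.ω 0 (c.k + c.A) := by
    rw [hF₄.var 19 (by decide), hF₃.var 19 (by decide), b1]
  rw [e19] at f1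
  have e0 : σ₅.bank 0 = σ₃.bank 0 := by
    rw [hF₅.bank 0 (by decide), hF₄.bank 0 (by decide)]
  refine (h5 hB hP₅ e0 hR (fun i hi => (f1 i hi).2) fun v => by
    rw [hF₅.bank 8 (by decide), z₄ 8 (by decide)]).call
    [55, 33, 50, 34, 35, 37, 36, 57, 53, 54, 56] [8, 9, 10, 11] false (by decide) ?_
  rintro σ₆ t₆ hF₆ ⟨k1, k2⟩
  have hPre : Pre c E (σ₃.bank 0) (bits E.ω 0 (c.k + c.A)) σ₆ := by
    refine ⟨hP₅.frame hF₆ (by decide), ?_, ?_, hR, ?_, ?_, ?_, k1⟩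
    · rw [hF₆.var 20 (by decide), hF₅.var 20 (by decide), e1]
      rfl
    · rw [hF₆.bank 0 (by decide), e0]
    · unfold LstAt
      rw [hF₆.bank 1 (by decide), hF₅.bank 1 (by decide)]
      exact e2
    · rw [hF₆.bank 4 (by decide)]
      exact fun i hi => (f1 i hi).1
    · rw [hF₆.bank 6 (by decide)]
      exact fun i hi => (f1 i hi).2
  refine (h6 hB hPre fun d => by
    rw [hF₆.bank 5 (by decide), hF₅.bank 5 (by decide), z₄ 5 (by decide)]).mono ?_
  rintro σ₇ t₇ ⟨m1, m2, m3⟩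
  refine ⟨σ₃.bank 0, d1, ?_, m2, ?_⟩
  · rwa [hF₆.var 0 (by decide), hF₅.var 0 (by decide), hF₄.var 0 (by decide),
      hF₃.var 0 (by decide), hF₂.var 0 (by decide), v₁] at m1
  · change t₄ ≤ t₃ + c.tGen c.LG at e3
    unfold Cx.tAll
    omega

theorem pMain_wf (K : Kc) : (pMain K).wf = true := by
  have h1 : (pConst K).wf = true := rfl
  have h2 : pRest.wf = true := by decide
  unfold pMain
  rw [Stmt.wf, h1, h2]
  rfl

end Pool.Agent.P.MP_8f87b2_lc.KS
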