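import Pool.Agent.P.MP_8f87b2_lc.KS.Spec
import Pool.Agent.P.MP_8f87b2_lc.KS.Col

/-!
# Values of the tuples and the weight table
-/

namespace Pool.Agent.P.MP_8f87b2_lc.KS

open Finset

namespace ValP

variable {E : Env} {c : Cx}

theorem Q_le (hB : Bnd c E) : c.Q ≤ E.Lim :=
  (Nat.le_mul_of_pos_left _ (by omega)).trans hB.lQ

theorem eeq_val (a b : ℕ) :
    ((if a < b + 1 then 1 else 0) &&& if b < a + 1 then 1 else 0 : ℕ) = if a = b then 1 else 0 := by
  split_ifs <;> first | rfl | omega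

theorem rng_val (a n : ℕ) :
    ((if 0 < a then 1 else 0) &&& if a < n + 1 then 1 else 0 : ℕ) =
      if 1 ≤ a ∧ a ≤ n then 1 else 0 := by
  split_ifs <;> first | rfl | omega

theorem hash_eq (hB : Bnd c E) (r : ℕ) {a z : ℕ} (h : (a : ZMod E.W) = (c.x z : ℤ)) :
    ((r * a % E.W) &&& (c.M * c.V - 1)) >>> c.A = c.γ r z := by
  have h1 := cast_mod_eq (a := r * a) (z := r * c.x z) (by push_cast; rw [h]) hB.dWd
  rw [c.MV, Nat.and_two_pow_sub_one_eq_mod, ← c.MV, Nat.mod_mod_of_dvd _ hB.dWd,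
    Nat.shiftRight_eq_div_pow]
  unfold Cx.γ gam
  rw [← h1, Int.toNat_natCast]
  rfl

theorem y_zero (hB : Bnd c E) : c.y 0 = 0 := hB.y0 0 (by omega)

theorem x_zero (hB : Bnd c E) : c.x 0 = 0 := by
  simp [Cx.x, val, y_zero hB]

theorem x_step (hB : Bnd c E) {z : ℕ} (hz : z < c.N) :
    c.x z = c.x (z / c.b) + c.y (z % c.b) := val_step (y_zero hB) hz

theorem div_lt {z : ℕ} (hz : z < c.N) : z / c.b < z ∨ z / c.b = 0 := by
  rcases Nat.eq_zero_or_pos z with rfl | h0
  · exact Or.inr (Nat.zero_div _)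
  refine Or.inl (Nat.div_lt_self h0 ?_)
  by_contra hb
  have hb1 : c.b = 1 := by have := c.b_pos; omega
  have hN : c.N = 1 := by rw [Cx.N, hb1, one_pow]
  omega

theorem WT_succ (r : ℕ) (u : ℕ × ℕ) (m a : ℕ) : c.WT r u (m + 1) a = c.WT r u m a +
    ((if c.isA u m ∧ c.γ r m = a then wt c.T (c.x m) else 0) +
      if c.isC u m ∧ c.γ r m + c.M = a then wt c.T (c.x m) else 0) := sum_range_succ _ _

/-- adding a weight at one address -/
theorem upd_add {W : ℕ} {f : ℕ → ℕ} {F : ℕ → ℤ} {B p v : ℕ} {w : ℤ} {P : Prop} [Decidable P]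
    (hP : P) (hf : ∀ a < B, (f a : ZMod W) = F a) (hv : (v : ZMod W) = w) :
    ∀ a < B, ((Function.update f p ((f p + v) % W) a : ℕ) : ZMod W) =
      (F a + (if P ∧ p = a then w else 0) : ℤ) := by
  intro a ha
  rw [Function.update_apply]
  split_ifs with h1 h2 h2
  · rw [cast_radd, hv, ← h1, hf a ha]; push_cast; rfl
  · exact absurd ⟨hP, h1.symm⟩ h2
  · exact absurd h2.2.symm h1
  · simpa using hf a ha

theorem upd_skip {W : ℕ} {f : ℕ → ℕ} {F : ℕ → ℤ} {B p : ℕ} {w : ℤ} {P : Prop} [Decidable P]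
    (hP : ¬ P) (hf : ∀ a < B, (f a : ZMod W) = F a) :
    ∀ a < B, ((f a : ℕ) : ZMod W) = (F a + (if P ∧ p = a then w else 0) : ℤ) := by
  intro a ha
  rw [if_neg fun h => hP h.1]
  simpa using hf a ha

end ValP

open ValP

theorem sVal : SVal := by
  intro E c hB σ t hP h40
  have hbig := hB.big
  have hQ := Q_le hB
  have hnb := hB.nb
  have hbN := hB.bN
  have hNQ := hB.NQ
  have hn1 := hB.n1
  have hWd : 0 < c.M * c.V := Nat.mul_pos c.M_pos c.V_pos
  refine wp_for c.N 6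
    (fun m σ' => (∀ z, z < m ∨ z = 0 → (σ'.bank 4 z : ZMod E.W) = (c.x z : ℤ)) ∧
      ∀ z < m, σ'.bank 6 z = c.γ (σ.var 19) z) [34, 35] [4, 6]
    false (by decide) (by decide) (by decide) (by decide) hP.N (by omega) (by omega)
    ⟨fun z hz => ?_, by simp⟩ ?_
    fun σ' t' _ hI ht => ⟨fun z hz => ⟨hI.1 z (Or.inl hz), hI.2 z hz⟩, by omega⟩
  · obtain rfl : z = 0 := by omega
    simp [h40, x_zero hB]
  intro i σ' t' hi hF h33 ⟨hI, hJ⟩
  have hP' := hP.frame hF (by decide)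
  have h19 : σ'.var 19 = σ.var 19 := hF.var 19 (by decide)
  have h1 := hI (i / c.b) (div_lt hi)
  have h2 : i / c.b ≤ i := Nat.div_le_self _ _
  have h3 := x_step hB hi
  have key : ∀ v : ℕ, (v : ZMod E.W) = (c.x i : ℤ) →
      (∀ z, z < i + 1 ∨ z = 0 →
        ((Function.update (σ'.bank 4) i v z : ℕ) : ZMod E.W) = (c.x z : ℤ)) ∧
      ∀ z < i + 1, Function.update (σ'.bank 6) i
        (((σ.var 19 * v % E.W) &&& (c.M * c.V - 1)) >>> c.A) z = c.γ (σ.var 19) z := by
    intro v hv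
    refine ⟨fun z hz => ?_, fun z hz => ?_⟩
    · rw [Function.update_apply]
      split_ifs with h
      · rw [h, hv]
      · exact hI z (by omega)
    · rw [Function.update_apply]
      split_ifs with h
      · rw [h, ValP.hash_eq hB _ hv]
      · exact hJ z (by omega)
  simp only [wp_blk_cons, wp_set, wp_blk_nil, wp_ite, wp_st, wp_skip]
  simp only [Expr.safe, Expr.eval, BOp.safe, BOp.eval, St.setv_var, St.setv_bank, St.setm_var,
    St.setm_bank, h33, h19, hP'.Wd, hP'.A, hP'.lb, hP'.bm, hP'.n, Nat.reduceEqDiff, if_true,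
    if_false, true_and, and_true, c.shr_b, c.and_b, rng_val]
  refine ⟨by omega, by omega, fun h => ?_, fun h => ?_⟩
  · have h' : 1 ≤ i % c.b ∧ i % c.b ≤ c.n := by
      by_contra hc
      simp [hc] at h
    have hv : (((σ'.bank 4 (i / c.b) + E.inp (i % c.b)) % E.W : ℕ) : ZMod E.W) = (c.x i : ℤ) := by
      rw [cast_radd, h1, hB.inp _ h'.1 h'.2, cast_inp (by omega), h3]
      push_cast; rfl
    exact ⟨by omega, by omega, by omega, by omega, key _ hv, by omega⟩
  · have h' : ¬ (1 ≤ i % c.b ∧ i % c.b ≤ c.n) := by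
      intro hc
      simp [hc] at h
    have hv : ((σ'.bank 4 (i / c.b) : ℕ) : ZMod E.W) = (c.x i : ℤ) := by
      rw [h1, h3, hB.y0 _ h', add_zero]
    exact ⟨by omega, by omega, by omega, key _ hv, by omega⟩

theorem sAcc (h : SChk) : SAcc := by
  intro E c hB σ t R r u hI0 h12
  have hbig := hB.big
  have hQ := Q_le hB
  have hNQ := hB.NQ
  have hlM := hB.lM
  have hlA := hB.lA
  have hM := c.M_pos
  have hT : c.tAcc = c.N * (c.tChk + 8 + 2) + 2 := rfl
  refine wp_for c.N (c.tChk + 8)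
    (fun m σ' => ∀ a < 2 * c.M, (σ'.bank 12 a : ZMod E.W) = (c.WT r u m a : ℤ))
    [64, 37, 57, 34, 35] [12] false (by decide) (by decide) (by decide) (by decide)
    hI0.pre.par.N (by omega) (by omega) (by simp +contextual [h12, Cx.WT]) ?_
    fun σ' t' _ hI ht => ⟨hI, by omega⟩
  intro i σ' t' hi hF h33 hI
  have hI' := hI0.frame hF (by decide) (by decide)
  rw [wp_blk_cons, wp_set]
  refine ⟨by simp; omega, ?_⟩
  have hI1 := hI'.frame (frame_setv σ' 64 0) (by decide) (by decide)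
  rw [wp_blk_cons]
  refine (h hB (x := 33) (by decide) hI1.pre.par (p := u.1) (z := i) (st := 0) hI1.b5
    (by simp [h33]) (by simp)).call [37, 57, 64] [] false (by decide) ?_
  rintro σ₂ t₂ hF₂ ⟨h64, ht₂⟩
  have hI2 := hI1.frame hF₂ (by decide) (by decide)
  have hP2 := hI2.pre.par
  have h33' : σ₂.var 33 = i := by rw [hF₂.var 33 (by decide)]; simp [h33]
  have hb12 : σ₂.bank 12 = σ'.bank 12 := by rw [hF₂.bank 12 (by decide)]; rfl
  have h4 := hI2.pre.b4 i hi
  have h6 := hI2.pre.b6 i hi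
  have hγ := c.γ_lt r i
  have hu := hI2.hu'
  have hc : c.col u.1 i ≤ c.n + 1 := by
    unfold Cx.col
    split_ifs with h0
    · have := Nat.mod_le i u.1
      omega
    · omega
  have hnb := hB.nb
  have hbN := hB.bN
  have hw := cast_wt (σ₂.bank 4 i) c.T (c.x i) h4
  simp only [wp_blk_cons, wp_set, wp_blk_nil, wp_ite, wp_st, wp_skip]
  simp only [Expr.safe, Expr.eval, BOp.safe, BOp.eval, St.setv_var, St.setv_bank, St.setm_var,
    St.setm_bank, h33', h64, h6, hb12, hI2.hu, hI2.b5, hP2.M, hP2.T, Nat.reduceEqDiff, if_true,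
    if_false, true_and, and_true, eeq_val, WT_succ, ← add_assoc]
  have cA : ((if chn (c.col u.1) c.b c.Q i 0 c.m < u.2 then 1 else 0 : ℕ) ≠ 0 → c.isA u i) ∧
      ((if chn (c.col u.1) c.b c.Q i 0 c.m < u.2 then 1 else 0 : ℕ) = 0 → ¬ c.isA u i) := by
    unfold Cx.isA
    split_ifs with h0 <;> simp [h0]
  have cC : ((if c.col u.1 i = u.2 then 1 else 0 : ℕ) ≠ 0 → c.isC u i) ∧
      ((if c.col u.1 i = u.2 then 1 else 0 : ℕ) = 0 → ¬ c.isC u i) := by
    unfold Cx.isC
    split_ifs with h0 <;> simp [h0]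
  refine ⟨by omega, by omega, fun hA => ?_, fun hA => ?_⟩
  · have s1 := upd_add (p := c.γ r i) (cA.1 hA) hI hw
    refine ⟨by omega, by omega, by omega, by omega, fun hC => ?_, fun hC => ?_⟩
    · exact ⟨by omega, by omega, upd_add (cC.1 hC) s1 hw, by omega⟩
    · exact ⟨upd_skip (cC.2 hC) s1, by omega⟩
  · have s1 := upd_skip (p := c.γ r i) (w := wt c.T (c.x i)) (cA.2 hA) hI
    refine ⟨by omega, by omega, fun hC => ?_, fun hC => ?_⟩
    · exact ⟨by omega, by omega, upd_add (cC.1 hC) s1 hw, by omega⟩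
    · exact ⟨upd_skip (cC.2 hC) s1, by omega⟩

end Pool.Agent.P.MP_8f87b2_lc.KS
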