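import Pool.Agent.P.MP_8f87b2_lc.KS.Decide
import Pool.Agent.P.MP_8f87b2_lc.KS.Hv
import Pool.Agent.P.MP_8f87b2_lc.KS.Gen
import Pool.Agent.P.MP_8f87b2_lc.KS.Val
import Pool.Agent.P.MP_8f87b2_lc.KS.Bucket
import Pool.Agent.P.MP_8f87b2_lc.KS.RowB
import Pool.Agent.P.MP_8f87b2_lc.KS.One
import Pool.Agent.P.MP_8f87b2_lc.KS.Eval
import Pool.Agent.P.MP_8f87b2_lc.KS.Setup
import Pool.Agent.P.MP_8f87b2_lc.KS.Num
import Pool.Agent.P.MP_8f87b2_lc.KS.Time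
import Pool.Agent.P.MP_8f87b2_lc.KS.GoodHyp

/-!
# The final theorem
-/

namespace Pool.Agent.P.MP_8f87b2_lc.KS

theorem decides (k c : ℕ) (hk : Odd k) (h3 : 3 ≤ k) :
    ∃ γ : ℚ, γ < ((k : ℚ) + 1) / 2 ∧ DecidesK k c γ := by
  obtain ⟨m, rfl⟩ := hk
  have hRow : SRow := sRow sHv
  have hMain : SMain := sMain sSetup sRead sGen sVal (sList sHv)
    (sLoop sCol sZero (sAcc sChk) (sGlob hRow) (sEval sHv (sItem sHv sChk (sOne sGen hRow))))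
  obtain ⟨γ, h1, h2⟩ := decides_of hMain pMain_wf sK sBnd sTime sGood m (by omega) c
  refine ⟨γ, ?_, h2⟩
  push_cast
  linarith

end Pool.Agent.P.MP_8f87b2_lc.KS
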