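import Pool.Agent.P.MP_8f87b2_lc.KS.Base

/-!
# Counting solutions of the systems attached to one or two events
-/

namespace Pool.Agent.P.MP_8f87b2_lc.KS

open Finset

variable {M : ℕ} [NeZero M] {t q : ℕ}

namespace PairP

/-- the number of elements killed by an integer -/
def ker (M : ℕ) [NeZero M] (d : ℤ) : ℕ := (univ.filter fun y : ZMod M => (d : ZMod M) * y = 0).card

omit [NeZero M] in
theorem abs_mul_eq {d : ℤ} {y : ZMod M} (h : (d : ZMod M) * y = 0) :
    ((d.natAbs : ℕ) : ZMod M) * y = 0 := by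
  rw [← Int.cast_natCast]
  rcases Int.natAbs_eq d with e | e
  · rw [← e, h]
  · rw [show ((d.natAbs : ℕ) : ℤ) = -d by omega, Int.cast_neg, neg_mul, h, neg_zero]

theorem ker_le {d : ℤ} (hd : d ≠ 0) : ker M d ≤ d.natAbs := by
  have hM : 0 < M := Nat.pos_of_ne_zero (NeZero.ne M)
  have h0 : 0 < d.natAbs := Int.natAbs_pos.2 hd
  have hdvd : ∀ y : ZMod M, (d : ZMod M) * y = 0 → M ∣ d.natAbs * y.val := fun y hy => by
    rw [← ZMod.natCast_eq_zero_iff, Nat.cast_mul, ZMod.natCast_zmod_val]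
    exact abs_mul_eq hy
  rw [ker, ← card_range d.natAbs]
  refine card_le_card_of_injOn (fun y => d.natAbs * y.val / M) (fun y _ => ?_)
    fun y hy y' hy' e => ?_
  · rw [mem_coe, mem_range, Nat.div_lt_iff_lt_mul hM]
    exact Nat.mul_lt_mul_of_pos_left (ZMod.val_lt y) h0
  · have h1 := Nat.div_mul_cancel (hdvd y (mem_filter.1 hy).2)
    have h2 := Nat.div_mul_cancel (hdvd y' (mem_filter.1 hy').2)
    simp only at e
    rw [e, h2] at h1
    exact ZMod.val_injective M (Nat.eq_of_mul_eq_mul_left h0 h1).symm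

theorem ker_odd {k : ℕ} (hM : M = 2 ^ k) {d : ℤ} (hd : Odd d) : ker M d ≤ 1 := by
  have hu : IsUnit ((d.natAbs : ℕ) : ZMod M) := by
    rw [ZMod.isUnit_iff_coprime, hM]
    exact (Nat.coprime_two_right.2 (Int.natAbs_odd.2 hd)).pow_right k
  rw [ker, card_le_one]
  intro y hy y' hy'
  rw [(hu.mul_right_eq_zero).1 (abs_mul_eq (mem_filter.1 hy).2),
    (hu.mul_right_eq_zero).1 (abs_mul_eq (mem_filter.1 hy').2)]

theorem num_step_le {nR i : ℕ} (hi : i < nR) {P : (ℕ → ZMod M) → Prop}
    {φ : (ℕ → ZMod M) → ZMod M} {d : ℤ} (hP : Indep i P)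
    (hφ : ∀ R v, φ (Function.update R i v) = φ R + d * (v - R i)) (c : ZMod M) :
    num nR (fun R => P R ∧ φ R = c) * M ≤ ker M d * num nR P := by
  classical
  have hext : ∀ ω : Fin nR → ZMod M, ext ω i = ω ⟨i, hi⟩ := fun ω => by simp [ext, hi]
  have key : ∀ y : ZMod M,
      num nR (fun R => P R ∧ φ R = c) = num nR (fun R => P R ∧ φ R = c + d * y) := by
    intro y
    unfold num
    refine card_bij' (fun ω _ => Function.update ω ⟨i, hi⟩ (ω ⟨i, hi⟩ + y))
      (fun ω _ => Function.update ω ⟨i, hi⟩ (ω ⟨i, hi⟩ - y)) ?_ ?_ ?_ ?_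
    · intro ω hω
      simp only [mem_filter, mem_univ, true_and] at hω ⊢
      rw [ext_update, hP, hφ, hext, hω.2]
      exact ⟨hω.1, by ring⟩
    · intro ω hω
      simp only [mem_filter, mem_univ, true_and] at hω ⊢
      rw [ext_update, hP, hφ, hext, hω.2]
      exact ⟨hω.1, by ring⟩
    · intro ω _; simp
    · intro ω _; simp
  have h1 : num nR P = ∑ c' : ZMod M, num nR (fun R => P R ∧ φ R = c') := by
    unfold num
    rw [card_eq_sum_card_fiberwise (f := fun ω => φ (ext ω)) (t := univ) (fun _ _ => mem_univ _)]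
    refine sum_congr rfl fun c' _ => ?_
    rw [filter_filter]
    congr
  have h2 : num nR (fun R => P R ∧ φ R = c) * M =
      ∑ y : ZMod M, num nR (fun R => P R ∧ φ R = c + d * y) := by
    rw [← sum_congr rfl fun y _ => key y]
    simp [ZMod.card, mul_comm]
  rw [h2, h1, mul_sum, ← sum_fiberwise univ (fun y : ZMod M => c + d * y)]
  refine sum_le_sum fun c' _ => ?_
  rw [sum_congr rfl (g := fun _ => num nR (fun R => P R ∧ φ R = c'))
    fun y hy => by rw [(mem_filter.1 hy).2], sum_const, smul_eq_mul]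
  refine Nat.mul_le_mul_right _ ?_
  rcases (univ.filter fun y : ZMod M => c + d * y = c').eq_empty_or_nonempty with e | ⟨y0, hy0⟩
  · rw [e]
    exact Nat.zero_le _
  · refine card_le_card_of_injOn (fun y => y - y0) (fun y hy => ?_) fun y _ y' _ e => ?_
    · have a := (mem_filter.1 hy).2
      have b := (mem_filter.1 hy0).2
      simp only [coe_filter, mem_univ, true_and, Set.mem_ofPred_eq]
      linear_combination a - b
    · exact sub_left_injective e

/-- a linear form with integer coefficients -/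
def lf (q : ℕ) (c : ℕ → ℤ) (R : ℕ → ZMod M) : ZMod M := ∑ a ∈ range q, (c a : ZMod M) * R a

section forms

omit [NeZero M]

theorem lf_update (c : ℕ → ℤ) {i : ℕ} (hi : i < q) (R : ℕ → ZMod M) (v : ZMod M) :
    lf q c (Function.update R i v) = lf q c R + c i * (v - R i) := by
  unfold lf
  rw [← add_sum_erase _ _ (mem_range.2 hi), ← add_sum_erase _ _ (mem_range.2 hi),
    Function.update_self,
    sum_congr rfl fun a ha => by rw [Function.update_of_ne (ne_of_mem_erase ha)]]
  ring

theorem lf_con (c : ℕ → ℤ) {i : ℕ} (hi : q ≤ i) : Con (M := M) i (lf q c) := fun R v =>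
  sum_congr rfl fun a ha => by
    rw [Function.update_of_ne (by have := mem_range.1 ha; omega)]

theorem Hd_con (w : ℕ) {i : ℕ} (hi : q ≤ i) (R : ℕ → ZMod M) (v : ZMod M) :
    Hd t q (Function.update R i v) w = Hd t q R w :=
  sum_congr rfl fun a ha => by
    rw [Function.update_of_ne (by have := mem_range.1 ha; omega)]

theorem Hd_sub (R : ℕ → ZMod M) (u u' : ℕ) :
    Hd t q R u - Hd t q R u' = lf q (fun a => (dg t a u : ℤ) - dg t a u') R := by
  unfold Hd lf
  rw [← sum_sub_distrib]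
  exact sum_congr rfl fun a _ => by push_cast; ring

theorem lf_comb (x y : ℤ) (c c' : ℕ → ℤ) (R : ℕ → ZMod M) :
    lf q (fun a => x * c a - y * c' a) R = x * lf q c R - y * lf q c' R := by
  unfold lf
  rw [mul_sum, mul_sum, ← sum_sub_distrib]
  exact sum_congr rfl fun a _ => by push_cast; ring

theorem ks_lin {o : ℕ} (ho : q ≤ o) (w : ℕ) : Lin (M := M) o (ks t q o w) := fun R v => by
  unfold ks
  rw [Function.update_self, Hd_con w ho]
  ring

theorem ks_con {o i : ℕ} (hi : q ≤ i) (h : o ≠ i) (w : ℕ) : Con (M := M) i (ks t q o w) :=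
  fun R v => by
    unfold ks
    rw [Function.update_of_ne h, Hd_con w hi]

end forms

theorem num_offs {P : (ℕ → ZMod M) → Prop} (h1 : Indep q P) (h2 : Indep (q + 1) P)
    (α β : ZMod M) (p : ℕ × ℕ) :
    num (q + 2) (fun R => P R ∧ cov t q α β p R) * M ^ 2 = num (q + 2) P := by
  rw [← num_step (i := q) (by omega) h1 (ks_lin (t := t) le_rfl p.1) α, pow_two, ← mul_assoc]
  congr 1
  rw [← num_step (i := q + 1) (by omega)
    (h2.and ((ks_con (t := t) (o := q) (by omega) (by omega) p.1).indep α))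
    (ks_lin (t := t) (o := q + 1) (Nat.le_succ q) p.2) β]
  congr 1
  exact num_congr fun R => and_assoc.symm

theorem num_lf (c : ℕ → ℤ) {i : ℕ} (hi : i < q) (δ : ZMod M) :
    num (q + 2) (fun R => lf q c R = δ) * M ≤ ker M (c i) * M ^ (q + 2) := by
  have h := num_step_le (nR := q + 2) (i := i) (by omega) (P := fun _ => True)
    (fun _ _ => Iff.rfl) (lf_update c hi) δ
  rw [num_true] at h
  simpa using h

theorem num_minor (α β : ZMod M) (p p' : ℕ × ℕ) {i j : ℕ} (hi : i < q) (hj : j < q) :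
    num (q + 2) (fun R => cov t q α β p R ∧ cov t q α β p' R) * M ^ 4 ≤
      ker M (mnr t p p' i j) ^ 2 * M ^ (q + 2) := by
  set d1 : ℕ → ℤ := fun a => (dg t a p.1 : ℤ) - dg t a p'.1 with hd1
  set d2 : ℕ → ℤ := fun a => (dg t a p.2 : ℤ) - dg t a p'.2 with hd2
  set c1 : ℕ → ℤ := fun a => d2 j * d1 a - d1 j * d2 a with hc1
  set c2 : ℕ → ℤ := fun a => d1 i * d2 a - d2 i * d1 a with hc2
  have e1 : c1 i = mnr t p p' i j := by simp only [hc1, hd1, hd2, mnr]; ring
  have e2 : c2 j = mnr t p p' i j := by simp only [hc2, hd1, hd2, mnr]; ring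
  have e3 : c1 j = 0 := by simp only [hc1]; ring
  have h1 := num_lf (M := M) c1 hi 0
  have h2 := num_step_le (nR := q + 2) (i := j) (by omega) (P := fun R => lf q c1 R = (0 : ZMod M))
    (fun R v => by simp only [lf_update c1 hj, e3, Int.cast_zero, zero_mul, add_zero])
    (lf_update c2 hj) 0
  have h3 := num_offs (t := t) (P := fun R => lf q c1 R = (0 : ZMod M) ∧ lf q c2 R = 0)
    (((lf_con c1 le_rfl).indep 0).and ((lf_con c2 le_rfl).indep 0))
    (((lf_con c1 (by omega)).indep 0).and ((lf_con c2 (by omega)).indep 0)) α β p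
  have h4 : num (q + 2) (fun R => cov t q α β p R ∧ cov t q α β p' R) ≤
      num (q + 2) (fun R => (lf q c1 R = 0 ∧ lf q c2 R = 0) ∧ cov t q α β p R) := by
    refine num_mono fun R h => ⟨?_, h.1⟩
    obtain ⟨⟨a1, a2⟩, b1, b2⟩ := h
    unfold ks at a1 a2 b1 b2
    have z1 : lf q d1 R = 0 := by
      rw [hd1, ← Hd_sub]
      linear_combination a1 - b1
    have z2 : lf q d2 R = 0 := by
      rw [hd2, ← Hd_sub]
      linear_combination a2 - b2
    rw [hc1, hc2, lf_comb, lf_comb, z1, z2]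
    constructor <;> ring
  rw [e1] at h1
  rw [e2, ← h3] at h2
  calc _ ≤ num (q + 2) (fun R => (lf q c1 R = 0 ∧ lf q c2 R = 0) ∧ cov t q α β p R) * M ^ 2 *
        M * M := by
        rw [mul_assoc, mul_assoc, show M ^ 2 * (M * M) = M ^ 4 by ring]
        exact Nat.mul_le_mul_right _ h4
    _ ≤ ker M (mnr t p p' i j) * num (q + 2) (fun R => lf q c1 R = 0) * M :=
        Nat.mul_le_mul_right _ h2
    _ ≤ _ := by
        rw [mul_assoc, pow_two, mul_assoc]
        exact Nat.mul_le_mul_left _ h1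

theorem natAbs_dg_le (ht : 0 < t) (a u u' : ℕ) : ((dg t a u : ℤ) - dg t a u').natAbs ≤ t := by
  have h1 := dg_lt ht a u
  have h2 := dg_lt ht a u'
  omega

end PairP

open PairP

theorem num_cov (α β : ZMod M) (p : ℕ × ℕ) :
    num (q + 2) (cov t q α β p) * M ^ 2 = M ^ (q + 2) := by
  rw [← num_true (M := M) (nR := q + 2), ← num_offs (t := t) (P := fun _ => True)
    (fun _ _ => Iff.rfl) (fun _ _ => Iff.rfl) α β p]
  simp

theorem num_need (γ : ℕ → ZMod M) (e : ℕ × ℕ × ℕ) :
    num (q + 2) (need t q γ e) * M = M ^ (q + 2) := by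
  rw [← num_true (M := M) (nR := q + 2), ← num_step (i := q + 1) (by omega)
    (P := fun _ => True) (fun _ _ => Iff.rfl)
    (φ := fun R => ks t q q e.1 R + R (q + 1) + γ e.2.1 + (e.2.2 : ZMod M)) (fun R v => by
      beta_reduce
      rw [ks_con (by omega) (by omega) e.1, Function.update_self]
      ring) 0]
  congr 1
  exact num_congr fun R => by simp [need]

/-- one more equation in two different digit strings -/
theorem num_cov_diff (ht : 0 < t) (α β δ : ZMod M) (p : ℕ × ℕ) {u u' : ℕ} (hu : u < t ^ q)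
    (hu' : u' < t ^ q) (hne : u ≠ u') :
    num (q + 2) (fun R => Hd t q R u - Hd t q R u' = δ ∧ cov t q α β p R) * M ^ 3 ≤
      t * M ^ (q + 2) := by
  obtain ⟨i, hi, hd⟩ : ∃ i < q, dg t i u ≠ dg t i u' := by
    by_contra hc
    push Not at hc
    exact hne (dg_ext hu hu' hc)
  simp only [Hd_sub]
  rw [pow_succ M 2, ← mul_assoc, num_offs ((lf_con _ le_rfl).indep δ)
    ((lf_con _ (by omega)).indep δ)]
  exact (num_lf _ hi δ).trans (Nat.mul_le_mul_right _
    ((ker_le (by omega)).trans (natAbs_dg_le ht i u u')))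

/-- two events with an odd minor are independent -/
theorem num_cov_odd {k : ℕ} (hM : M = 2 ^ k) (α β : ZMod M) {p p' : ℕ × ℕ} {i j : ℕ} (hi : i < q)
    (hj : j < q) (h : Odd (mnr t p p' i j)) :
    num (q + 2) (fun R => cov t q α β p R ∧ cov t q α β p' R) * M ^ 4 ≤ M ^ (q + 2) := by
  refine (num_minor α β p p' hi hj).trans ?_
  have h1 := Nat.pow_le_pow_left (ker_odd hM h) 2
  simpa using Nat.mul_le_mul_right (M ^ (q + 2)) h1

/-- two events with a nonzero minor -/
theorem num_cov_minor (ht : 0 < t) (α β : ZMod M) {p p' : ℕ × ℕ} {i j : ℕ} (hi : i < q)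
    (hj : j < q) (h : mnr t p p' i j ≠ 0) :
    num (q + 2) (fun R => cov t q α β p R ∧ cov t q α β p' R) * M ^ 4 ≤
      4 * t ^ 4 * M ^ (q + 2) := by
  refine (num_minor α β p p' hi hj).trans (Nat.mul_le_mul_right _ ?_)
  have h1 : (mnr t p p' i j).natAbs ≤ 2 * t ^ 2 := by
    refine (Int.natAbs_sub_le _ _).trans ?_
    rw [Int.natAbs_mul, Int.natAbs_mul, two_mul, pow_two]
    exact Nat.add_le_add (Nat.mul_le_mul (natAbs_dg_le ht _ _ _) (natAbs_dg_le ht _ _ _))
      (Nat.mul_le_mul (natAbs_dg_le ht _ _ _) (natAbs_dg_le ht _ _ _))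
  refine (Nat.pow_le_pow_left ((ker_le h).trans h1) 2).trans (le_of_eq ?_)
  ring

end Pool.Agent.P.MP_8f87b2_lc.KS
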