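import Pool.Agent.P.MP_8f87b2_lc.KS.Base

/-!
# The digit recursion computes the weighted carry-free product
-/

namespace Pool.Agent.P.MP_8f87b2_lc.KS

open Finset

namespace ZetP

/-- the weighted difference operator -/
def dl (ε : ℤ) : Module.End ℤ (ℕ → ℤ) where
  toFun f x := f (x + 1) + ε * f x
  map_add' f g := by funext x; simp only [Pi.add_apply]; ring
  map_smul' c f := by funext x; simp only [Pi.smul_apply, smul_eq_mul, RingHom.id_apply]; ring

theorem dl_apply (ε : ℤ) (f : ℕ → ℤ) (x : ℕ) : dl ε f x = f (x + 1) + ε * f x := rfl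

/-- the recursion in one digit after the thresholds below `r` -/
def g (ε : ℤ) (f : ℕ → ℤ) (r x : ℕ) : ℤ := (dl ε ^ min x (r - 1)) f (x - min x (r - 1))

theorem g_zero (ε : ℤ) (f : ℕ → ℤ) (x : ℕ) : g ε f 0 x = f x := by simp [g]

theorem g_succ (ε : ℤ) (f : ℕ → ℤ) (r x : ℕ) :
    g ε f (r + 1) x = g ε f r x + if 1 ≤ r ∧ r ≤ x then ε * g ε f r (x - 1) else 0 := by
  unfold g
  split_ifs with h
  · obtain ⟨s, rfl⟩ : ∃ s, r = s + 1 := ⟨r - 1, by omega⟩
    rw [show min x (s + 1 + 1 - 1) = s + 1 by omega, show min x (s + 1 - 1) = s by omega,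
      show min (x - 1) (s + 1 - 1) = s by omega, pow_succ', Module.End.mul_apply, dl_apply,
      show x - (s + 1) + 1 = x - s by omega, show x - 1 - s = x - (s + 1) by omega]
  · rw [show min x (r + 1 - 1) = min x (r - 1) by omega, add_zero]

theorem g_top (ε : ℤ) (f : ℕ → ℤ) {t x : ℕ} (h : x < t) : g ε f t x = (dl ε ^ x) f 0 := by
  rw [g, show min x (t - 1) = x by omega, Nat.sub_self]

theorem dl_ind (y n m : ℕ) : (dl 1 ^ n) (fun x => if x = y then 1 else 0) m =
    if m ≤ y then (n.choose (y - m) : ℤ) else 0 := by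
  induction n generalizing m with
  | zero =>
    rw [pow_zero, Module.End.one_apply]
    rcases lt_trichotomy m y with h | rfl | h
    · rw [if_neg h.ne, if_pos h.le, Nat.choose_eq_zero_of_lt (by omega), Nat.cast_zero]
    · simp
    · rw [if_neg h.ne', if_neg (by omega)]
  | succ n ih =>
    rw [pow_succ', Module.End.mul_apply, dl_apply, ih, ih, one_mul]
    rcases lt_trichotomy m y with h | rfl | h
    · rw [if_pos (by omega), if_pos h.le, if_pos h.le, show y - m = y - (m + 1) + 1 by omega,
        Nat.choose_succ_succ, Nat.cast_add]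
    · simp
    · rw [if_neg (by omega), if_neg (by omega), if_neg (by omega), add_zero]

/-- the product of two binomial coefficients -/
def cc (u v : ℕ) : ℕ → ℤ := fun x => (x.choose u : ℤ) * x.choose v

theorem dl_cc (e : ℕ) : ∀ u v m, u + v ≤ e →
    (dl (-1) ^ e) (cc u v) m = if u + v = e then (e.choose u : ℤ) else 0 := by
  induction e with
  | zero =>
    intro u v m h
    obtain ⟨rfl, rfl⟩ : u = 0 ∧ v = 0 := by omega
    simp [cc]
  | succ e ih =>
    intro u v m h
    rw [pow_succ, Module.End.mul_apply]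
    rcases u with _ | u <;> rcases v with _ | v
    · rw [show dl (-1) (cc 0 0) = 0 by funext x; simp [dl_apply, cc], map_zero, if_neg (by omega)]
      rfl
    · rw [show dl (-1) (cc 0 (v + 1)) = cc 0 v by
        funext x; simp [dl_apply, cc, Nat.choose_succ_succ], ih _ _ _ (by omega)]
      simp
    · rw [show dl (-1) (cc (u + 1) 0) = cc u 0 by
        funext x; simp [dl_apply, cc, Nat.choose_succ_succ], ih _ _ _ (by omega)]
      by_cases c : u = e
      · simp [c]
      · simp [c]
    · rw [show dl (-1) (cc (u + 1) (v + 1)) = cc u (v + 1) + cc (u + 1) v + cc u v by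
        funext x
        simp only [dl_apply, cc, Nat.choose_succ_succ, Pi.add_apply, Nat.cast_add]
        ring, map_add, map_add, Pi.add_apply, Pi.add_apply, ih _ _ _ (by omega),
        ih _ _ _ (by omega), ih _ _ _ (by omega), if_neg (show ¬ u + v = e by omega)]
      by_cases c : u + (v + 1) = e
      · rw [if_pos c, if_pos (by omega), if_pos (by omega), Nat.choose_succ_succ, Nat.cast_add,
          add_zero]
      · rw [if_neg c, if_neg (by omega), if_neg (by omega), add_zero, add_zero]

theorem zet_sum {ι : Type} {t q : ℕ} (ht : 0 < t) (ε : ℤ) (s : Finset ι) (c : ι → ℤ)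
    (f : ι → ℕ → ℕ → ℤ) (X : ℕ → ℤ)
    (hX : ∀ w < t ^ q, X w = ∑ i ∈ s, c i * ∏ a ∈ range q, f i a (dg t a w)) (j : ℕ) :
    j ≤ q * t → ∀ w < t ^ q, zet t ε X j w =
      ∑ i ∈ s, c i * ∏ a ∈ range q, g ε (f i a) (min t (j - a * t)) (dg t a w) := by
  induction j with
  | zero =>
    intro _ w hw
    simp only [zet, Nat.zero_sub, Nat.min_zero, g_zero]
    exact hX w hw
  | succ j ih =>
    intro hj w hw
    have h0 : j / t ∈ range q := mem_range.2 (Nat.div_lt_of_lt_mul (by rw [mul_comm]; omega))
    have h1 := Nat.div_add_mod' j t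
    have h2 := Nat.mod_lt j ht
    have e0 : min t (j - j / t * t) = j % t := by omega
    have e1 : min t (j + 1 - j / t * t) = j % t + 1 := by omega
    have e2 : ∀ a ∈ (range q).erase (j / t), min t (j + 1 - a * t) = min t (j - a * t) := by
      intro a ha
      rcases lt_or_gt_of_ne (ne_of_mem_erase ha) with h | h
      · have := Nat.mul_le_mul_right t (Nat.succ_le_of_lt h)
        rw [Nat.succ_mul] at this
        omega
      · have := Nat.mul_le_mul_right t (Nat.succ_le_of_lt h)
        rw [Nat.succ_mul] at this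
        omega
    rw [zet, ih (by omega) w hw]
    split_ifs with h
    · rw [ih (by omega) _ ((Nat.sub_le _ _).trans_lt hw), mul_sum, ← sum_add_distrib]
      refine sum_congr rfl fun i _ => ?_
      rw [← mul_prod_erase _ _ h0, ← mul_prod_erase _ _ h0, ← mul_prod_erase _ _ h0, e0, e1,
        g_succ, if_pos h, dg_sub_pow ht (h.1.trans h.2), if_pos rfl,
        prod_congr rfl fun a ha => show g ε (f i a) (min t (j + 1 - a * t)) (dg t a w) =
          g ε (f i a) (min t (j - a * t)) (dg t a w) by rw [e2 a ha],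
        prod_congr rfl fun a ha => show g ε (f i a) (min t (j - a * t)) (dg t a (w - t ^ (j / t))) =
          g ε (f i a) (min t (j - a * t)) (dg t a w) by
            rw [dg_sub_pow ht (h.1.trans h.2), if_neg (ne_of_mem_erase ha)]]
      ring
    · rw [add_zero]
      refine sum_congr rfl fun i _ => ?_
      rw [← mul_prod_erase _ _ h0, ← mul_prod_erase _ _ h0, e0, e1, g_succ, if_neg h, add_zero,
        prod_congr rfl fun a ha => show g ε (f i a) (min t (j + 1 - a * t)) (dg t a w) =
          g ε (f i a) (min t (j - a * t)) (dg t a w) by rw [e2 a ha]]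

theorem zet_top {ι : Type} {t q : ℕ} (ht : 0 < t) (ε : ℤ) (s : Finset ι) (c : ι → ℤ)
    (f : ι → ℕ → ℕ → ℤ) (X : ℕ → ℤ)
    (hX : ∀ w < t ^ q, X w = ∑ i ∈ s, c i * ∏ a ∈ range q, f i a (dg t a w)) {w : ℕ}
    (hw : w < t ^ q) : zet t ε X (q * t) w =
      ∑ i ∈ s, c i * ∏ a ∈ range q, (dl ε ^ dg t a w) (f i a) 0 := by
  rw [zet_sum ht ε s c f X hX _ le_rfl w hw]
  refine sum_congr rfl fun i _ => congrArg _ (prod_congr rfl fun a ha => ?_)
  have := Nat.mul_le_mul_right t (Nat.succ_le_of_lt (mem_range.1 ha))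
  rw [Nat.succ_mul] at this
  rw [show min t (q * t - a * t) = t by omega, g_top _ _ (dg_lt ht a w)]

theorem zet_one {t q : ℕ} (ht : 0 < t) (X : ℕ → ℤ) {w : ℕ} (hw : w < t ^ q) :
    zet t 1 X (q * t) w =
      ∑ u ∈ range (t ^ q), X u * ∏ a ∈ range q, ((dg t a w).choose (dg t a u) : ℤ) := by
  rw [zet_top ht 1 (range (t ^ q)) X (fun u a x => if x = dg t a u then 1 else 0) X ?_ hw]
  · refine sum_congr rfl fun u _ => congrArg _ (prod_congr rfl fun a _ => ?_)
    rw [dl_ind, if_pos (Nat.zero_le _), Nat.sub_zero]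
  · intro v hv
    rw [sum_eq_single_of_mem v (mem_range.2 hv)]
    · simp
    · intro u hu hne
      obtain ⟨a, ha, h⟩ : ∃ a < q, dg t a v ≠ dg t a u := by
        by_contra hc
        push Not at hc
        exact hne (dg_ext hv (mem_range.1 hu) hc).symm
      rw [prod_eq_zero (mem_range.2 ha) (if_neg h), mul_zero]

end ZetP

open ZetP

/-- the recursion computes the weighted carry-free product at the top -/
theorem zet_root {t q h : ℕ} (ht : 0 < t) (X Y : ℕ → ℤ) {e : ℕ} (he : e < t ^ q)
    (hs : ds t q e = 2 * h) (hX : ∀ w, ds t q w ≠ h → X w = 0)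
    (hY : ∀ w, ds t q w ≠ h → Y w = 0) :
    zet t (-1) (fun w => zet t 1 X (q * t) w * zet t 1 Y (q * t) w) (q * t) e =
      ∑ u ∈ (range (t ^ q)).filter fun u => Below t q u e,
        ((∏ a ∈ range q, (dg t a e).choose (dg t a u) : ℕ) : ℤ) * (X u * Y (e - u)) := by
  rw [zet_top ht (-1) (range (t ^ q) ×ˢ range (t ^ q)) (fun p => X p.1 * Y p.2)
    (fun p a => cc (dg t a p.1) (dg t a p.2)) _ ?_ he]
  swap
  · intro w hw
    rw [zet_one ht X hw, zet_one ht Y hw, sum_mul_sum, sum_product]
    refine sum_congr rfl fun u _ => sum_congr rfl fun v _ => ?_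
    simp only [cc, prod_mul_distrib]
    ring
  rw [sum_product, sum_filter]
  refine sum_congr rfl fun u hu => ?_
  dsimp only
  have hu' := mem_range.1 hu
  have key : ∀ v ∈ range (t ^ q), (¬ ∀ a < q, dg t a u + dg t a v = dg t a e) →
      X u * Y v * ∏ a ∈ range q, (dl (-1) ^ dg t a e) (cc (dg t a u) (dg t a v)) 0 = 0 := by
    intro v _ hne
    by_cases h1 : ds t q u = h
    swap
    · rw [hX u h1, zero_mul, zero_mul]
    by_cases h2 : ds t q v = h
    swap
    · rw [hY v h2, mul_zero, zero_mul]
    obtain ⟨a, ha, hl⟩ : ∃ a < q, dg t a u + dg t a v < dg t a e := by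
      by_contra hc
      push Not at hc hne
      obtain ⟨b, hb, hb'⟩ := hne
      have := sum_lt_sum (s := range q) (f := fun a => dg t a e)
        (g := fun a => dg t a u + dg t a v) (fun a ha => hc a (mem_range.1 ha))
        ⟨b, mem_range.2 hb, lt_of_le_of_ne (hc b hb) hb'.symm⟩
      rw [sum_add_distrib] at this
      unfold ds at hs h1 h2
      omega
    rw [prod_eq_zero (mem_range.2 ha) (by rw [dl_cc _ _ _ _ hl.le, if_neg hl.ne]), mul_zero]
  split_ifs with hb
  · have h1 := (sub_nb ht hu' he hb).2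
    have h2 : e - u < t ^ q := (Nat.sub_le _ _).trans_lt he
    rw [sum_eq_single_of_mem (e - u) (mem_range.2 h2), mul_comm, Nat.cast_prod]
    · refine congrArg (· * _) (prod_congr rfl fun a ha => ?_)
      have := h1 a (mem_range.1 ha)
      rw [dl_cc _ _ _ _ (by omega), if_pos (by omega)]
    · refine fun v hv hne => key v hv fun hc => hne (dg_ext (mem_range.1 hv) h2 fun a ha => ?_)
      have := h1 a ha
      have := hc a ha
      omega
  · refine sum_eq_zero fun v hv => key v hv fun hc => hb fun a ha => ?_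
    have := hc a ha
    omega

end Pool.Agent.P.MP_8f87b2_lc.KS
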