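import Pool.Agent.P.MP_8f87b2_lc.KS.Spec
import Pool.Agent.P.MP_8f87b2_lc.KS.Zet
import Pool.Agent.P.MP_8f87b2_lc.KS.Col

/-!
# Soundness of the test
-/

namespace Pool.Agent.P.MP_8f87b2_lc.KS

open Finset

variable {c : Cx}

/-- the colliding triples in the output `e` -/
def Cx.coll (c : Cx) (R : ℕ → ℕ) (r : ℕ) (u : ℕ × ℕ) (e : ℕ) : Finset (ℕ × ℕ × ℕ) :=
  (((range c.Q).filter fun w => Below c.t c.q w e) ×ˢ range c.N ×ˢ range c.N).filter fun p =>
    (ds c.t c.q p.1 = c.h ∧ c.isA u p.2.1 ∧ c.γ r p.2.1 = (R c.q + c.Hn R p.1) % c.M) ∧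
    (ds c.t c.q (e - p.1) = c.h ∧ c.isC u p.2.2 ∧
      c.γ r p.2.2 = (R (c.q + 1) + c.Hn R (e - p.1)) % c.M)

/-- the multiplicity of a collision -/
def Cx.mul (c : Cx) (e w : ℕ) : ℕ := ∏ a ∈ range c.q, (dg c.t a e).choose (dg c.t a w)

theorem WT_low (r : ℕ) (u : ℕ × ℕ) {a : ℕ} (ha : a < c.M) : c.WT r u c.N a =
    ∑ z ∈ range c.N, if c.isA u z ∧ c.γ r z = a then wt c.T (c.x z) else 0 :=
  sum_congr rfl fun z _ => by rw [if_neg (c := c.isC u z ∧ _) fun h => by omega, add_zero]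

theorem WT_high (r : ℕ) (u : ℕ × ℕ) (a : ℕ) : c.WT r u c.N (a + c.M) =
    ∑ z ∈ range c.N, if c.isC u z ∧ c.γ r z = a then wt c.T (c.x z) else 0 :=
  sum_congr rfl fun z _ => by
    have := c.γ_lt r z
    rw [if_neg (c := c.isA u z ∧ _) fun h => by omega, zero_add]
    simp only [Nat.add_right_cancel_iff]

theorem uz_coll (R : ℕ → ℕ) (r : ℕ) (u : ℕ × ℕ) {e : ℕ} (he : e < c.Q)
    (hc : ds c.t c.q e = c.L) :
    c.Uz R r u e = ∑ p ∈ c.coll R r u e,
      (c.mul e p.1 : ℤ) * (wt c.T (c.x p.2.1) * wt c.T (c.x p.2.2)) := by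
  have h := zet_root c.t_pos (c.Xz R r u 0) (c.Xz R r u 1) he hc (fun p hp => if_neg hp)
    (fun p hp => if_neg hp)
  refine Eq.trans h ?_
  rw [Cx.coll, sum_filter (s := _ ×ˢ _), sum_product]
  refine sum_congr rfl fun w _ => ?_
  rw [Cx.Xz, Cx.Xz]
  by_cases h1 : ds c.t c.q w = c.h
  · by_cases h2 : ds c.t c.q (e - w) = c.h
    · rw [if_pos h1, if_pos h2, zero_mul, add_zero, add_zero, one_mul,
        WT_low _ _ (Nat.mod_lt _ c.M_pos), WT_high, sum_mul_sum, sum_product, mul_sum]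
      refine sum_congr rfl fun a _ => ?_
      rw [mul_sum]
      refine sum_congr rfl fun b _ => ?_
      rw [ite_zero_mul_ite_zero]
      simp only [h1, h2, true_and, mul_ite, mul_zero, Cx.mul]
    · simp [h2]
  · simp [h1]

theorem mul_pos' {e w : ℕ} (h : Below c.t c.q w e) : 0 < c.mul e w :=
  prod_pos fun a ha => Nat.choose_pos (h a (mem_range.mp ha))

theorem mul_le' (e w : ℕ) : c.mul e w ≤ 2 ^ c.J := by
  refine (prod_le_pow_card _ _ (2 ^ c.t) fun a _ => (Nat.choose_le_two_pow _ _).trans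
    (Nat.pow_le_pow_right (by norm_num) (dg_lt c.t_pos _ _).le)).trans ?_
  rw [card_range, ← pow_mul, mul_comm, Cx.J]

theorem test_iff (hN : Nm c) (R : ℕ → ℕ) (r : ℕ) (u : ℕ × ℕ) {e : ℕ} (he : e < c.Q)
    (hc : ds c.t c.q e = c.L) {z : ℕ} (hz : z < c.N) :
    c.test R r u e z ↔ (c.coll R r u e).Nonempty ∧
      ∀ p ∈ c.coll R r u e, c.x p.2.1 + c.x p.2.2 + c.x z = 0 := by
  have hmem : ∀ p ∈ c.coll R r u e, Below c.t c.q p.1 e ∧ p.2.1 < c.N ∧ p.2.2 < c.N := by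
    intro p hp
    simp only [Cx.coll, mem_filter, mem_product, mem_range] at hp
    exact ⟨hp.1.1.2, hp.1.2⟩
  set C := (c.coll R r u e).sigma fun p => range (c.mul e p.1) with hC
  have hcard : C.card ≤ c.Q * (c.N * c.N) * 2 ^ c.J := by
    rw [hC, card_sigma]
    refine (sum_le_card_nsmul _ _ (2 ^ c.J) fun p _ => by
      rw [card_range]; exact mul_le' _ _).trans ?_
    rw [smul_eq_mul]
    refine Nat.mul_le_mul_right _ ((card_filter_le _ _).trans ?_)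
    simp only [card_product, card_range]
    exact Nat.mul_le_mul_right _ ((card_filter_le _ _).trans_eq (card_range _))
  have key := finger C (fun q => c.x q.1.2.1) (fun q => c.x q.1.2.2) (c.x z) c.T
    (c.Q * (c.N * c.N) * 2 ^ c.J : ℕ) c.V (by exact_mod_cast hcard) (fun q hq => ?_)
    (by exact_mod_cast c.V_pos) (by exact_mod_cast hN.fin)
    ((c.Uz R r u e * wt c.T (c.x z)) % c.T ^ 3) (by
      rw [uz_coll R r u he hc, sum_mul, hC, sum_sigma]
      congr 1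
      refine sum_congr rfl fun p _ => ?_
      simp only [sum_const, card_range, nsmul_eq_mul]
      ring)
  · refine key.trans ⟨fun ⟨⟨p, hp⟩, h2⟩ => ⟨⟨p.1, (mem_sigma.mp hp).1⟩, fun p hp => ?_⟩,
      fun ⟨⟨p, hp⟩, h2⟩ => ⟨⟨⟨p, 0⟩, ?_⟩, fun p hp => h2 _ (mem_sigma.mp hp).1⟩⟩
    · exact h2 ⟨p, 0⟩ (mem_sigma.mpr ⟨hp, mem_range.mpr (mul_pos' (hmem p hp).1)⟩)
    · exact mem_sigma.mpr ⟨hp, mem_range.mpr (mul_pos' (hmem p hp).1)⟩
  · have hp := hmem _ (mem_sigma.mp hq).1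
    have := hN.xV _ hp.2.1
    have := hN.xV _ hp.2.2
    have := hN.xV _ hz
    have := abs_add_three (c.x q.1.2.1) (c.x q.1.2.2) (c.x z)
    have := abs_nonneg (c.x z)
    linarith

theorem col_valid {p d : ℕ} (h : c.col p d ≠ 0) : 1 ≤ d ∧ d ≤ c.n := by
  by_contra h1
  exact h (if_neg h1)

theorem col_le (hN : Nm c) (p d : ℕ) : c.col p d < c.Q := by
  have := hN.nb
  have := hN.bN
  have := hN.NQ
  have := Nat.mod_le d p
  unfold Cx.col
  split_ifs <;> omega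

theorem x_single (hN : Nm c) {d : ℕ} (hd : d < c.b) : c.x d = c.y d :=
  val_single hN.m1 (hN.y0 0 (by omega)) hd

theorem isC_lt (hN : Nm c) {u : ℕ × ℕ} {a d : ℕ} (ha : c.isA u a) (hd : c.isC u d) : d < c.b := by
  unfold Cx.isA at ha
  unfold Cx.isC at hd
  have := (col_valid (c := c) (p := u.1) (d := d) (by omega)).2
  have := hN.nb
  omega

theorem sSound : SSound := by
  rintro c hN R r ⟨u, e, z, he, hz, hL, hB, ht⟩
  obtain ⟨⟨p, hp⟩, h0⟩ := (test_iff hN R r u he hL hz).mp ht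
  have h1 := h0 p hp
  simp only [Cx.coll, mem_filter, mem_product, mem_range] at hp
  obtain ⟨-, ⟨-, a1, -⟩, -, b1, -⟩ := hp
  rw [x_single hN (isC_lt hN a1 b1)] at h1
  unfold Cx.isA at a1
  unfold Cx.isB at hB
  unfold Cx.isC at b1
  rw [← b1] at a1 hB
  exact tuple_sound (fun d => (col_le hN _ d).le) (fun d => col_valid) a1 hB h1

theorem sSplit : SSplit := by
  intro c hN S hS hc h0
  have hb : ∀ d ∈ S, 1 ≤ d ∧ d ≤ c.n := fun d hd => mem_Icc.mp (hS hd)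
  have hlt : ∀ d ∈ S, d < c.b := fun d hd => (hb d hd).2.trans_lt hN.nb
  obtain ⟨p, p1, p2, hp⟩ := exists_mod (l := c.lb) hlt
  rw [hc] at p2
  have pA := hN.pA
  have hcol : ∀ d ∈ S, c.col p d = d % p + 1 := fun d hd => if_pos (hb d hd)
  obtain ⟨za, ha, d, hd, zb, hzb, h1, h2, h3⟩ := tuple_complete (B := c.Q) (col := c.col p) hlt hc
    (fun d hd d' hd' h => hp hd hd' (by
      rw [hcol d hd, hcol d' hd'] at h; exact Nat.add_right_cancel h))
    (fun d hd => ⟨by rw [hcol d hd]; omega, col_le hN p d⟩) c.y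
  refine ⟨(p, c.col p d), by omega, ?_, za, ha, d, hlt d hd, zb, hzb, h1, rfl, h2, ?_⟩
  · have := Nat.mod_lt d p1
    rw [hcol d hd]; omega
  · rw [x_single hN (hlt d hd), ← h0, ← h3]; rfl

end Pool.Agent.P.MP_8f87b2_lc.KS
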