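import Pool.Agent.P.MP_8f87b2_lc.Compile
import Pool.Agent.P.MP_8f87b2_lc.KS.Ctx

/-!
# The specifications of the program fragments
-/

namespace Pool.Agent.P.MP_8f87b2_lc.KS

open Finset

def SHv : Prop := ∀ {E : Env} {c : Cx}, Bnd c E → ∀ {x : ℕ}, x ∉ [34, 35, 37, 57] →
  ∀ {σ : St} {t : ℕ}, Par c σ → ∀ {R : ℕ → ℕ}, σ.bank 0 = R → (∀ i < c.nR, R i < c.M) →
  ∀ {w : ℕ}, σ.var x = w →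
  WP E (pHv x) (fun σ' t' => σ'.var 34 = c.Hn R w ∧ σ'.var 35 = ds c.t c.q w ∧
    t' ≤ t + c.tHv) σ t

def SChk : Prop := ∀ {E : Env} {c : Cx}, Bnd c E → ∀ {x : ℕ}, x ∉ [37, 57, 64] →
  ∀ {σ : St} {t : ℕ}, Par c σ → ∀ {p z st : ℕ}, σ.bank 5 = c.col p → σ.var x = z →
  σ.var 64 = st →
  WP E (pChk x) (fun σ' t' => σ'.var 64 = chn (c.col p) c.b c.Q z st c.m ∧
    t' ≤ t + c.tChk) σ t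

def SCol : Prop := ∀ {E : Env} {c : Cx}, Bnd c E → ∀ {σ : St} {t : ℕ}, Par c σ →
  ∀ {p : ℕ}, σ.var 40 = p → p < c.A → (∀ d, ¬ (1 ≤ d ∧ d ≤ c.n) → σ.bank 5 d = 0) →
  WP E pCol (fun σ' t' => σ'.bank 5 = c.col p ∧ t' ≤ t + (c.n * 6 + 3)) σ t

def SRead : Prop := ∀ {E : Env} {c : Cx}, Bnd c E → ∀ {σ : St} {t : ℕ}, Par c σ →
  WP E pRead (fun σ' t' => (∀ i < c.nR, σ'.bank 0 i = bits E.ω (σ.pos + i * c.k) c.k) ∧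
    t' ≤ t + (c.nR * (4 * c.k + 6) + 2)) σ t

def SZero : Prop := ∀ {E : Env} {c : Cx}, Bnd c E → ∀ {σ : St} {t : ℕ}, Par c σ →
  WP E pZero (fun σ' t' => (∀ a < 2 * c.M, σ'.bank 12 a = 0) ∧ t' ≤ t + (2 * c.M * 3 + 2)) σ t

def SGen : Prop := ∀ {E : Env} {c : Cx}, Bnd c E → ∀ {b x m len : ℕ},
  x ∉ [len, 45, 47, 48] → m ∉ [len, 45, 47, 48] → len ∉ 45 :: 47 :: 48 :: parVars →
  ∀ {σ : St} {t : ℕ}, Par c σ → ∀ {e mx : ℕ}, e < c.Q → σ.var x = e → σ.var m = mx →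
  WP E (pGen b x m len) (fun σ' t' => σ'.var len = Nat.count (Pl c.t c.q e mx) c.Q ∧
    LstAt c b (Pl c.t c.q e mx) (Nat.count (Pl c.t c.q e mx) c.Q) σ' ∧
    t' ≤ t + c.tGen (Nat.count (Pl c.t c.q e mx) c.Q)) σ t

def SVal : Prop := ∀ {E : Env} {c : Cx}, Bnd c E → ∀ {σ : St} {t : ℕ}, Par c σ →
  σ.bank 4 0 = 0 →
  WP E pVal (fun σ' t' => (∀ z < c.N, (σ'.bank 4 z : ZMod E.W) = (c.x z : ℤ) ∧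
    σ'.bank 6 z = c.γ (σ.var 19) z) ∧ t' ≤ t + (c.N * 8 + 2)) σ t

def SList : Prop := ∀ {E : Env} {c : Cx}, Bnd c E → ∀ {σ : St} {t : ℕ}, Par c σ →
  ∀ {R : ℕ → ℕ} {r : ℕ}, σ.bank 0 = R → (∀ i < c.nR, R i < c.M) →
  (∀ z < c.N, σ.bank 6 z = c.γ r z) → (∀ v, σ.bank 8 v = 0) →
  WP E pList (fun σ' t' => LInv c R r (c.G * c.N * 3) σ' ∧ t' ≤ t + c.tList) σ t

def SAcc : Prop := ∀ {E : Env} {c : Cx}, Bnd c E → ∀ {σ : St} {t : ℕ} {R : ℕ → ℕ} {r : ℕ}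
  {u : ℕ × ℕ}, Ins c E R r u σ → (∀ a < 2 * c.M, σ.bank 12 a = 0) →
  WP E pAcc (fun σ' t' => (∀ a < 2 * c.M, (σ'.bank 12 a : ZMod E.W) = (c.WT r u c.N a : ℤ)) ∧
    t' ≤ t + c.tAcc) σ t

def SRow : Prop := ∀ {E : Env} {c : Cx}, Bnd c E → ∀ {σ : St} {t : ℕ} {R : ℕ → ℕ} {r : ℕ}
  {u : ℕ × ℕ}, Acc c E R r u σ → ∀ {w : ℕ}, w < c.Q → σ.var 36 = w →
  (∀ a < c.q, 1 ≤ dg c.t a w → RowOK c E R r u σ (w - c.t ^ a)) →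
  WP E pRow (fun σ' t' => RowOK c E R r u σ' w ∧ Keeps c E R r u σ σ' ∧
    (σ'.var 38 : ZMod E.W) = (c.Uz R r u w : ℤ) ∧ t' ≤ t + c.tRow) σ t

def SGlob : Prop := ∀ {E : Env} {c : Cx}, Bnd c E → ∀ {σ : St} {t : ℕ} {R : ℕ → ℕ} {r : ℕ}
  {u : ℕ × ℕ}, Acc c E R r u σ →
  WP E pGlob (fun σ' t' => (∀ w < c.Q, ds c.t c.q w ≤ c.d → RowOK c E R r u σ' w) ∧
    t' ≤ t + (c.LG * (c.tRow + 3) + 2)) σ t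

def SOne : Prop := ∀ {E : Env} {c : Cx}, Bnd c E → ∀ {σ : St} {t : ℕ} {R : ℕ → ℕ} {r : ℕ}
  {u : ℕ × ℕ}, Tab c E R r u σ → ∀ {e z : ℕ}, e < c.Q → ds c.t c.q e = c.L → z < c.N →
  σ.var 42 = e → σ.var 43 = z →
  WP E pOne (fun σ' t' => Keeps c E R r u σ σ' ∧ (c.test R r u e z → σ'.var 0 = 1) ∧
    (¬ c.test R r u e z → σ'.var 0 = σ.var 0) ∧ t' ≤ t + c.tOne) σ t

def SItem : Prop := ∀ {E : Env} {c : Cx}, Bnd c E → ∀ {σ : St} {t : ℕ} {R : ℕ → ℕ} {r : ℕ}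
  {u : ℕ × ℕ}, Tab c E R r u σ → ∀ {w m : ℕ}, w < c.Q1 → m < c.G * c.N * 3 →
  σ.var 50 = w → σ.var 51 = m + 1 →
  WP E pItem (fun σ' t' => Keeps c E R r u σ σ' ∧ c.Out R r (σ.var 0) (σ'.var 0) ∧
    (c.Pass R r u (w + c.hi m) (c.ei m) → σ'.var 0 = 1) ∧ t' ≤ t + c.tItem) σ t

def SEval : Prop := ∀ {E : Env} {c : Cx}, Bnd c E → ∀ {σ : St} {t : ℕ} {R : ℕ → ℕ} {r : ℕ}
  {u : ℕ × ℕ}, Tab c E R r u σ →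
  WP E pEval (fun σ' t' => c.Out R r (σ.var 0) (σ'.var 0) ∧
    (c.cum R r c.Q1 ≤ c.Cn → ∀ w < c.Q1, c.Hit R r u w → σ'.var 0 = 1) ∧
    t' ≤ t + c.tEval) σ t

def SLoop : Prop := ∀ {E : Env} {c : Cx}, Bnd c E → ∀ {σ : St} {t : ℕ} {R : ℕ → ℕ} {r : ℕ},
  Pre c E R r σ → (∀ d, σ.bank 5 d = 0) →
  WP E pLoop (fun σ' t' => c.Out R r (σ.var 0) (σ'.var 0) ∧
    (c.cum R r c.Q1 ≤ c.Cn → ∀ u : ℕ × ℕ, u.1 < c.A → u.2 < c.A → ∀ w < c.Q1,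
      c.Hit R r u w → σ'.var 0 = 1) ∧ t' ≤ t + c.tLoop) σ t

def SSetup : Prop := ∀ {E : Env} {c : Cx} {cc : ℕ}, c.toKc.OK cc → Sz c → Bnd c E →
  E.inp 0 = c.n → 2 ^ (20 * c.A) ≤ E.W → ∀ {σ : St} {t : ℕ},
  WP E (.seq (pConst c.toKc) pSetup) (fun σ' t' => Par c σ' ∧ σ'.var 0 = σ.var 0 ∧
    σ'.bank = σ.bank ∧ σ'.pos = σ.pos ∧ t' ≤ t + 30 * c.A) σ t

def SMain : Prop := ∀ {E : Env} {c : Cx} {cc : ℕ}, c.toKc.OK cc → Sz c → Bnd c E →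
  E.inp 0 = c.n → 2 ^ (20 * c.A) ≤ E.W →
  WP E (pMain c.toKc) (fun σ' t' => ∃ R : ℕ → ℕ,
    (∀ i < c.nR, R i = bits E.ω (c.k + c.A + i * c.k) c.k) ∧
    c.Out R (bits E.ω 0 (c.k + c.A)) 0 (σ'.var 0) ∧
    (c.cum R (bits E.ω 0 (c.k + c.A)) c.Q1 ≤ c.Cn → ∀ u : ℕ × ℕ, u.1 < c.A → u.2 < c.A →
      ∀ w < c.Q1, c.Hit R (bits E.ω 0 (c.k + c.A)) u w → σ'.var 0 = 1) ∧
    t' ≤ c.tAll) St.zero 0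

/-! ### Numbers -/

/-- the size facts that do not mention the environment -/
structure Nm (c : Cx) : Prop where
  m1 : 1 ≤ c.m
  s3 : 3 * c.s ≤ c.q
  nb : c.n < c.b
  bN : c.b ≤ c.N
  NQ : c.N < c.Q
  y0 : ∀ d, ¬ (1 ≤ d ∧ d ≤ c.n) → c.y d = 0
  xV : ∀ z < c.N, 4 * |c.x z| ≤ c.V
  fin : 8 * (c.Q * (c.N * c.N) * 2 ^ c.J) * c.V ^ 2 < c.T
  pA : 2 * ((2 * c.m + 1) ^ 2 * c.lb) + 8 < c.A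

def SK : Prop := ∀ m cc : ℕ, 1 ≤ m → ∃ K : Kc, K.m = m ∧ K.OK cc

def SBnd : Prop := ∀ {E : Env} {c : Cx} {cc w : ℕ}, c.toKc.OK cc → Sz c → E.W = 2 ^ w →
  20 * c.A ≤ w → E.Lim = 2 ^ (3 * c.A) → E.n1 = c.n + 1 →
  (∀ d, 1 ≤ d → d ≤ c.n → E.inp d = (c.y d % E.W).toNat) →
  (∀ d, ¬ (1 ≤ d ∧ d ≤ c.n) → c.y d = 0) → (∀ d, |c.y d| ≤ (c.n : ℤ) ^ cc) → Bnd c E ∧ Nm c

def STime : Prop := ∀ (K : Kc) (cc : ℕ), K.OK cc → ∃ γ : ℚ, γ < K.m + 1 ∧ ∃ C : ℝ,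
  ∀ c : Cx, c.toKc = K → Sz c → (c.tAll : ℝ) ≤ C * ((c.n : ℝ) ^ (γ : ℝ) + 1)

def SGood : Prop := ∀ {c : Cx} {cc : ℕ}, c.toKc.OK cc → Sz c → Nm c →
  ∃ (D : ℕ) (Ev : Finset (ℕ × ℕ)), EvOK c.t c.q c.h D Ev ∧ ∀ ia < c.N, ∀ ic < c.b,
    2 * (c.M * c.V * c.M ^ (c.q + 2)) ≤ 3 * ∑ r ∈ range (c.M * c.V),
      num (c.q + 2) (Good c.t c.q Ev c.N c.b c.Cn (gz c.M c.V r c.x) c.x ia ic)

/-! ### Correctness of the test -/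

def SSound : Prop := ∀ {c : Cx}, Nm c → ∀ {R : ℕ → ℕ} {r : ℕ}, c.Found R r →
  ∃ S ⊆ Icc 1 c.n, S.card = 2 * c.m + 1 ∧ ∑ d ∈ S, c.y d = 0

def SSplit : Prop := ∀ {c : Cx}, Nm c → ∀ S ⊆ Icc 1 c.n, S.card = 2 * c.m + 1 →
  ∑ d ∈ S, c.y d = 0 → ∃ u : ℕ × ℕ, u.1 < c.A ∧ u.2 < c.A ∧ ∃ ia < c.N, ∃ ic < c.b, ∃ ib < c.N,
    c.isA u ia ∧ c.isC u ic ∧ c.isB u ib ∧ c.x ia + c.x ic + c.x ib = 0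

def SComplete : Prop := ∀ {c : Cx}, Nm c → ∀ {R : ℕ → ℕ} {Rz : ℕ → ZMod c.M},
  (∀ i < c.nR, (R i : ZMod c.M) = Rz i) → (∀ i < c.nR, R i < c.M) →
  ∀ {r : ℕ} {u : ℕ × ℕ} {ia ic ib D : ℕ} {Ev : Finset (ℕ × ℕ)}, EvOK c.t c.q c.h D Ev →
  ia < c.N → ic < c.b → ib < c.N → c.isA u ia → c.isC u ic → c.isB u ib →
  c.x ia + c.x ic + c.x ib = 0 →
  Good c.t c.q Ev c.N c.b c.Cn (gz c.M c.V r c.x) c.x ia ic Rz →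
  c.cum R r c.Q1 ≤ c.Cn ∧ ∃ w < c.Q1, c.Hit R r u w

end Pool.Agent.P.MP_8f87b2_lc.KS
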