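import Pool.Agent.P.MP_8f87b2_lc.KS.Spec
import Pool.Agent.P.MP_8f87b2_lc.KS.Cnt

/-!
# The running time
-/

namespace Pool.Agent.P.MP_8f87b2_lc.KS

open Finset

namespace TimeP

theorem two_fact {n : ℕ} (h : 2 ≤ n) : 2 * n.factorial ≤ n ^ n := by
  induction n, h using Nat.le_induction with
  | base => decide
  | succ n _ ih =>
    calc 2 * (n + 1).factorial = (n + 1) * (2 * n.factorial) := by rw [Nat.factorial_succ]; ring
      _ ≤ (n + 1) * (n + 1) ^ n :=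
        Nat.mul_le_mul_left _ (ih.trans (Nat.pow_le_pow_left (Nat.le_succ n) n))
      _ = (n + 1) ^ (n + 1) := by ring

theorem six_sq {t : ℕ} (h : 256 ≤ t) : 6 * (t * t) ≤ t.factorial := by
  obtain ⟨u, rfl⟩ : ∃ u, t = u + 3 := ⟨t - 3, by omega⟩
  have h1 : 1 ≤ u.factorial := Nat.factorial_pos u
  have h2 : 6 * (u + 3) ≤ (u + 2) * (u + 1) := by nlinarith
  calc 6 * ((u + 3) * (u + 3)) = (u + 3) * (6 * (u + 3)) * 1 := by ring
    _ ≤ (u + 3) * ((u + 2) * (u + 1)) * u.factorial := by gcongr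
    _ = (u + 3).factorial := by simp only [Nat.factorial_succ]; ring

theorem cube_le (s : ℕ) : s ^ 3 ≤ 27 * 2 ^ s := by
  have h1 : s / 3 + 1 ≤ 2 ^ (s / 3) := Nat.lt_two_pow_self
  have h2 : s ≤ 3 * 2 ^ (s / 3) := by omega
  calc s ^ 3 ≤ (3 * 2 ^ (s / 3)) ^ 3 := Nat.pow_le_pow_left h2 3
    _ = 27 * 2 ^ (s / 3 * 3) := by rw [mul_pow, ← pow_mul]; norm_num
    _ ≤ 27 * 2 ^ s := Nat.mul_le_mul_left _ (Nat.pow_le_pow_right (by norm_num) (by omega))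

/-- arithmetic facts on the constants -/
theorem consts {K : Kc} {cc : ℕ} (h : K.OK cc) : ∃ g3 : ℕ, K.g = g3 + 3 ∧
    3 * K.τ * (2 ^ K.τ) ^ 2 ≤ 2 * K.g ∧ K.g ≤ 2 * K.η ∧ K.κ ≤ K.τ * g3 ∧
    K.m * K.l + 3 * K.g ≤ K.τ * g3 ∧ K.τ ≤ K.g ∧ K.τ * g3 + 1 < (K.m + 1) * K.l := by
  obtain ⟨hm, hτ, hg, hl, hη, hκ1, -, -, -, -⟩ := h
  have t1 : K.τ < 2 ^ K.τ := Nat.lt_two_pow_self
  have t2 : 256 ≤ 2 ^ K.τ :=
    (by norm_num : 256 = 2 ^ 8) ▸ Nat.pow_le_pow_right (by norm_num) (by omega)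
  have f1 := six_sq t2
  have f2 := two_fact (n := 2 ^ K.τ) (by omega)
  have ht : (2 ^ K.τ) ^ 2 ^ K.τ = 2 ^ (K.τ * 2 ^ K.τ) := (pow_mul _ _ _).symm
  rw [ht] at f2 hκ1
  generalize (2 ^ K.τ).factorial = F at *
  generalize 2 ^ K.τ = t at *
  have f3 : 6 * t ≤ F := by nlinarith
  have f4 : F ≤ K.g := by rw [hg]; exact Nat.le_mul_of_pos_left _ (by omega)
  obtain ⟨g3, hg3⟩ : ∃ g3, K.g = g3 + 3 := ⟨K.g - 3, by omega⟩
  refine ⟨g3, hg3, ?_, ?_, ?_, ?_, by omega, ?_⟩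
  · rw [hg]
    calc 3 * K.τ * t ^ 2 = t * (3 * (K.τ * t)) := by ring
      _ ≤ t * (6 * (t * t)) := by gcongr; omega
      _ ≤ t * F := by gcongr
      _ ≤ 2 * (t * F) := by omega
  · have : K.g * 2 ≤ K.g * (t - 1) := Nat.mul_le_mul_left _ (by omega)
    omega
  · have e1 : (2 ^ (K.τ * t) * F) ^ F * 2 ^ F ≤ 2 ^ (2 * (K.τ * t) * F) := by
      rw [← mul_pow, pow_mul 2 (2 * (K.τ * t)) F, two_mul (K.τ * t), pow_add]
      refine Nat.pow_le_pow_left ?_ F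
      rw [mul_assoc, mul_comm F 2]
      exact Nat.mul_le_mul_left _ f2
    have e2 : 2 ^ (2 * (K.κ + 1) + F) ≤ 2 ^ (2 * (K.τ * t) * F) := by
      refine le_trans ?_ e1
      rw [pow_add, pow_mul]
      exact Nat.mul_le_mul_right _ hκ1
    have e3 := (Nat.pow_le_pow_iff_right (by norm_num : 1 < 2)).1 e2
    have e4 : 2 * (K.τ * t) * F = 2 * (K.τ * g3) + 6 * K.τ := by
      calc 2 * (K.τ * t) * F = 2 * (K.τ * (t * F)) := by ring
        _ = 2 * (K.τ * (g3 + 3)) := by rw [← hg, hg3]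
        _ = _ := by ring
    omega
  · have e1 : K.l = 4 * g3 + 3 := by omega
    rw [e1, hg3, hτ]
    have : 3 * K.m + 9 ≤ g3 := by omega
    nlinarith
  · have e1 : K.l = 4 * g3 + 3 := by omega
    rw [e1, hτ]
    nlinarith

theorem p2_le {a b : ℕ} (h : a ≤ b) : 2 ^ a ≤ 2 ^ b := Nat.pow_le_pow_right (by norm_num) h

/-- the time bound in terms of the two size parameters -/
theorem poly {c : Cx} {A B : ℕ} (hA : c.A = A) (A1 : 1 ≤ A) (B1 : 1 ≤ B) (hq : c.q ≤ A)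
    (hJ : c.J ≤ A) (hm : c.m ≤ A) (hk : c.k ≤ A) (hL : c.LG ≤ B) (hM : c.M ≤ B)
    (hC : c.Cn * c.Lb ≤ 64 * B) (hGN : c.G * c.N ≤ B) (hn : c.n ≤ B) (hQ : c.Q1 ≤ B) :
    c.tAll ≤ 10 ^ 5 * (A ^ 3 * B) := by
  have L1 : 1 ≤ c.Lb := Nat.one_le_pow _ _ (by norm_num)
  have hG : c.G ≤ B := (Nat.le_mul_of_pos_right _ c.N_pos).trans hGN
  have hN : c.N ≤ B := (Nat.le_mul_of_pos_left _ c.G_pos).trans hGN
  have v1 : c.tHv ≤ 9 * A := by unfold Cx.tHv; omega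
  have v2 : c.tRow ≤ 48 * A := by unfold Cx.tRow Cx.tZ; omega
  have v3 : c.tChk ≤ 7 * A := by unfold Cx.tChk; omega
  have gen : ∀ len X, 1 ≤ X → len ≤ X → c.tGen len ≤ 16 * (A * X) := by
    intro len X hX hl
    have h1 : c.q * (len * 7 + 4) ≤ A * (11 * X) := Nat.mul_le_mul hq (by omega)
    have h2 : 1 ≤ A * X := Nat.mul_pos A1 hX
    unfold Cx.tGen
    linarith
  have a1 : A ≤ A * c.Lb := Nat.le_mul_of_pos_right _ L1
  have v4 : c.tItem + 3 ≤ 95 * (A * c.Lb) := by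
    have h1 := gen c.Lb c.Lb L1 le_rfl
    have h2 : c.Lb * (c.tRow + 3) ≤ c.Lb * (51 * A) := Nat.mul_le_mul_left _ (by omega)
    unfold Cx.tItem Cx.tOne
    linarith
  have a2 : B ≤ A * B := Nat.le_mul_of_pos_left _ A1
  have a3 : A ≤ A * B := Nat.le_mul_of_pos_right _ B1
  have v5 : c.tInst + 2 ≤ 7000 * (A * B) := by
    have h1 : c.N * (c.tChk + 10) ≤ B * (17 * A) := Nat.mul_le_mul hN (by omega)
    have h2 : c.LG * (c.tRow + 3) ≤ B * (51 * A) := Nat.mul_le_mul hL (by omega)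
    have h3 : c.Q1 * (c.tHv + 4) ≤ B * (13 * A) := Nat.mul_le_mul hQ (by omega)
    have h4 : c.Cn * (c.tItem + 3) ≤ 95 * A * (64 * B) :=
      calc c.Cn * (c.tItem + 3) ≤ c.Cn * (95 * (A * c.Lb)) := Nat.mul_le_mul_left _ v4
        _ = 95 * A * (c.Cn * c.Lb) := by ring
        _ ≤ 95 * A * (64 * B) := Nat.mul_le_mul_left _ hC
    unfold Cx.tInst Cx.tAcc Cx.tEval
    linarith
  have a4 : A * B ≤ A * (A * B) := Nat.le_mul_of_pos_left _ A1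
  have a5 : A * (A * B) ≤ A * (A * (A * B)) := Nat.le_mul_of_pos_left _ A1
  have v6 : c.tLoop ≤ 8000 * (A * (A * (A * B))) := by
    have h1 : A * (c.tInst + 2) ≤ A * (7000 * (A * B)) := Nat.mul_le_mul_left _ v5
    have h2 : (c.n * 6 + 3) + (A * (c.tInst + 2) + 2) + 2 ≤ 7100 * (A * (A * B)) := by linarith
    have h3 := Nat.mul_le_mul_left A h2
    unfold Cx.tLoop
    rw [hA]
    linarith
  have v7 : c.tList ≤ 50 * (A * B) := by
    have h1 : c.G * (c.tHv + 6) ≤ B * (15 * A) := Nat.mul_le_mul hG (by omega)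
    unfold Cx.tList
    linarith
  have v8 := gen c.LG B B1 hL
  have v9 : c.nR * (4 * c.k + 6) ≤ 30 * (A * (A * B)) := by
    have h1 : c.nR * (4 * c.k + 6) ≤ 3 * A * (10 * A) :=
      Nat.mul_le_mul (by unfold Cx.nR; omega) (by omega)
    have h2 : A * A ≤ A * (A * B) := Nat.mul_le_mul_left _ a3
    linarith
  have e : A ^ 3 * B = A * (A * (A * B)) := by ring
  unfold Cx.tAll
  rw [hA, e]
  omega

theorem tAll_le {c : Cx} {cc g3 : ℕ} (h : c.toKc.OK cc) (hS : Sz c) (hg : c.g = g3 + 3)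
    (h1 : 3 * c.τ * (2 ^ c.τ) ^ 2 ≤ 2 * c.g) (h2 : c.g ≤ 2 * c.η) (h3 : c.κ ≤ c.τ * g3)
    (h4 : c.m * c.l + 3 * c.g ≤ c.τ * g3) (h5 : c.τ ≤ c.g) :
    c.tAll ≤ 10 ^ 5 * 27 * c.a ^ 3 * 2 ^ ((c.τ * g3 + 1) * c.s) := by
  have hs : 1 ≤ c.s := by have := h.hs0; have := hS.s1; omega
  have ha := h.ha
  have hm := h.hm
  have t1 : 1 ≤ 2 ^ c.τ := Nat.one_le_two_pow
  have g1 : c.g ≤ c.g * 2 ^ c.τ := Nat.le_mul_of_pos_right _ t1
  have hQ1 : c.Q1 = 2 ^ (c.τ * g3 * c.s) := by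
    have : c.q - 3 * c.s = g3 * c.s := by
      unfold Cx.q; rw [hg, add_mul]; omega
    rw [Cx.Q1, this, c.t_pow, mul_assoc]
  have hN : c.N = 2 ^ (c.m * c.l * c.s) := by
    unfold Cx.N Cx.b Cx.lb; rw [← pow_mul]; congr 1; ring
  have hG : c.G = 2 ^ (3 * c.τ * c.s) := by
    rw [Cx.G, c.t_pow]; congr 1; ring
  have hQ : c.t ^ c.q = 2 ^ (c.τ * g3 * c.s) * 2 ^ (3 * c.τ * c.s) := by
    rw [c.t_pow, ← pow_add]; congr 1; unfold Cx.q; rw [hg]; ring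
  have hLG : c.LG ≤ 2 ^ (c.τ * g3 * c.s) := by
    have e1 := count_global (t := c.t) (q := c.q) (L := c.L) (j := 3 * c.τ * c.s) c.t_pos
      (by
        unfold Cx.L Cx.h Cx.q Cx.t
        calc 2 * (2 * (c.η * c.s)) = 4 * c.η * c.s := by ring
          _ = c.g * (2 ^ c.τ - 1) * c.s := by rw [h.hη]
          _ = _ := by ring)
      (by
        unfold Cx.L Cx.h Cx.q
        rw [← mul_assoc]
        exact Nat.mul_le_mul_right _ h2)
      (by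
        unfold Cx.q Cx.t
        calc 3 * c.τ * c.s * (2 ^ c.τ) ^ 2 = 3 * c.τ * (2 ^ c.τ) ^ 2 * c.s := by ring
          _ ≤ 2 * c.g * c.s := Nat.mul_le_mul_right _ h1
          _ = _ := by ring)
    have e2 : c.LG ≤ ((range (c.t ^ c.q)).filter fun w => ds c.t c.q w ≤ c.L - c.q).card := by
      rw [Cx.LG, Nat.count_eq_card_filter_range]
      exact card_le_card fun w hw =>
        mem_filter.2 ⟨(mem_filter.1 hw).1, (mem_filter.1 hw).2.2.2⟩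
    refine e2.trans (Nat.le_of_mul_le_mul_right (c := 2 ^ (3 * c.τ * c.s)) ?_ (by positivity))
    rw [← hQ]
    exact e1
  have m4 := Nat.mul_le_mul_right c.s h4
  have m5 := Nat.mul_le_mul_right c.s h5
  have key := poly (c := c) (A := c.a * c.s) (B := 2 ^ (c.τ * g3 * c.s)) rfl
    (Nat.mul_pos (by omega) hs) Nat.one_le_two_pow
    (Nat.mul_le_mul_right _ (by omega))
    (by
      unfold Cx.J Cx.q Cx.t
      rw [mul_right_comm]
      exact Nat.mul_le_mul_right _ (by omega))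
    ((by omega : c.m ≤ c.a).trans (Nat.le_mul_of_pos_right _ hs))
    (Nat.mul_le_mul_right _ (by omega)) hLG (p2_le (Nat.mul_le_mul_right _ h3))
    (by
      unfold Cx.Cn Cx.Lb Cx.q
      rw [hN, show (4 : ℕ) = 2 ^ 2 by norm_num, ← pow_mul, mul_assoc, mul_assoc, ← pow_add,
        ← pow_add]
      exact Nat.mul_le_mul_left _ (p2_le (by nlinarith)))
    (by rw [hG, hN, ← pow_add]; exact p2_le (by nlinarith))
    (by
      refine hS.nN.le.trans (p2_le ?_)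
      unfold Cx.lb
      have : c.l * c.s ≤ c.m * (c.l * c.s) := Nat.le_mul_of_pos_left _ hm
      nlinarith)
    hQ1.le
  refine key.trans ?_
  calc 10 ^ 5 * ((c.a * c.s) ^ 3 * 2 ^ (c.τ * g3 * c.s))
      = 10 ^ 5 * c.a ^ 3 * 2 ^ (c.τ * g3 * c.s) * c.s ^ 3 := by ring
    _ ≤ 10 ^ 5 * c.a ^ 3 * 2 ^ (c.τ * g3 * c.s) * (27 * 2 ^ c.s) :=
      Nat.mul_le_mul_left _ (cube_le _)
    _ = _ := by rw [add_mul, one_mul, pow_add]; ring

end TimeP

open TimeP in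
theorem sTime : STime := by
  intro K cc h
  obtain ⟨g3, hg, h1, h2, h3, h4, h5, h6⟩ := consts h
  have hl : 0 < K.l := by
    rcases Nat.eq_zero_or_pos K.l with h0 | h0
    · rw [h0] at h6; omega
    · exact h0
  have hlq : (0 : ℚ) < K.l := by exact_mod_cast hl
  have hlr : (0 : ℝ) < K.l := by exact_mod_cast hl
  obtain ⟨β, hβ⟩ : ∃ β, β = K.τ * g3 + 1 := ⟨_, rfl⟩
  obtain ⟨Λ, hΛ⟩ : ∃ Λ : ℝ, Λ = 2 ^ β := ⟨_, rfl⟩
  have hΛ1 : 1 ≤ Λ := hΛ ▸ one_le_pow₀ (by norm_num)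
  refine ⟨(β : ℚ) / K.l, ?_, 10 ^ 5 * 27 * (K.a : ℝ) ^ 3 * Λ ^ K.s0, ?_⟩
  · rw [div_lt_iff₀ hlq, hβ]
    exact_mod_cast h6
  rintro c rfl hS
  rw [show ((((β : ℚ) / c.l : ℚ)) : ℝ) = (β : ℝ) / c.l by push_cast; rfl]
  have e1 := tAll_le h hS hg h1 h2 h3 h4 h5
  have e2 : (c.tAll : ℝ) ≤ 10 ^ 5 * 27 * (c.a : ℝ) ^ 3 * Λ ^ c.s := by
    rw [hΛ, ← pow_mul, hβ]; exact_mod_cast e1
  have h0 : (0 : ℝ) ≤ (c.n : ℝ) ^ ((β : ℝ) / c.l) := by positivity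
  refine e2.trans ?_
  rw [mul_assoc _ (Λ ^ c.s0)]
  refine mul_le_mul_of_nonneg_left ?_ (by positivity)
  rcases Nat.lt_or_ge c.s0 c.s with hs | hs
  · obtain ⟨s, hs'⟩ : ∃ s, c.s = s + 1 := ⟨c.s - 1, by omega⟩
    have e3 : (2 : ℝ) ^ (c.l * s) ≤ c.n := by exact_mod_cast hS.smin s (by omega) (by omega)
    have e4 : Λ ^ s ≤ (c.n : ℝ) ^ ((β : ℝ) / c.l) := by
      refine le_trans (le_of_eq ?_) (Real.rpow_le_rpow (by positivity) e3 (by positivity))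
      rw [hΛ, ← pow_mul, ← Real.rpow_natCast, ← Real.rpow_natCast, ← Real.rpow_mul (by norm_num)]
      congr 1
      push_cast
      field_simp
    have e5 := h.hs0
    rw [hs', pow_succ']
    exact mul_le_mul (le_self_pow₀ hΛ1 (by omega)) (by linarith) (by positivity) (by positivity)
  · exact (pow_le_pow_right₀ hΛ1 hs).trans (le_mul_of_one_le_right (by positivity) (by linarith))

end Pool.Agent.P.MP_8f87b2_lc.KS
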